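import Mathlib

/-!
# Containers for independent sets (Kleitman–Winston)
-/

namespace Pool.Agent.Helper6.LR

open Finset

variable {V : Type*} [DecidableEq V]

open Classical in
/-- Every independent set is contained in the union of a small subset `T` of it and a set
`Cont T` of small relative maximal degree which depends only on `T`. -/
theorem container (adj : V → V → Prop) {β : ℝ} (hβ1 : β < 1) : ∀ (n : ℕ) (A : Finset V),
    A.card ≤ n → (∀ v ∈ A, ¬ adj v v) → ∃ Cont : Finset V → Finset V, ∀ S ⊆ A,
      (∀ x ∈ S, ∀ y ∈ S, ¬ adj x y) → ∃ T ⊆ S, S ⊆ T ∪ Cont T ∧ Cont T ⊆ A ∧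
        (∀ x ∈ Cont T, (((Cont T).filter (fun y => adj x y)).card : ℝ) < β * (Cont T).card) ∧
        1 ≤ (1 - β) ^ T.card * ((A.card : ℝ) + 1) := by
  intro n
  induction n with
  | zero =>
    intro A hA _
    have hA0 : A = ∅ := by
      rw [← Finset.card_eq_zero]
      omega
    refine ⟨fun _ => ∅, ?_⟩
    intro S hS _
    refine ⟨∅, Finset.empty_subset _, ?_, Finset.empty_subset _, ?_, ?_⟩
    · rw [hA0] at hS
      exact hS.trans (Finset.empty_subset _)
    · intro x hx
      exact absurd hx (Finset.notMem_empty x)
    · rw [hA0]
      simp
  | succ n ih =>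
    intro A hA hirr
    by_cases hdeg : ∀ x ∈ A, ((A.filter (fun y => adj x y)).card : ℝ) < β * A.card
    · refine ⟨fun _ => A, ?_⟩
      intro S hS _
      refine ⟨∅, Finset.empty_subset _, ?_, Finset.Subset.refl _, hdeg, ?_⟩
      · exact hS.trans Finset.subset_union_right
      · simp
    · push Not at hdeg
      obtain ⟨v, hv, hvdeg⟩ := hdeg
      have hc1 : (A.erase v).card + 1 = A.card := Finset.card_erase_add_one hv
      obtain ⟨Cont1, hCont1⟩ := ih (A.erase v) (by omega)
        (fun x hx => hirr x (Finset.mem_of_mem_erase hx))
      obtain ⟨A2, hA2⟩ : ∃ A2 : Finset V, A2 = (A.erase v).filter (fun y => ¬ adj v y) :=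
        ⟨_, rfl⟩
      have hA2sub : A2 ⊆ A.erase v := by
        rw [hA2]
        exact Finset.filter_subset _ _
      have hA2card : A2.card + 1 + (A.filter (fun y => adj v y)).card = A.card := by
        have h1 := Finset.card_filter_add_card_filter_not (s := A.erase v) (fun y => adj v y)
        have h2 : (A.erase v).filter (fun y => adj v y) = A.filter (fun y => adj v y) := by
          ext y
          simp only [Finset.mem_filter, Finset.mem_erase]
          constructor
          · rintro ⟨⟨_, h⟩, h'⟩
            exact ⟨h, h'⟩
          · rintro ⟨h, h'⟩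
            refine ⟨⟨?_, h⟩, h'⟩
            rintro rfl
            exact hirr y hv h'
        rw [h2, ← hA2] at h1
        omega
      obtain ⟨Cont2, hCont2⟩ := ih A2 (by
        have := Finset.card_le_card hA2sub
        omega) (fun x hx => hirr x (Finset.mem_of_mem_erase (hA2sub hx)))
      refine ⟨fun T => if v ∈ T then Cont2 (T.erase v) else Cont1 T, ?_⟩
      intro S hS hind
      by_cases hvS : v ∈ S
      · have hS2 : S.erase v ⊆ A2 := by
          intro x hx
          rw [Finset.mem_erase] at hx
          rw [hA2, Finset.mem_filter, Finset.mem_erase]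
          exact ⟨⟨hx.1, hS hx.2⟩, hind v hvS x hx.2⟩
        obtain ⟨T2, hT2, hcov, hsub, hd, hsize⟩ := hCont2 (S.erase v) hS2
          (fun x hx y hy => hind x (Finset.mem_of_mem_erase hx) y (Finset.mem_of_mem_erase hy))
        have hvT2 : v ∉ T2 := fun h => Finset.notMem_erase v S (hT2 h)
        have heq : (if v ∈ insert v T2 then Cont2 ((insert v T2).erase v)
            else Cont1 (insert v T2)) = Cont2 T2 := by
          rw [if_pos (Finset.mem_insert_self v T2), Finset.erase_insert hvT2]
        refine ⟨insert v T2, ?_, ?_⟩
        · intro x hx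
          rcases Finset.mem_insert.mp hx with rfl | hx
          · exact hvS
          · exact Finset.mem_of_mem_erase (hT2 hx)
        · simp only [heq]
          refine ⟨?_, ?_, hd, ?_⟩
          · intro x hx
            by_cases hxv : x = v
            · rw [hxv]
              exact Finset.mem_union_left _ (Finset.mem_insert_self v T2)
            · have := hcov (Finset.mem_erase.mpr ⟨hxv, hx⟩)
              rcases Finset.mem_union.mp this with h | h
              · exact Finset.mem_union_left _ (Finset.mem_insert_of_mem h)
              · exact Finset.mem_union_right _ h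
          · exact hsub.trans (hA2sub.trans (Finset.erase_subset _ _))
          · rw [Finset.card_insert_of_notMem hvT2, pow_succ]
            have h1 : (A2.card : ℝ) + 1 ≤ (1 - β) * (A.card + 1) := by
              have h2 : (A2.card : ℝ) + 1 + (A.filter (fun y => adj v y)).card = A.card := by
                exact_mod_cast hA2card
              linarith
            calc (1 : ℝ) ≤ (1 - β) ^ T2.card * ((A2.card : ℝ) + 1) := hsize
              _ ≤ (1 - β) ^ T2.card * ((1 - β) * (A.card + 1)) := by
                  apply mul_le_mul_of_nonneg_left h1
                  exact pow_nonneg (by linarith) _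
              _ = _ := by ring
      · have hS1 : S ⊆ A.erase v := by
          intro x hx
          rw [Finset.mem_erase]
          refine ⟨?_, hS hx⟩
          rintro rfl
          exact hvS hx
        obtain ⟨T1, hT1, hcov, hsub, hd, hsize⟩ := hCont1 S hS1 hind
        have hvT1 : v ∉ T1 := fun h => hvS (hT1 h)
        refine ⟨T1, hT1, ?_⟩
        simp only [if_neg hvT1]
        refine ⟨hcov, hsub.trans (Finset.erase_subset _ _), hd, ?_⟩
        have h1 : ((A.erase v).card : ℝ) + 1 ≤ (A.card : ℝ) + 1 := by
          have : (A.erase v).card ≤ A.card := by omega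
          have h' : ((A.erase v).card : ℝ) ≤ A.card := by exact_mod_cast this
          linarith
        calc (1 : ℝ) ≤ (1 - β) ^ T1.card * (((A.erase v).card : ℝ) + 1) := hsize
          _ ≤ _ := by
              apply mul_le_mul_of_nonneg_left h1
              exact pow_nonneg (by linarith) _

end Pool.Agent.Helper6.LR
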