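import Pool.Agent.Helper6.LR2.RFinal

set_option linter.unusedSectionVars false

/-!
# Coordinates of a graph of rank `r`
-/

namespace Pool.Agent.Helper6.LR

open Finset Module

variable {r : ℕ}

/-- The real matrix of a Boolean matrix. -/
noncomputable def bM (M : Fin r → Fin r → Bool) : Matrix (Fin r) (Fin r) ℝ :=
  Matrix.of fun i j => if M i j then 1 else 0

/-- The real vector of a Boolean vector. -/
noncomputable def bv (x : Fin r → Bool) : Fin r → ℝ := fun i => if x i then 1 else 0

theorem bv_inj {x y : Fin r → Bool} (h : bv x = bv y) : x = y := by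
  funext i
  have h1 := congrFun h i
  simp only [bv] at h1
  by_cases hx : x i <;> by_cases hy : y i <;> simp [hx, hy] at h1 ⊢

/-- The form given by the inverse matrix. -/
noncomputable def qf (M : Fin r → Fin r → Bool) (x y : Fin r → Bool) : ℝ :=
  bv x ⬝ᵥ ((bM M)⁻¹.mulVec (bv y))

/-- The corresponding `±1`-like matrix. -/
noncomputable def NM (M : Fin r → Fin r → Bool) : (Fin r → Bool) → (Fin r → Bool) → ℝ :=
  fun x y => 1 - 2 * qf M x y

theorem qf_symm {M : Fin r → Fin r → Bool} (hM : ∀ i j, M i j = M j i) (x y : Fin r → Bool) :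
    qf M x y = qf M y x := by
  have hT : (bM M).transpose = bM M := by
    ext i j
    simp only [Matrix.transpose_apply, bM, Matrix.of_apply]
    rw [hM]
  have hT' : ((bM M)⁻¹).transpose = (bM M)⁻¹ := by
    rw [Matrix.transpose_nonsing_inv, hT]
  rw [qf, qf, Matrix.dotProduct_mulVec, ← Matrix.mulVec_transpose, hT', dotProduct_comm]

theorem NM_tr {M : Fin r → Fin r → Bool} (hM : ∀ i j, M i j = M j i) : tr (NM M) = NM M := by
  funext x y
  show 1 - 2 * qf M y x = 1 - 2 * qf M x y
  rw [qf_symm hM]

theorem qf_row {M : Fin r → Fin r → Bool} (hdet : (bM M).det ≠ 0) (i : Fin r)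
    (y : Fin r → Bool) : qf M (M i) y = bv y i := by
  have h1 : bv (M i) = (bM M) i := by
    funext j
    rfl
  have h2 : (bM M).mulVec ((bM M)⁻¹.mulVec (bv y)) = bv y := by
    rw [Matrix.mulVec_mulVec, Matrix.mul_nonsing_inv _ (isUnit_iff_ne_zero.mpr hdet),
      Matrix.one_mulVec]
  calc qf M (M i) y = (bM M) i ⬝ᵥ ((bM M)⁻¹.mulVec (bv y)) := by rw [qf, h1]
    _ = (bM M).mulVec ((bM M)⁻¹.mulVec (bv y)) i := rfl
    _ = bv y i := by rw [h2]

theorem bv_cases (x : Fin r → Bool) (i : Fin r) : bv x i = 0 ∨ bv x i = 1 := by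
  by_cases h : x i <;> simp [bv, h]

theorem ex_iff {M : Fin r → Fin r → Bool} {x y : Fin r → Bool} :
    Ex (NM M) x y ↔ qf M x y = 0 ∨ qf M x y = 1 := by
  unfold Ex NM
  constructor
  · rintro (h | h)
    · left; linarith
    · right; linarith
  · rintro (h | h)
    · left; linarith
    · right; linarith

theorem rk_NM (M : Fin r → Fin r → Bool) (A B : Finset (Fin r → Bool)) :
    rk (NM M) A B ≤ r + 1 := by
  classical
  let g : Option (Fin r) → ((Fin r → Bool) → ℝ) := fun o => match o with
    | none => P A (fun _ => 1)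
    | some i => P A (fun x => bv x i)
  have hle : CS (NM M) A B ≤ Submodule.span ℝ (Set.range g) := by
    rw [CS, Submodule.span_le]
    rintro _ ⟨y, _, rfl⟩
    have h1 : P A (col (NM M) y) = g none +
        ∑ i, (-2 * ((bM M)⁻¹.mulVec (bv y)) i) • g (some i) := by
      funext x
      rw [Pi.add_apply, Finset.sum_apply]
      by_cases hx : x ∈ A
      · simp only [g, P_mem hx, Pi.smul_apply, smul_eq_mul, col, NM, qf, dotProduct]
        rw [Finset.mul_sum, sub_eq_add_neg, ← Finset.sum_neg_distrib]
        congr 1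
        apply Finset.sum_congr rfl
        intro i _
        ring
      · simp only [g, P_not_mem hx, Pi.smul_apply, smul_eq_mul, mul_zero, Finset.sum_const_zero,
          add_zero]
    show P A (col (NM M) y) ∈ Submodule.span ℝ (Set.range g)
    rw [h1]
    apply Submodule.add_mem
    · exact Submodule.subset_span ⟨none, rfl⟩
    · apply Submodule.sum_mem
      intro i _
      exact Submodule.smul_mem _ _ (Submodule.subset_span ⟨some i, rfl⟩)
  calc rk (NM M) A B ≤ finrank ℝ (Submodule.span ℝ (Set.range g)) := Submodule.finrank_mono hle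
    _ ≤ Fintype.card (Option (Fin r)) := finrank_range_le_card g
    _ = r + 1 := by rw [Fintype.card_option, Fintype.card_fin]

/-- A vector of the column space of a symmetric matrix vanishing on spanning indices is zero. -/
theorem sym_key {V : Type*} [Fintype V] {A : Matrix V V ℝ} (hA : A.transpose = A)
    {f : Fin r → V}
    (hf : ∀ v, A.col v ∈ Submodule.span ℝ (Set.range fun j => A.col (f j))) {w : V → ℝ}
    (hw : w ∈ Submodule.span ℝ (Set.range fun j => A.col (f j))) (hw0 : ∀ j, w (f j) = 0) :
    w = 0 := by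
  classical
  have hsym : ∀ i j, A i j = A j i := fun i j => congrFun (congrFun hA j) i
  have hrange : w ∈ LinearMap.range A.mulVecLin := by
    rw [Matrix.range_mulVecLin]
    refine Submodule.span_mono ?_ hw
    rintro _ ⟨j, rfl⟩
    exact ⟨f j, rfl⟩
  obtain ⟨c, hc⟩ := hrange
  have hwv : ∀ v, w v = ∑ u, A.col v u * c u := by
    intro v
    rw [← hc]
    simp only [Matrix.mulVecLin_apply, Matrix.mulVec, dotProduct, Matrix.col_apply]
    apply Finset.sum_congr rfl
    intro u _
    rw [hsym]
  let φ : (V → ℝ) →ₗ[ℝ] ℝ :=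
    { toFun := fun x => ∑ u, x u * c u
      map_add' := by
        intro x y
        rw [← Finset.sum_add_distrib]
        apply Finset.sum_congr rfl
        intro u _
        rw [Pi.add_apply]
        ring
      map_smul' := by
        intro a x
        rw [RingHom.id_apply, smul_eq_mul, Finset.mul_sum]
        apply Finset.sum_congr rfl
        intro u _
        rw [Pi.smul_apply, smul_eq_mul]
        ring }
  have hφ : Submodule.span ℝ (Set.range fun j => A.col (f j)) ≤ LinearMap.ker φ := by
    rw [Submodule.span_le]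
    rintro _ ⟨j, rfl⟩
    have : φ (A.col (f j)) = 0 := by
      rw [← hw0 j, hwv (f j)]
      rfl
    exact this
  funext v
  rw [hwv v]
  exact hφ (hf v)

theorem exists_basis {n : ℕ} (A : Matrix (Fin n) (Fin n) ℝ) (hr : A.rank = r) :
    ∃ f : Fin r → Fin n, LinearIndependent ℝ (fun j => A.col (f j)) ∧
      ∀ v, A.col v ∈ Submodule.span ℝ (Set.range fun j => A.col (f j)) := by
  classical
  rw [Matrix.rank_eq_finrank_span_cols] at hr
  obtain ⟨g, hg1, hg2, hg3⟩ :=
    Submodule.exists_fun_fin_finrank_span_eq ℝ (Set.range A.col)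
  have hg4 : ∀ i, ∃ v, A.col v = g i := fun i => hg1 i
  choose f hf using hg4
  subst hr
  have hfg : (fun j => A.col (f j)) = g := by
    funext j
    exact hf j
  refine ⟨f, ?_, fun v => ?_⟩
  · rw [hfg]
    exact hg3
  · rw [hfg, hg2]
    exact Submodule.subset_span ⟨v, rfl⟩

/-- Coordinates. -/
theorem exists_coord {n : ℕ} (G : SimpleGraph (Fin n)) [DecidableRel G.Adj]
    (hr : (G.adjMatrix ℝ).rank = r) :
    ∃ (M : Fin r → Fin r → Bool) (x : Fin n → Fin r → Bool), (∀ i j, M i j = M j i) ∧
      (bM M).det ≠ 0 ∧ ∀ v w, (if G.Adj v w then (1 : ℝ) else 0) = qf M (x v) (x w) := by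
  classical
  obtain ⟨A, hA⟩ : ∃ A : Matrix (Fin n) (Fin n) ℝ, A = G.adjMatrix ℝ := ⟨_, rfl⟩
  have hAT : A.transpose = A := by
    rw [hA]
    exact SimpleGraph.transpose_adjMatrix _
  have hAe : ∀ v w, A v w = if G.Adj v w then (1 : ℝ) else 0 := by
    intro v w
    rw [hA, SimpleGraph.adjMatrix_apply]
  rw [← hA] at hr
  obtain ⟨f, hli, hspan⟩ := exists_basis A hr
  have hAs : ∀ v w, A v w = A w v := fun i j => congrFun (congrFun hAT j) i
  let M : Fin r → Fin r → Bool := fun i j => decide (G.Adj (f i) (f j))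
  let x : Fin n → Fin r → Bool := fun v i => decide (G.Adj v (f i))
  have hMe : ∀ i j, bM M i j = A (f i) (f j) := by
    intro i j
    rw [hAe]
    simp [bM, M]
  have hxe : ∀ v i, bv (x v) i = A v (f i) := by
    intro v i
    rw [hAe]
    simp [bv, x]
  have hdet : (bM M).det ≠ 0 := by
    intro h0
    obtain ⟨d, hd0, hd⟩ := Matrix.exists_mulVec_eq_zero_iff.mpr h0
    apply hd0
    have h1 : ∑ j, d j • A.col (f j) = 0 := by
      apply sym_key hAT hspan
      · apply Submodule.sum_mem
        intro j _
        exact Submodule.smul_mem _ _ (Submodule.subset_span ⟨j, rfl⟩)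
      · intro i
        have h2 := congrFun hd i
        simp only [Matrix.mulVec, dotProduct, Pi.zero_apply] at h2
        rw [Finset.sum_apply]
        rw [← h2]
        apply Finset.sum_congr rfl
        intro j _
        rw [hMe, Pi.smul_apply, smul_eq_mul, Matrix.col_apply, mul_comm]
    funext j
    exact Fintype.linearIndependent_iff.mp hli d h1 j
  refine ⟨M, x, ?_, hdet, ?_⟩
  · intro i j
    simp only [M]
    congr 1
    exact propext (G.adj_comm _ _)
  · intro v w
    obtain ⟨c, hc⟩ := (Submodule.mem_span_range_iff_exists_fun ℝ).mp (hspan w)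
    have h1 : ∀ u, A u w = ∑ j, c j * A u (f j) := by
      intro u
      have h2 := congrFun hc u
      rw [Finset.sum_apply] at h2
      rw [← Matrix.col_apply A w u, ← h2]
      apply Finset.sum_congr rfl
      intro j _
      rw [Pi.smul_apply, smul_eq_mul, Matrix.col_apply]
    have h2 : (bM M).mulVec c = bv (x w) := by
      funext i
      rw [hxe, hAs w (f i), h1 (f i)]
      simp only [Matrix.mulVec, dotProduct]
      apply Finset.sum_congr rfl
      intro j _
      rw [hMe, mul_comm]
    have h3 : c = (bM M)⁻¹.mulVec (bv (x w)) := by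
      rw [← h2, Matrix.mulVec_mulVec, Matrix.nonsing_inv_mul _ (isUnit_iff_ne_zero.mpr hdet),
        Matrix.one_mulVec]
    rw [← hAe, h1 v, qf, ← h3]
    simp only [dotProduct]
    apply Finset.sum_congr rfl
    intro j _
    rw [hxe, mul_comm]

end Pool.Agent.Helper6.LR
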