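import Pool.Agent.Helper6.LR2.Dich

set_option linter.unusedSectionVars false

/-!
# Counting graphs with small containers
-/

namespace Pool.Agent.Helper6.LR

open Finset Module

/-- The number of small subsets. -/
theorem card_small_subsets {V : Type*} [Fintype V] [DecidableEq V] (q : ℕ) :
    ((univ : Finset (Finset V)).filter (fun T => T.card ≤ q)).card ≤
      (Fintype.card V + 1) ^ q := by
  classical
  let f : Finset V → (Fin q → Option V) := fun T i => T.toList[i.1]?
  have hmem : ∀ T : Finset V, T.card ≤ q → ∀ v, v ∈ T ↔ ∃ i, f T i = some v := by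
    intro T hT v
    constructor
    · intro hv
      have h1 : v ∈ T.toList := Finset.mem_toList.mpr hv
      obtain ⟨i, hi⟩ := List.mem_iff_getElem?.mp h1
      have h2 : i < T.toList.length := by
        by_contra h
        push Not at h
        rw [List.getElem?_eq_none h] at hi
        exact absurd hi (by simp)
      rw [Finset.length_toList] at h2
      exact ⟨⟨i, by omega⟩, hi⟩
    · rintro ⟨i, hi⟩
      have h1 : v ∈ T.toList := List.mem_iff_getElem?.mpr ⟨i.1, hi⟩
      exact Finset.mem_toList.mp h1
  calc _ ≤ (univ : Finset (Fin q → Option V)).card := by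
        apply Finset.card_le_card_of_injOn f
        · intro T _
          exact Finset.mem_coe.mpr (mem_univ _)
        · intro T hT T' hT' h
          have h1 := (Finset.mem_filter.mp hT).2
          have h2 := (Finset.mem_filter.mp hT').2
          ext v
          rw [hmem T h1 v, hmem T' h2 v, h]
    _ = (Fintype.card V + 1) ^ q := by
        rw [Finset.card_univ, Fintype.card_fun, Fintype.card_option, Fintype.card_fin]

variable {r : ℕ}

open Classical in
theorem count_graphs {n q D : ℕ} (B : Finset (SimpleGraph (Fin n)))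
    (Cont : (Fin r → Fin r → Bool) → Finset (Fin r → Bool) → Finset (Fin r → Bool))
    (h : ∀ G ∈ B, ∃ (M : Fin r → Fin r → Bool) (T : Finset (Fin r → Bool))
      (x : Fin n → Fin r → Bool), T.card ≤ q ∧ (T ∪ Cont M T).card ≤ D ∧
      (∀ v, x v ∈ T ∪ Cont M T) ∧
      ∀ v w, (if G.Adj v w then (1 : ℝ) else 0) = qf M (x v) (x w)) :
    B.card ≤ 2 ^ (r * r) * (2 ^ r + 1) ^ q * D ^ n := by
  have h' : ∀ G : SimpleGraph (Fin n), ∃ (M : Fin r → Fin r → Bool)
      (T : Finset (Fin r → Bool)) (x : Fin n → Fin r → Bool), G ∈ B → T.card ≤ q ∧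
      (T ∪ Cont M T).card ≤ D ∧ (∀ v, x v ∈ T ∪ Cont M T) ∧
      ∀ v w, (if G.Adj v w then (1 : ℝ) else 0) = qf M (x v) (x w) := by
    intro G
    by_cases hG : G ∈ B
    · obtain ⟨M, T, x, h1⟩ := h G hG
      exact ⟨M, T, x, fun _ => h1⟩
    · exact ⟨fun _ _ => true, ∅, fun _ _ => true, fun h1 => absurd h1 hG⟩
  choose M T x hx using h'
  let Ψ : SimpleGraph (Fin n) → (Fin r → Fin r → Bool) × Finset (Fin r → Bool) :=
    fun G => (M G, T G)
  have hfib : ∀ p ∈ B.image Ψ, (B.filter (fun G => Ψ G = p)).card ≤ D ^ n := by
    intro p hp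
    obtain ⟨G0, hG0, rfl⟩ := Finset.mem_image.mp hp
    obtain ⟨_, hD, _, _⟩ := hx G0 hG0
    calc (B.filter (fun G => Ψ G = Ψ G0)).card ≤
          (Fintype.piFinset (fun _ : Fin n => T G0 ∪ Cont (M G0) (T G0))).card := by
          apply Finset.card_le_card_of_injOn x
          · intro G hG
            obtain ⟨hGB, hGp⟩ := Finset.mem_filter.mp hG
            have h1 : M G = M G0 := congrArg Prod.fst hGp
            have h2 : T G = T G0 := congrArg Prod.snd hGp
            rw [Finset.mem_coe, Fintype.mem_piFinset]
            intro v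
            have h3 := (hx G hGB).2.2.1 v
            rwa [h1, h2] at h3
          · intro G hG G' hG' hGG
            obtain ⟨hGB, hGp⟩ := Finset.mem_filter.mp hG
            obtain ⟨hGB', hGp'⟩ := Finset.mem_filter.mp hG'
            have h1 : M G = M G0 := congrArg Prod.fst hGp
            have h1' : M G' = M G0 := congrArg Prod.fst hGp'
            ext v w
            have h4 := (hx G hGB).2.2.2 v w
            have h5 := (hx G' hGB').2.2.2 v w
            have h6 : (if G.Adj v w then (1 : ℝ) else 0) = if G'.Adj v w then (1 : ℝ) else 0 := by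
              rw [h4, h5, h1, h1', hGG]
            by_cases hv : G.Adj v w <;> by_cases hw : G'.Adj v w
            · simp [hv, hw]
            · rw [if_pos hv, if_neg hw] at h6
              norm_num at h6
            · rw [if_neg hv, if_pos hw] at h6
              norm_num at h6
            · simp [hv, hw]
      _ = (T G0 ∪ Cont (M G0) (T G0)).card ^ n := by
          rw [Fintype.card_piFinset, Finset.prod_const, Finset.card_univ, Fintype.card_fin]
      _ ≤ D ^ n := Nat.pow_le_pow_left hD n
  have himage : (B.image Ψ).card ≤ 2 ^ (r * r) * (2 ^ r + 1) ^ q := by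
    have hsub : B.image Ψ ⊆ (univ : Finset (Fin r → Fin r → Bool)) ×ˢ
        ((univ : Finset (Finset (Fin r → Bool))).filter (fun T => T.card ≤ q)) := by
      intro p hp
      obtain ⟨G, hG, rfl⟩ := Finset.mem_image.mp hp
      rw [Finset.mem_product, Finset.mem_filter]
      exact ⟨mem_univ _, mem_univ _, (hx G hG).1⟩
    refine (Finset.card_le_card hsub).trans ?_
    rw [Finset.card_product]
    apply Nat.mul_le_mul
    · apply le_of_eq
      rw [Finset.card_univ, Fintype.card_fun, Fintype.card_fun, Fintype.card_bool,
        Fintype.card_fin, ← pow_mul]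
    · refine (card_small_subsets q).trans ?_
      rw [Fintype.card_fun, Fintype.card_bool, Fintype.card_fin]
  calc B.card ≤ D ^ n * (B.image Ψ).card := Finset.card_le_mul_card_image B _ hfib
    _ ≤ D ^ n * (2 ^ (r * r) * (2 ^ r + 1) ^ q) := Nat.mul_le_mul_left _ himage
    _ = _ := by ring

end Pool.Agent.Helper6.LR
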