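import Pool.Agent.Helper6.LR2.Coord
import Pool.Agent.Helper6.LR2.Container

set_option linter.unusedSectionVars false

/-!
# Small containers or few colours
-/

namespace Pool.Agent.Helper6.LR

open Finset Module

variable {r : ℕ}

theorem size_T {β : ℝ} {t a : ℕ} (ha : a ≤ 2 ^ r)
    (h : 1 ≤ (1 - β) ^ t * ((a : ℝ) + 1)) (hβ1 : β < 1) : β * t ≤ r + 1 := by
  have h1 : (1 - β) ^ t ≤ Real.exp (-(β * t)) := by
    calc (1 - β) ^ t ≤ (Real.exp (-β)) ^ t :=
          pow_le_pow_left₀ (by linarith) (Real.one_sub_le_exp_neg β) t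
      _ = Real.exp (-(β * t)) := by
          rw [← Real.exp_nat_mul]
          congr 1
          ring
  have haR : (a : ℝ) ≤ 2 ^ r := by exact_mod_cast ha
  have h2 : (a : ℝ) + 1 ≤ Real.exp (r + 1) := by
    have h3 : (1 : ℝ) ≤ 2 ^ r := one_le_pow₀ (by norm_num)
    calc (a : ℝ) + 1 ≤ 2 ^ (r + 1) := by rw [pow_succ]; linarith
      _ ≤ (Real.exp 1) ^ (r + 1) := by
          apply pow_le_pow_left₀ (by norm_num)
          have := Real.add_one_le_exp (1 : ℝ)
          linarith
      _ = Real.exp (r + 1) := by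
          rw [← Real.exp_nat_mul]
          congr 1
          push_cast
          ring
  have h3 : (1 : ℝ) ≤ Real.exp (-(β * t)) * Real.exp (r + 1) := by
    calc (1 : ℝ) ≤ _ := h
      _ ≤ Real.exp (-(β * t)) * ((a : ℝ) + 1) :=
          mul_le_mul_of_nonneg_right h1 (by positivity)
      _ ≤ _ := mul_le_mul_of_nonneg_left h2 (Real.exp_pos _).le
  rw [← Real.exp_add] at h3
  have h3' : Real.exp 0 ≤ Real.exp (-(β * t) + (r + 1)) := by
    rw [Real.exp_zero]
    exact h3
  have h4 := Real.exp_le_exp.mp h3'
  linarith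

/-- The main dichotomy. -/
theorem dichotomy {M : Fin r → Fin r → Bool} (hM : ∀ i j, M i j = M j i)
    (hdet : (bM M).det ≠ 0) {Q Z Y : ℝ} (hQ : 1 ≤ Q)
    (hZ : Z = (16 * Q) ^ 140 * (1536 * ((r : ℝ) + 1) ^ 3) ^ 140)
    (hY : Y = 2 ^ 187 * ((r : ℝ) + 1) ^ 5 * Z) :
    ∃ Cont : Finset (Fin r → Bool) → Finset (Fin r → Bool), ∀ S : Finset (Fin r → Bool),
      (∀ x ∈ S, ∀ y ∈ S, Ex (NM M) x y) → (∀ x ∈ S, qf M x x = 0) →
      ∃ T ⊆ S, S ⊆ T ∪ Cont T ∧ (T.card : ℝ) ≤ (r + 1) * Y ∧
        (Q * ((Cont T).card : ℝ) ^ 2 < 2 ^ (r + 1) ∨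
          ∃ c : (Fin r → Bool) →
            (((Fin r → Bool) → ℝ) × ((Fin r → Bool) → ℝ)) × ((Fin r → Bool) → ℝ),
            (∀ i ∈ S ∩ Cont T, ∀ j ∈ S ∩ Cont T, c i = c j → qf M i j = 0) ∧
            (((S ∩ Cont T).image c).card : ℝ) ≤ 2 ^ 208 * ((r : ℝ) + 1) ^ 7 * Q * Z) := by
  classical
  have hr1 : (1 : ℝ) ≤ (r : ℝ) + 1 := by
    have : (0 : ℝ) ≤ r := Nat.cast_nonneg r
    linarith
  have hZ1 : 1 ≤ Z := by
    rw [hZ]
    have h1 : (1 : ℝ) ≤ (16 * Q) ^ 140 := one_le_pow₀ (by linarith)
    have h2 : (1 : ℝ) ≤ ((r : ℝ) + 1) ^ 3 := one_le_pow₀ hr1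
    have h3 : (1 : ℝ) ≤ (1536 * ((r : ℝ) + 1) ^ 3) ^ 140 := one_le_pow₀ (by linarith)
    calc (1 : ℝ) = 1 * 1 := (one_mul 1).symm
      _ ≤ _ := mul_le_mul h1 h3 (by norm_num) (by positivity)
  have hY2 : 2 ≤ Y := by
    rw [hY]
    have h1 : (1 : ℝ) ≤ ((r : ℝ) + 1) ^ 5 := one_le_pow₀ hr1
    calc (2 : ℝ) = 2 * 1 * 1 := by norm_num
      _ ≤ 2 ^ 187 * ((r : ℝ) + 1) ^ 5 * Z := by
          apply mul_le_mul _ hZ1 (by norm_num) (by positivity)
          apply mul_le_mul _ h1 (by norm_num) (by positivity)
          norm_num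
  have hYpos : 0 < Y := by linarith
  set β : ℝ := 1 / Y with hβ
  have hβ0 : 0 < β := by positivity
  have hβ1 : β < 1 := by
    rw [hβ, div_lt_one hYpos]
    linarith
  set A0 : Finset (Fin r → Bool) := Finset.univ.filter fun x => qf M x x = 0 with hA0
  have hA0card : A0.card ≤ 2 ^ r := by
    calc A0.card ≤ (Finset.univ : Finset (Fin r → Bool)).card := Finset.card_filter_le _ _
      _ = 2 ^ r := by
          rw [Finset.card_univ, Fintype.card_fun, Fintype.card_bool, Fintype.card_fin]
  obtain ⟨Cont, hCont⟩ := container (fun x y => ¬ Ex (NM M) x y) hβ1 A0.card A0 le_rfl (by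
    intro x hx
    rw [not_not, ex_iff]
    left
    exact (Finset.mem_filter.mp hx).2)
  refine ⟨Cont, ?_⟩
  intro S hSex hSd
  obtain ⟨T, hTS, hcov, hsub, hdeg, hsize⟩ := hCont S (by
    intro x hx
    rw [hA0, Finset.mem_filter]
    exact ⟨Finset.mem_univ x, hSd x hx⟩) (by
    intro x hx y hy
    rw [not_not]
    exact hSex x hx y hy)
  refine ⟨T, hTS, hcov, ?_, ?_⟩
  · have h1 := size_T hA0card hsize hβ1
    have h2 : (T.card : ℝ) = Y * (β * T.card) := by
      rw [hβ]
      field_simp
    rw [h2]
    calc Y * (β * T.card) ≤ Y * (r + 1) := mul_le_mul_of_nonneg_left h1 hYpos.le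
      _ = _ := by ring
  · by_cases hsmall : Q * ((Cont T).card : ℝ) ^ 2 < 2 ^ (r + 1)
    · exact Or.inl hsmall
    · right
      push Not at hsmall
      have hCne : (Cont T).Nonempty := by
        rw [Finset.nonempty_iff_ne_empty]
        intro h0
        rw [h0] at hsmall
        simp only [Finset.card_empty, Nat.cast_zero] at hsmall
        have : (0 : ℝ) < 2 ^ (r + 1) := by positivity
        linarith
      set C := Cont T with hC
      set e : ℕ := ⌊β * (C.card : ℝ)⌋₊ with he
      have hβC : 0 ≤ β * (C.card : ℝ) := by positivity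
      set I : Finset (Fin r → Bool) := Finset.univ.image M with hI
      have hset : Setup (NM M) I C (S ∩ C) (r + 1) e := by
        constructor
        · exact NM_tr hM
        · omega
        · exact rk_NM M _ _
        · intro i hi x _
          obtain ⟨k, _, rfl⟩ := Finset.mem_image.mp hi
          rw [ex_iff, qf_row hdet]
          exact bv_cases x k
        · intro x _ y _ h
          apply bv_inj
          funext k
          have h1 := h (M k) (Finset.mem_image_of_mem M (Finset.mem_univ k))
          simp only [NM] at h1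
          rw [qf_row hdet, qf_row hdet] at h1
          linarith
        · intro x hx
          have h1 := hdeg x hx
          rw [he]
          apply Nat.le_floor
          refine le_trans (Nat.cast_le.mpr (le_of_eq ?_)) h1.le
          unfold bad
          congr
        · exact Finset.inter_subset_right
        · intro x hx y hy
          exact hSex x (Finset.mem_inter.mp hx).1 y (Finset.mem_inter.mp hy).1
        · intro x hx
          simp only [NM]
          rw [hSd x (Finset.mem_inter.mp hx).1]
          ring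
      have hfin := hset.final hCne hQ (Z := Z) (by
        rw [hZ]
        push_cast
        rfl) hsmall (by
        have h1 : (e : ℝ) ≤ β * C.card := Nat.floor_le hβC
        have h2 : 2 ^ 187 * (((r + 1 : ℕ) : ℝ)) ^ 5 * Z = Y := by
          rw [hY]
          push_cast
          rfl
        rw [h2]
        calc Y * (e : ℝ) ≤ Y * (β * C.card) := mul_le_mul_of_nonneg_left h1 hYpos.le
          _ = C.card := by
              rw [hβ]
              field_simp)
      obtain ⟨c, hc, hcard⟩ := hfin
      refine ⟨c, ?_, ?_⟩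
      · intro i hi j hj hij
        have h1 := hc i hi j hj hij
        simp only [NM] at h1
        linarith
      · push_cast at hcard
        exact hcard

/-- Colouring a graph with coordinates. -/
theorem chi_of_coord {n : ℕ} {G : SimpleGraph (Fin n)} {M : Fin r → Fin r → Bool}
    {x : Fin n → Fin r → Bool} [DecidableRel G.Adj]
    (hx : ∀ v w, (if G.Adj v w then (1 : ℝ) else 0) = qf M (x v) (x w))
    {T C : Finset (Fin r → Bool)} (hTC : ∀ v, x v ∈ T ∪ C) {X : Type}
    [DecidableEq X] {c : (Fin r → Bool) → X}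
    (hc : ∀ i ∈ (univ.image x) ∩ C, ∀ j ∈ (univ.image x) ∩ C, c i = c j → qf M i j = 0) :
    G.chromaticNumber.toNat ≤ T.card + (((univ.image x) ∩ C).image c).card := by
  classical
  have hadj : ∀ v w, qf M (x v) (x w) = 0 → ¬ G.Adj v w := by
    intro v w h h'
    have h1 := hx v w
    rw [if_pos h', h] at h1
    norm_num at h1
  let F : Fin n → (Fin r → Bool) ⊕ X := fun v => if x v ∈ T then Sum.inl (x v) else
    Sum.inr (c (x v))
  have hprop : ∀ v w, F v = F w → ¬ G.Adj v w := by
    intro v w h
    apply hadj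
    by_cases hv : x v ∈ T <;> by_cases hw : x w ∈ T
    · simp only [F, if_pos hv, if_pos hw, Sum.inl.injEq] at h
      rw [← h, ← hx v v, if_neg (G.loopless.irrefl v)]
    · simp only [F, if_pos hv, if_neg hw] at h
      exact absurd h (by simp)
    · simp only [F, if_neg hv, if_pos hw] at h
      exact absurd h (by simp)
    · simp only [F, if_neg hv, if_neg hw, Sum.inr.injEq] at h
      have hv' : x v ∈ (univ.image x) ∩ C := by
        rw [Finset.mem_inter]
        refine ⟨Finset.mem_image_of_mem x (mem_univ v), ?_⟩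
        rcases Finset.mem_union.mp (hTC v) with h1 | h1
        · exact absurd h1 hv
        · exact h1
      have hw' : x w ∈ (univ.image x) ∩ C := by
        rw [Finset.mem_inter]
        refine ⟨Finset.mem_image_of_mem x (mem_univ w), ?_⟩
        rcases Finset.mem_union.mp (hTC w) with h1 | h1
        · exact absurd h1 hw
        · exact h1
      exact hc _ hv' _ hw' h
  have hcol : G.Colorable (univ.image F).card := by
    refine ⟨SimpleGraph.Coloring.mk (fun v => (univ.image F).equivFin
      ⟨F v, Finset.mem_image_of_mem _ (mem_univ v)⟩) ?_⟩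
    intro v w hvw heq
    have h1 : F v = F w := congrArg Subtype.val ((univ.image F).equivFin.injective heq)
    exact hprop v w h1 hvw
  have h1 : G.chromaticNumber.toNat ≤ (univ.image F).card :=
    ENat.toNat_le_of_le_natCast hcol.chromaticNumber_le
  refine h1.trans ?_
  have hsub : univ.image F ⊆ T.image Sum.inl ∪
      (((univ.image x) ∩ C).image c).image Sum.inr := by
    intro y hy
    obtain ⟨v, _, rfl⟩ := Finset.mem_image.mp hy
    rw [Finset.mem_union]
    by_cases hv : x v ∈ T
    · left
      simp only [F, if_pos hv]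
      exact Finset.mem_image_of_mem _ hv
    · right
      simp only [F, if_neg hv]
      apply Finset.mem_image_of_mem
      apply Finset.mem_image_of_mem
      rw [Finset.mem_inter]
      refine ⟨Finset.mem_image_of_mem x (mem_univ v), ?_⟩
      rcases Finset.mem_union.mp (hTC v) with h1 | h1
      · exact absurd h1 hv
      · exact h1
  calc (univ.image F).card ≤ _ := Finset.card_le_card hsub
    _ ≤ _ := Finset.card_union_le _ _
    _ ≤ _ := Nat.add_le_add Finset.card_image_le Finset.card_image_le

end Pool.Agent.Helper6.LR
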