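import Pool.Agent.Helper6.LR.HostGraph

set_option linter.unusedSectionVars false

/-!
# Lower bounds for the number of labelled graphs of rank `r`
-/

namespace Pool.Agent.Helper6.LR

open Finset Module

variable (ρ : ℕ) {t : ℕ}

theorem comap_rank (ht : t ≤ 1) {n : ℕ} (φ : Fin n → HV ρ t)
    (hφ : ∀ u ∈ core ρ t, ∃ i, φ i = u) :
    grank ⟨n, (HG ρ t).comap φ⟩ = 2 * (ρ + 1) + t := by
  classical
  have h1 : grank ⟨n, (HG ρ t).comap φ⟩ = ((hM ρ t).submatrix φ φ).rank := by
    rw [grank]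
    congr 1
  rw [h1]
  apply le_antisymm
  · exact (Matrix.rank_submatrix_le _ _ _).trans (hM_rank_le ρ ht)
  · have hex : ∀ j : HJ ρ t, ∃ i, φ i = kk ρ t j := fun j => hφ _ (kk_mem ρ t j)
    choose ι hι using hex
    rw [← hM_core_rank ρ ht]
    have h2 : (hM ρ t).submatrix (kk ρ t) (kk ρ t) =
        ((hM ρ t).submatrix φ φ).submatrix ι ι := by
      ext i j
      simp [hι]
    rw [h2]
    exact Matrix.rank_submatrix_le _ _ _

theorem comap_connected {n : ℕ} (φ : Fin n → HV ρ t)
    (hφ : ∀ u ∈ core ρ t, ∃ i, φ i = u) (hinj : Function.Injective φ) :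
    ((HG ρ t).comap φ).Connected := by
  obtain ⟨c, hc⟩ := hφ _ (full_mem ρ t)
  have hreach : ∀ w, ((HG ρ t).comap φ).Reachable w c := by
    intro w
    rcases host_conn ρ (t := t) (φ w) with h | h | ⟨k, hk, h, h'⟩
    · have : w = c := hinj (h.trans hc.symm)
      rw [this]
    · have h1 : ((HG ρ t).comap φ).Adj w c := by
        rw [SimpleGraph.comap_adj, hc]
        exact h
      exact h1.reachable
    · obtain ⟨j, hj⟩ := hφ k hk
      have h1 : ((HG ρ t).comap φ).Adj w j := by
        rw [SimpleGraph.comap_adj, hj]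
        exact h
      have h2 : ((HG ρ t).comap φ).Adj j c := by
        rw [SimpleGraph.comap_adj, hj, hc]
        exact h'
      exact h1.reachable.trans h2.reachable
  haveI : Nonempty (Fin n) := ⟨c⟩
  exact SimpleGraph.Connected.mk fun u v => (hreach u).trans (hreach v).symm

theorem comap_inG (ht : t ≤ 1) {n : ℕ} (φ : Fin n → HV ρ t)
    (hφ : ∀ u ∈ core ρ t, ∃ i, φ i = u) (hinj : Function.Injective φ) :
    InG (2 * (ρ + 1) + t) ⟨n, (HG ρ t).comap φ⟩ := by
  refine ⟨comap_connected ρ φ hφ hinj, ?_, comap_rank ρ ht φ hφ⟩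
  intro u v huv _ hN
  apply huv
  apply hinj
  apply host_h2 ρ ht
  intro k hk
  obtain ⟨j, hj⟩ := hφ k hk
  have h1 := Set.ext_iff.mp hN j
  rw [SimpleGraph.mem_neighborSet, SimpleGraph.mem_neighborSet, SimpleGraph.comap_adj,
    SimpleGraph.comap_adj, hj] at h1
  exact h1

/-- An enumeration of the core. -/
noncomputable def κ (ρ t : ℕ) : Fin (core ρ t).card → HV ρ t :=
  fun i => ((core ρ t).equivFin.symm i).1

theorem κ_surj {u : HV ρ t} (hu : u ∈ core ρ t) : ∃ i, κ ρ t i = u :=
  ⟨(core ρ t).equivFin ⟨u, hu⟩, by simp [κ]⟩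

theorem κ_mem (i : Fin (core ρ t).card) : κ ρ t i ∈ core ρ t :=
  ((core ρ t).equivFin.symm i).2

theorem κ_inj : Function.Injective (κ ρ t) := by
  intro i j h
  exact (core ρ t).equivFin.symm.injective (Subtype.ext h)

theorem comap_append_inj (ht : t ≤ 1) {m : ℕ} {g g' : Fin m → HV ρ t}
    (h : (HG ρ t).comap (Fin.append (κ ρ t) g) = (HG ρ t).comap (Fin.append (κ ρ t) g')) :
    g = g' := by
  funext i
  apply host_h2 ρ ht
  intro k hk
  obtain ⟨j, hj⟩ := κ_surj ρ hk
  have h1 : ((HG ρ t).comap (Fin.append (κ ρ t) g)).Adj (Fin.natAdd _ i) (Fin.castAdd m j) ↔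
      ((HG ρ t).comap (Fin.append (κ ρ t) g')).Adj (Fin.natAdd _ i) (Fin.castAdd m j) := by
    rw [h]
  rw [SimpleGraph.comap_adj, SimpleGraph.comap_adj, Fin.append_right, Fin.append_right,
    Fin.append_left, Fin.append_left, hj] at h1
  exact h1

theorem append_core {m : ℕ} (g : Fin m → HV ρ t) {u : HV ρ t} (hu : u ∈ core ρ t) :
    ∃ i, Fin.append (κ ρ t) g i = u := by
  obtain ⟨j, hj⟩ := κ_surj ρ hu
  exact ⟨Fin.castAdd m j, by rw [Fin.append_left, hj]⟩

theorem append_inj {m : ℕ} {g : Fin m → HV ρ t} (hg : Function.Injective g)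
    (hg' : ∀ i, g i ∉ core ρ t) : Function.Injective (Fin.append (κ ρ t) g) := by
  intro i j h
  induction i using Fin.addCases with
  | left i =>
    induction j using Fin.addCases with
    | left j =>
      rw [Fin.append_left, Fin.append_left] at h
      rw [κ_inj ρ h]
    | right j =>
      rw [Fin.append_left, Fin.append_right] at h
      exact absurd (h ▸ κ_mem ρ i) (hg' j)
  | right i =>
    induction j using Fin.addCases with
    | left j =>
      rw [Fin.append_left, Fin.append_right] at h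
      exact absurd (h ▸ κ_mem ρ j) (hg' i)
    | right j =>
      rw [Fin.append_right, Fin.append_right] at h
      rw [hg h]

theorem card_HV_ge : 2 ^ (ρ + 1) ≤ Fintype.card (HV ρ t) := by
  rw [card_HV]
  have : 1 ≤ 2 ^ (ρ + 1) := Nat.one_le_two_pow
  omega

/-- Labelled graphs of rank `r` (twins are allowed). -/
theorem lower_all (ht : t ≤ 1) {n : ℕ} (hn : (core ρ t).card ≤ n) :
    (2 ^ (ρ + 1)) ^ (n - (core ρ t).card) ≤
      Nat.card {G : SimpleGraph (Fin n) // grank ⟨n, G⟩ = 2 * (ρ + 1) + t} := by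
  classical
  obtain ⟨m, rfl⟩ := Nat.exists_eq_add_of_le hn
  rw [Nat.add_sub_cancel_left]
  let F : (Fin m → HV ρ t) →
      {G : SimpleGraph (Fin ((core ρ t).card + m)) // grank ⟨_, G⟩ = 2 * (ρ + 1) + t} :=
    fun g => ⟨(HG ρ t).comap (Fin.append (κ ρ t) g), comap_rank ρ ht _
      fun u hu => append_core ρ g hu⟩
  have hF : Function.Injective F := by
    intro g g' h
    exact comap_append_inj ρ ht (congrArg Subtype.val h)
  calc (2 ^ (ρ + 1)) ^ m ≤ Fintype.card (HV ρ t) ^ m := Nat.pow_le_pow_left (card_HV_ge ρ) m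
    _ = Nat.card (Fin m → HV ρ t) := by
        rw [Nat.card_eq_fintype_card, Fintype.card_fun, Fintype.card_fin]
    _ ≤ _ := Nat.card_le_card_of_injective F hF

/-- Labelled connected twin-free graphs of rank `r`. -/
theorem lower_inG (ht : t ≤ 1) {n : ℕ} (hn : (core ρ t).card ≤ n) (h2n : n ≤ 2 ^ ρ) :
    (2 ^ ρ) ^ (n - (core ρ t).card) ≤
      Nat.card {G : SimpleGraph (Fin n) // InG (2 * (ρ + 1) + t) ⟨n, G⟩} := by
  classical
  obtain ⟨m, rfl⟩ := Nat.exists_eq_add_of_le hn
  rw [Nat.add_sub_cancel_left]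
  let F : (Fin m ↪ {u : HV ρ t // u ∉ core ρ t}) →
      {G : SimpleGraph (Fin ((core ρ t).card + m)) // InG (2 * (ρ + 1) + t) ⟨_, G⟩} :=
    fun g => ⟨(HG ρ t).comap (Fin.append (κ ρ t) (fun i => (g i).1)), comap_inG ρ ht _
      (fun u hu => append_core ρ _ hu) (append_inj ρ
        (fun i j h => g.injective (Subtype.ext h)) (fun i => (g i).2))⟩
  have hF : Function.Injective F := by
    intro g g' h
    have h1 := comap_append_inj ρ ht (congrArg Subtype.val h)
    apply DFunLike.ext
    intro i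
    exact Subtype.ext (congrFun h1 i)
  have hcard : Fintype.card {u : HV ρ t // u ∉ core ρ t} =
      Fintype.card (HV ρ t) - (core ρ t).card := by
    rw [Fintype.card_subtype_compl]
    congr 1
    exact Fintype.card_coe _
  have hge := card_HV_ge ρ (t := t)
  have hpow : 2 ^ (ρ + 1) = 2 * 2 ^ ρ := by ring
  calc (2 ^ ρ) ^ m ≤ (Fintype.card (HV ρ t) - (core ρ t).card + 1 - m) ^ m := by
        apply Nat.pow_le_pow_left
        omega
    _ ≤ (Fintype.card (HV ρ t) - (core ρ t).card).descFactorial m :=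
        Nat.pow_sub_le_descFactorial _ _
    _ = Nat.card (Fin m ↪ {u : HV ρ t // u ∉ core ρ t}) := by
        rw [Nat.card_eq_fintype_card, Fintype.card_embedding_eq, Fintype.card_fin, hcard]
    _ ≤ _ := Nat.card_le_card_of_injective F hF

end Pool.Agent.Helper6.LR
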