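import Pool.Agent.Helper6.LR2.CountB
import Pool.Agent.Helper6.LR2.Lower

set_option linter.unusedSectionVars false

/-!
# Almost all labelled graphs of rank `r` and order `n` have small chromatic number
-/

namespace Pool.Agent.Helper6.LR

open Finset Module

theorem chi_le_two_pow {r n : ℕ} {G : SimpleGraph (Fin n)} (h : grank ⟨n, G⟩ = r) :
    chi ⟨n, G⟩ ≤ 2 ^ r := by
  classical
  obtain ⟨M, x, _, _, hx⟩ := exists_coord G (r := r) (by
    rw [← h, grank])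
  have h1 := chi_of_coord (T := univ) (C := ∅) (X := Bool) (c := fun _ => true) hx
    (fun v => Finset.mem_union_left _ (mem_univ _)) (by
      intro i hi
      simp at hi)
  rw [Finset.inter_empty, Finset.image_empty, Finset.card_empty, Nat.add_zero,
    Finset.card_univ, Fintype.card_fun, Fintype.card_bool, Fintype.card_fin] at h1
  exact h1

theorem num_Z {r K : ℕ} (hr : 2 ≤ r) {Q Z : ℝ} (hQ : Q = 2 ^ 10 * (r : ℝ) ^ (2 * K))
    (hZ : Z = (16 * Q) ^ 140 * (1536 * ((r : ℝ) + 1) ^ 3) ^ 140) :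
    Z ≤ (r : ℝ) ^ (4340 + 280 * K) := by
  have hrR : (2 : ℝ) ≤ r := by exact_mod_cast hr
  have hr1 : (r : ℝ) + 1 ≤ (r : ℝ) ^ 2 := by nlinarith
  have h1 : (16 * Q) ≤ (r : ℝ) ^ (14 + 2 * K) := by
    have h2 : (16 : ℝ) * 2 ^ 10 ≤ (r : ℝ) ^ 14 := by
      calc (16 : ℝ) * 2 ^ 10 = 2 ^ 14 := by norm_num
        _ ≤ (r : ℝ) ^ 14 := pow_le_pow_left₀ (by norm_num) hrR 14
    rw [hQ, pow_add]
    calc 16 * (2 ^ 10 * (r : ℝ) ^ (2 * K)) = (16 * 2 ^ 10) * (r : ℝ) ^ (2 * K) := by ring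
      _ ≤ _ := mul_le_mul_of_nonneg_right h2 (by positivity)
  have h3 : 1536 * ((r : ℝ) + 1) ^ 3 ≤ (r : ℝ) ^ 17 := by
    have h4 : (1536 : ℝ) ≤ (r : ℝ) ^ 11 := by
      calc (1536 : ℝ) ≤ 2 ^ 11 := by norm_num
        _ ≤ (r : ℝ) ^ 11 := pow_le_pow_left₀ (by norm_num) hrR 11
    have h5 : ((r : ℝ) + 1) ^ 3 ≤ (r : ℝ) ^ 6 := by
      calc ((r : ℝ) + 1) ^ 3 ≤ ((r : ℝ) ^ 2) ^ 3 := pow_le_pow_left₀ (by positivity) hr1 3
        _ = (r : ℝ) ^ 6 := by rw [← pow_mul]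
    calc 1536 * ((r : ℝ) + 1) ^ 3 ≤ (r : ℝ) ^ 11 * (r : ℝ) ^ 6 :=
          mul_le_mul h4 h5 (by positivity) (by positivity)
      _ = (r : ℝ) ^ 17 := by rw [← pow_add]
  have hQ0 : 0 ≤ 16 * Q := by
    rw [hQ]
    positivity
  obtain ⟨s, hs⟩ : ∃ s : ℕ, s = 140 := ⟨_, rfl⟩
  rw [hZ, ← hs]
  calc (16 * Q) ^ s * (1536 * ((r : ℝ) + 1) ^ 3) ^ s ≤
        ((r : ℝ) ^ (14 + 2 * K)) ^ s * ((r : ℝ) ^ 17) ^ s := by
        apply mul_le_mul (pow_le_pow_left₀ hQ0 h1 s) (pow_le_pow_left₀ (by positivity) h3 s)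
          (by positivity) (by positivity)
    _ = (r : ℝ) ^ (4340 + 280 * K) := by
        rw [← pow_mul, ← pow_mul, ← pow_add]
        congr 1
        rw [hs]
        ring

theorem num_q {r K : ℕ} (hr : 2 ≤ r) {Z Y : ℝ} (hZ : Z ≤ (r : ℝ) ^ (4340 + 280 * K))
    (hZ0 : 0 ≤ Z) (hY : Y = 2 ^ 187 * ((r : ℝ) + 1) ^ 5 * Z) :
    ((r : ℝ) + 1) * Y ≤ (r : ℝ) ^ (4539 + 280 * K) := by
  have hrR : (2 : ℝ) ≤ r := by exact_mod_cast hr
  have hr1 : (r : ℝ) + 1 ≤ (r : ℝ) ^ 2 := by nlinarith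
  obtain ⟨s, hs⟩ : ∃ s : ℕ, s = 187 := ⟨_, rfl⟩
  have h1 : (2 : ℝ) ^ s ≤ (r : ℝ) ^ s := pow_le_pow_left₀ (by norm_num) hrR s
  have h2 : ((r : ℝ) + 1) ^ 6 ≤ (r : ℝ) ^ 12 := by
    calc ((r : ℝ) + 1) ^ 6 ≤ ((r : ℝ) ^ 2) ^ 6 := pow_le_pow_left₀ (by positivity) hr1 6
      _ = (r : ℝ) ^ 12 := by rw [← pow_mul]
  rw [hY, ← hs]
  calc ((r : ℝ) + 1) * (2 ^ s * ((r : ℝ) + 1) ^ 5 * Z) = 2 ^ s * ((r : ℝ) + 1) ^ 6 * Z := by ring
    _ ≤ (r : ℝ) ^ s * (r : ℝ) ^ 12 * (r : ℝ) ^ (4340 + 280 * K) := by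
        apply mul_le_mul _ hZ hZ0 (by positivity)
        exact mul_le_mul h1 h2 (by positivity) (by positivity)
    _ = (r : ℝ) ^ (4539 + 280 * K) := by
        rw [← pow_add, ← pow_add]
        congr 1
        rw [hs]
        ring

theorem num_m {r K : ℕ} (hr : 2 ≤ r) {Q Z : ℝ} (hQ : Q = 2 ^ 10 * (r : ℝ) ^ (2 * K))
    (hZ : Z ≤ (r : ℝ) ^ (4340 + 280 * K)) (hZ0 : 0 ≤ Z) :
    2 ^ 208 * ((r : ℝ) + 1) ^ 7 * Q * Z ≤ (r : ℝ) ^ (4572 + 282 * K) := by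
  have hrR : (2 : ℝ) ≤ r := by exact_mod_cast hr
  have hr1 : (r : ℝ) + 1 ≤ (r : ℝ) ^ 2 := by nlinarith
  obtain ⟨s, hs⟩ : ∃ s : ℕ, s = 208 := ⟨_, rfl⟩
  have h1 : (2 : ℝ) ^ s ≤ (r : ℝ) ^ s := pow_le_pow_left₀ (by norm_num) hrR s
  have h2 : ((r : ℝ) + 1) ^ 7 ≤ (r : ℝ) ^ 14 := by
    calc ((r : ℝ) + 1) ^ 7 ≤ ((r : ℝ) ^ 2) ^ 7 := pow_le_pow_left₀ (by positivity) hr1 7
      _ = (r : ℝ) ^ 14 := by rw [← pow_mul]
  have h3 : Q ≤ (r : ℝ) ^ (10 + 2 * K) := by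
    rw [hQ, pow_add]
    apply mul_le_mul_of_nonneg_right _ (by positivity)
    exact pow_le_pow_left₀ (by norm_num) hrR 10
  have hQ0 : 0 ≤ Q := by
    rw [hQ]
    positivity
  rw [← hs]
  calc 2 ^ s * ((r : ℝ) + 1) ^ 7 * Q * Z ≤
        (r : ℝ) ^ s * (r : ℝ) ^ 14 * (r : ℝ) ^ (10 + 2 * K) * (r : ℝ) ^ (4340 + 280 * K) := by
        apply mul_le_mul _ hZ hZ0 (by positivity)
        apply mul_le_mul _ h3 hQ0 (by positivity)
        exact mul_le_mul h1 h2 (by positivity) (by positivity)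
    _ = (r : ℝ) ^ (4572 + 282 * K) := by
        rw [← pow_add, ← pow_add, ← pow_add]
        congr 1
        rw [hs]
        ring

open Classical in
/-- Exceptional graphs have small containers. -/
theorem bad_struct {K r ρ C : ℕ} (hr : 2 ≤ r) (hρ : r ≤ 2 * ρ + 3)
    (hbig : r ^ (4600 + 300 * K) ≤ 2 ^ ρ) (hC : 4600 + 300 * K ≤ C) :
    ∃ Cont : (Fin r → Fin r → Bool) → Finset (Fin r → Bool) → Finset (Fin r → Bool),
      ∀ (n : ℕ) (G : SimpleGraph (Fin n)), grank ⟨n, G⟩ = r → r ^ C < chi ⟨n, G⟩ →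
        ∃ (M : Fin r → Fin r → Bool) (T : Finset (Fin r → Bool)) (x : Fin n → Fin r → Bool),
          T.card ≤ r ^ (4539 + 280 * K) ∧ (T ∪ Cont M T).card ≤ 2 ^ ρ / (4 * r ^ K) ∧
          (∀ v, x v ∈ T ∪ Cont M T) ∧
          ∀ v w, (if G.Adj v w then (1 : ℝ) else 0) = qf M (x v) (x w) := by
  have hrR : (2 : ℝ) ≤ r := by exact_mod_cast hr
  have hr1R : (1 : ℝ) ≤ r := by linarith
  obtain ⟨Q, hQ⟩ : ∃ Q : ℝ, Q = 2 ^ 10 * (r : ℝ) ^ (2 * K) := ⟨_, rfl⟩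
  obtain ⟨Z, hZ⟩ : ∃ Z : ℝ, Z = (16 * Q) ^ 140 * (1536 * ((r : ℝ) + 1) ^ 3) ^ 140 := ⟨_, rfl⟩
  obtain ⟨Y, hY⟩ : ∃ Y : ℝ, Y = 2 ^ 187 * ((r : ℝ) + 1) ^ 5 * Z := ⟨_, rfl⟩
  have hQ1 : 1 ≤ Q := by
    rw [hQ]
    have h1 : (1 : ℝ) ≤ (r : ℝ) ^ (2 * K) := one_le_pow₀ hr1R
    linarith
  have hZ0 : 0 ≤ Z := by
    rw [hZ]
    positivity
  have hZle := num_Z hr hQ hZ
  have hq := num_q hr hZle hZ0 hY
  have hm := num_m hr hQ hZle hZ0
  have hex : ∀ M : Fin r → Fin r → Bool, ∃ Cont : Finset (Fin r → Bool) → Finset (Fin r → Bool),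
      (∀ i j, M i j = M j i) → (bM M).det ≠ 0 → ∀ S : Finset (Fin r → Bool),
      (∀ x ∈ S, ∀ y ∈ S, Ex (NM M) x y) → (∀ x ∈ S, qf M x x = 0) →
      ∃ T ⊆ S, S ⊆ T ∪ Cont T ∧ (T.card : ℝ) ≤ (r + 1) * Y ∧
        (Q * ((Cont T).card : ℝ) ^ 2 < 2 ^ (r + 1) ∨
          ∃ c : (Fin r → Bool) →
            (((Fin r → Bool) → ℝ) × ((Fin r → Bool) → ℝ)) × ((Fin r → Bool) → ℝ),
            (∀ i ∈ S ∩ Cont T, ∀ j ∈ S ∩ Cont T, c i = c j → qf M i j = 0) ∧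
            (((S ∩ Cont T).image c).card : ℝ) ≤ 2 ^ 208 * ((r : ℝ) + 1) ^ 7 * Q * Z) := by
    intro M
    by_cases h : (∀ i j, M i j = M j i) ∧ (bM M).det ≠ 0
    · obtain ⟨Cont, hCont⟩ := dichotomy h.1 h.2 hQ1 hZ hY
      exact ⟨Cont, fun _ _ => hCont⟩
    · exact ⟨fun _ => ∅, fun h1 h2 => absurd ⟨h1, h2⟩ h⟩
  choose Cont hCont using hex
  refine ⟨Cont, ?_⟩
  intro n G hrank hbad
  obtain ⟨M, x, hMs, hdet, hx⟩ := exists_coord G (r := r) (by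
    rw [← hrank, grank])
  have hmemS : ∀ y ∈ univ.image x, ∃ v, x v = y := by
    intro y hy
    obtain ⟨v, _, h⟩ := Finset.mem_image.mp hy
    exact ⟨v, h⟩
  obtain ⟨T, hTS, hcov, hTcard, hdich⟩ := hCont M hMs hdet (univ.image x) (by
    intro y hy z hz
    obtain ⟨v, rfl⟩ := hmemS y hy
    obtain ⟨w, rfl⟩ := hmemS z hz
    rw [ex_iff, ← hx v w]
    by_cases h : G.Adj v w
    · right
      rw [if_pos h]
    · left
      rw [if_neg h]) (by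
    intro y hy
    obtain ⟨v, rfl⟩ := hmemS y hy
    rw [← hx v v, if_neg (G.loopless.irrefl v)])
  have hTq : T.card ≤ r ^ (4539 + 280 * K) := by
    have h1 := hTcard.trans hq
    exact_mod_cast h1
  have hmemTC : ∀ v, x v ∈ T ∪ Cont M T := fun v =>
    hcov (Finset.mem_image_of_mem x (mem_univ v))
  refine ⟨M, T, x, hTq, ?_, hmemTC, hx⟩
  have hbigR : (r : ℝ) ^ (4600 + 300 * K) ≤ 2 ^ ρ := by exact_mod_cast hbig
  rcases hdich with hsmall | ⟨c, hc, hcard⟩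
  · -- small container
    have h1 : 8 * (((Cont M T).card : ℝ) * (r : ℝ) ^ K) ≤ 2 ^ ρ := by
      have h2 : (8 * (((Cont M T).card : ℝ) * (r : ℝ) ^ K)) ^ 2 ≤ (2 ^ ρ) ^ 2 := by
        have h3 : (2 : ℝ) ^ (r + 1) ≤ 2 ^ (2 * ρ + 4) := pow_le_pow_right₀ (by norm_num) (by omega)
        have h4 : (8 * (((Cont M T).card : ℝ) * (r : ℝ) ^ K)) ^ 2 * 16 =
            Q * ((Cont M T).card : ℝ) ^ 2 := by
          rw [hQ]
          have h5 : (r : ℝ) ^ (2 * K) = ((r : ℝ) ^ K) ^ 2 := by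
            rw [← pow_mul]
            congr 1
            ring
          rw [h5]
          ring
        have h6 : (2 : ℝ) ^ (2 * ρ + 4) = (2 ^ ρ) ^ 2 * 16 := by
          rw [pow_add, ← pow_mul, mul_comm ρ 2]
          norm_num
        have h7 := (h4.le.trans hsmall.le).trans (h3.trans h6.le)
        linarith
      exact le_of_sq_le_sq h2 (by positivity)
    have h2 : 8 * ((T.card : ℝ) * (r : ℝ) ^ K) ≤ 2 ^ ρ := by
      have h3 : (T.card : ℝ) ≤ (r : ℝ) ^ (4539 + 280 * K) := by exact_mod_cast hTq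
      calc 8 * ((T.card : ℝ) * (r : ℝ) ^ K) ≤
            (r : ℝ) ^ 3 * ((r : ℝ) ^ (4539 + 280 * K) * (r : ℝ) ^ K) := by
            apply mul_le_mul _ _ (by positivity) (by positivity)
            · calc (8 : ℝ) = 2 ^ 3 := by norm_num
                _ ≤ (r : ℝ) ^ 3 := pow_le_pow_left₀ (by norm_num) hrR 3
            · exact mul_le_mul_of_nonneg_right h3 (by positivity)
        _ = (r : ℝ) ^ (3 + (4539 + 280 * K + K)) := by rw [← pow_add, ← pow_add]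
        _ ≤ (r : ℝ) ^ (4600 + 300 * K) := pow_le_pow_right₀ hr1R (by omega)
        _ ≤ _ := hbigR
    rw [Nat.le_div_iff_mul_le (by positivity)]
    have h3 : (T ∪ Cont M T).card ≤ T.card + (Cont M T).card := Finset.card_union_le _ _
    have h4 : ((T.card + (Cont M T).card : ℕ) : ℝ) * (4 * (r : ℝ) ^ K) ≤ 2 ^ ρ := by
      push_cast
      linarith
    have h5 : (T.card + (Cont M T).card) * (4 * r ^ K) ≤ 2 ^ ρ := by exact_mod_cast h4
    exact (Nat.mul_le_mul_right _ h3).trans h5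
  · -- few colours
    exfalso
    have h1 := chi_of_coord hx hmemTC hc
    have h2 : (((T.card + ((univ.image x ∩ Cont M T).image c).card : ℕ)) : ℝ) ≤ (r : ℝ) ^ C := by
      push_cast
      have h3 := hTcard.trans hq
      have h4 := hcard.trans hm
      have h5 : (r : ℝ) ^ (4539 + 280 * K) ≤ (r : ℝ) ^ (4572 + 282 * K) :=
        pow_le_pow_right₀ hr1R (by omega)
      calc (T.card : ℝ) + ((univ.image x ∩ Cont M T).image c).card ≤
            (r : ℝ) ^ (4572 + 282 * K) + (r : ℝ) ^ (4572 + 282 * K) :=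
            add_le_add (h3.trans h5) h4
        _ = 2 * (r : ℝ) ^ (4572 + 282 * K) := by ring
        _ ≤ r * (r : ℝ) ^ (4572 + 282 * K) := mul_le_mul_of_nonneg_right hrR (by positivity)
        _ = (r : ℝ) ^ (4572 + 282 * K + 1) := by rw [pow_succ]; ring
        _ ≤ (r : ℝ) ^ C := pow_le_pow_right₀ hr1R (by omega)
    have h3 : T.card + ((univ.image x ∩ Cont M T).image c).card ≤ r ^ C := by exact_mod_cast h2
    have h4 : chi ⟨n, G⟩ ≤ r ^ C := h1.trans h3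
    omega

open Classical in
/-- The number of exceptional graphs. -/
theorem bad_bound {K r n ρ C : ℕ} (hr : 2 ≤ r) (hρ : r ≤ 2 * ρ + 3)
    (hbig : r ^ (4600 + 300 * K) ≤ 2 ^ ρ) (hC : 4600 + 300 * K ≤ C) :
    ((univ : Finset (SimpleGraph (Fin n))).filter
      (fun G => grank ⟨n, G⟩ = r ∧ r ^ C < chi ⟨n, G⟩)).card ≤
      2 ^ (r * r) * (2 ^ r + 1) ^ (r ^ (4539 + 280 * K)) * (2 ^ ρ / (4 * r ^ K)) ^ n := by
  obtain ⟨Cont, hCont⟩ := bad_struct hr hρ hbig hC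
  apply count_graphs _ Cont
  intro G hG
  obtain ⟨_, hrank, hbad⟩ := Finset.mem_filter.mp hG
  obtain ⟨M, T, x, h1, h2, h3, h4⟩ := hCont n G hrank hbad
  exact ⟨M, T, x, h1, h2, h3, h4⟩

/-- Comparing the bounds. -/
theorem compare {K r n ρ k : ℕ} (hr : 2 ≤ r) (hρr : ρ ≤ r) (hk : k ≤ r + 1)
    (hn : r ^ (4600 + 300 * K) ≤ n) :
    r ^ (K * n) * (2 ^ (r * r) * (2 ^ r + 1) ^ (r ^ (4539 + 280 * K)) *
      (2 ^ ρ / (4 * r ^ K)) ^ n) ≤ (2 ^ ρ) ^ (n - k) := by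
  obtain ⟨q, hq⟩ : ∃ q : ℕ, q = r ^ (4539 + 280 * K) := ⟨_, rfl⟩
  rw [← hq]
  have hsmall : r * r + (r + 1) * q + ρ * k ≤ 2 * n := by
    have h1 : r ^ 5 * q ≤ n := by
      calc r ^ 5 * q = r ^ (5 + (4539 + 280 * K)) := by rw [hq, ← pow_add]
        _ ≤ r ^ (4600 + 300 * K) := Nat.pow_le_pow_right (by omega) (by omega)
        _ ≤ n := hn
    have hq1 : 1 ≤ q := by
      rw [hq]
      exact Nat.one_le_pow _ _ (by omega)
    have h2 : r * r ≤ r ^ 3 * q := by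
      calc r * r = r ^ 2 * 1 := by ring
        _ ≤ r ^ 3 * q := Nat.mul_le_mul (Nat.pow_le_pow_right (by omega) (by norm_num)) hq1
    have h3 : (r + 1) * q ≤ r ^ 3 * q := by
      apply Nat.mul_le_mul_right
      calc r + 1 ≤ r * r := by nlinarith
        _ = r ^ 2 := by ring
        _ ≤ r ^ 3 := Nat.pow_le_pow_right (by omega) (by norm_num)
    have h4 : ρ * k ≤ r ^ 3 * q := by
      calc ρ * k ≤ r * (r + 1) := Nat.mul_le_mul hρr hk
        _ ≤ r * (r * r) := Nat.mul_le_mul_left r (by nlinarith)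
        _ = r ^ 3 * 1 := by ring
        _ ≤ r ^ 3 * q := Nat.mul_le_mul_left _ hq1
    have h5 : 3 * (r ^ 3 * q) ≤ r ^ 5 * q := by
      have h6 : 3 ≤ r ^ 2 := by nlinarith
      calc 3 * (r ^ 3 * q) ≤ r ^ 2 * (r ^ 3 * q) := Nat.mul_le_mul_right _ h6
        _ = r ^ 5 * q := by ring
    omega
  have hkn : k ≤ n := by
    have h1 : r + 1 ≤ n := by
      calc r + 1 ≤ r * r := by nlinarith
        _ = r ^ 2 := by ring
        _ ≤ r ^ (4600 + 300 * K) := Nat.pow_le_pow_right (by omega) (by omega)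
        _ ≤ n := hn
    omega
  have hD : r ^ (K * n) * (2 ^ ρ / (4 * r ^ K)) ^ n * 2 ^ (2 * n) ≤ 2 ^ (ρ * n) := by
    calc r ^ (K * n) * (2 ^ ρ / (4 * r ^ K)) ^ n * 2 ^ (2 * n) =
          (2 ^ ρ / (4 * r ^ K) * (4 * r ^ K)) ^ n := by
          rw [mul_pow, mul_pow, ← pow_mul, pow_mul 2 2 n]
          norm_num
          ring
      _ ≤ (2 ^ ρ) ^ n := Nat.pow_le_pow_left (Nat.div_mul_le_self _ _) n
      _ = 2 ^ (ρ * n) := by rw [← pow_mul]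
  have h2r : (2 ^ r + 1) ^ q ≤ 2 ^ ((r + 1) * q) := by
    rw [pow_mul]
    apply Nat.pow_le_pow_left
    have : 1 ≤ 2 ^ r := Nat.one_le_two_pow
    rw [pow_succ]
    omega
  have hmain : r ^ (K * n) * (2 ^ (r * r) * (2 ^ r + 1) ^ q * (2 ^ ρ / (4 * r ^ K)) ^ n) *
      2 ^ (2 * n) ≤ (2 ^ ρ) ^ (n - k) * 2 ^ (2 * n) := by
    calc r ^ (K * n) * (2 ^ (r * r) * (2 ^ r + 1) ^ q * (2 ^ ρ / (4 * r ^ K)) ^ n) *
          2 ^ (2 * n) = (2 ^ (r * r) * (2 ^ r + 1) ^ q) *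
            (r ^ (K * n) * (2 ^ ρ / (4 * r ^ K)) ^ n * 2 ^ (2 * n)) := by ring
      _ ≤ (2 ^ (r * r) * 2 ^ ((r + 1) * q)) * 2 ^ (ρ * n) :=
          Nat.mul_le_mul (Nat.mul_le_mul_left _ h2r) hD
      _ = 2 ^ (r * r + (r + 1) * q + ρ * n) := by rw [← pow_add, ← pow_add]
      _ ≤ 2 ^ (ρ * (n - k) + 2 * n) := by
          apply Nat.pow_le_pow_right (by norm_num)
          have h1 : ρ * n = ρ * (n - k) + ρ * k := by
            rw [← Nat.mul_add]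
            congr 1
            omega
          omega
      _ = (2 ^ ρ) ^ (n - k) * 2 ^ (2 * n) := by rw [pow_add, ← pow_mul]
  exact Nat.le_of_mul_le_mul_right hmain (by positivity)

/-- All labelled graphs of rank `r`. -/
theorem every_order_all (K r : ℕ) (hr : 2 ≤ r) (n : ℕ) :
    r ^ (K * n) * Nat.card {G : SimpleGraph (Fin n) // grank ⟨n, G⟩ = r ∧
      r ^ (10000 + 600 * K) < chi ⟨n, G⟩} ≤
      Nat.card {G : SimpleGraph (Fin n) // grank ⟨n, G⟩ = r} := by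
  classical
  obtain ⟨ρ, t, ht, hrρ⟩ : ∃ ρ t : ℕ, t ≤ 1 ∧ r = 2 * (ρ + 1) + t :=
    ⟨r / 2 - 1, r % 2, by omega, by omega⟩
  by_cases hbig : r ^ (4600 + 300 * K) ≤ 2 ^ ρ
  swap
  · have hempty : Nat.card {G : SimpleGraph (Fin n) // grank ⟨n, G⟩ = r ∧
        r ^ (10000 + 600 * K) < chi ⟨n, G⟩} = 0 := by
      rw [Nat.card_eq_zero]
      left
      constructor
      rintro ⟨G, h1, h2⟩
      have h3 := chi_le_two_pow h1
      have h4 : 2 ^ r ≤ r ^ (10000 + 600 * K) := by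
        push Not at hbig
        calc 2 ^ r ≤ 2 ^ (ρ + ρ + 3) := Nat.pow_le_pow_right (by norm_num) (by omega)
          _ = 2 ^ ρ * 2 ^ ρ * 2 ^ 3 := by rw [pow_add, pow_add]
          _ ≤ r ^ (4600 + 300 * K) * r ^ (4600 + 300 * K) * r ^ 3 :=
              Nat.mul_le_mul (Nat.mul_le_mul hbig.le hbig.le) (Nat.pow_le_pow_left hr 3)
          _ = r ^ (4600 + 300 * K + (4600 + 300 * K) + 3) := by rw [← pow_add, ← pow_add]
          _ ≤ _ := Nat.pow_le_pow_right (by omega) (by omega)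
      omega
    rw [hempty, mul_zero]
    exact Nat.zero_le _
  by_cases hn : r ^ (4600 + 300 * K) ≤ n
  swap
  · have hempty : Nat.card {G : SimpleGraph (Fin n) // grank ⟨n, G⟩ = r ∧
        r ^ (10000 + 600 * K) < chi ⟨n, G⟩} = 0 := by
      rw [Nat.card_eq_zero]
      left
      constructor
      rintro ⟨G, h1, h2⟩
      have h3 : chi ⟨n, G⟩ ≤ n := by
        have h4 : G.Colorable n := by
          have := G.colorable_of_fintype
          simpa using this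
        exact ENat.toNat_le_of_le_natCast h4.chromaticNumber_le
      have h4 : r ^ (4600 + 300 * K) ≤ r ^ (10000 + 600 * K) :=
        Nat.pow_le_pow_right (by omega) (by omega)
      omega
    rw [hempty, mul_zero]
    exact Nat.zero_le _
  have hk := core_card ρ t
  have hk' : (core ρ t).card ≤ r + 1 := by omega
  have hkn : (core ρ t).card ≤ n := by
    have h1 : r + 1 ≤ n := by
      calc r + 1 ≤ r * r := by nlinarith
        _ = r ^ 2 := by ring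
        _ ≤ r ^ (4600 + 300 * K) := Nat.pow_le_pow_right (by omega) (by omega)
        _ ≤ n := hn
    omega
  have h1 := bad_bound (K := K) (n := n) (C := 10000 + 600 * K) hr (by omega) hbig (by omega)
  have h2 := compare (ρ := ρ) hr (by omega) hk' hn
  have h3 := lower_all ρ ht hkn
  have h4 : Nat.card {G : SimpleGraph (Fin n) // grank ⟨n, G⟩ = r ∧
        r ^ (10000 + 600 * K) < chi ⟨n, G⟩} = ((univ : Finset (SimpleGraph (Fin n))).filter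
      (fun G => grank ⟨n, G⟩ = r ∧ r ^ (10000 + 600 * K) < chi ⟨n, G⟩)).card := by
    rw [Nat.card_eq_fintype_card, Fintype.card_subtype]
  rw [h4]
  calc _ ≤ r ^ (K * n) * _ := Nat.mul_le_mul_left _ h1
    _ ≤ (2 ^ ρ) ^ (n - (core ρ t).card) := h2
    _ ≤ (2 ^ (ρ + 1)) ^ (n - (core ρ t).card) :=
        Nat.pow_le_pow_left (Nat.pow_le_pow_right (by norm_num) (by omega)) _
    _ ≤ _ := h3
    _ = _ := by rw [hrρ]

/-- Outside of a middle range there are no exceptional graphs. -/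
theorem no_bad {K r n ρ : ℕ} (hr : 2 ≤ r) (hρ : r ≤ 2 * ρ + 3)
    (hout : ¬ (r ^ (4600 + 300 * K) ≤ 2 ^ ρ ∧ r ^ (4600 + 300 * K) ≤ n ∧ n ≤ 2 ^ ρ))
    {G : SimpleGraph (Fin n)} (h1 : InG r ⟨n, G⟩) : chi ⟨n, G⟩ ≤ r ^ (10000 + 600 * K) := by
  classical
  by_cases hbig : r ^ (4600 + 300 * K) ≤ 2 ^ ρ
  swap
  · have h3 := chi_le_two_pow h1.2.2
    have h4 : 2 ^ r ≤ r ^ (10000 + 600 * K) := by
      push Not at hbig
      calc 2 ^ r ≤ 2 ^ (ρ + ρ + 3) := Nat.pow_le_pow_right (by norm_num) (by omega)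
        _ = 2 ^ ρ * 2 ^ ρ * 2 ^ 3 := by rw [pow_add, pow_add]
        _ ≤ r ^ (4600 + 300 * K) * r ^ (4600 + 300 * K) * r ^ 3 :=
            Nat.mul_le_mul (Nat.mul_le_mul hbig.le hbig.le) (Nat.pow_le_pow_left hr 3)
        _ = r ^ (4600 + 300 * K + (4600 + 300 * K) + 3) := by rw [← pow_add, ← pow_add]
        _ ≤ _ := Nat.pow_le_pow_right (by omega) (by omega)
    exact h3.trans h4
  by_cases hn : r ^ (4600 + 300 * K) ≤ n
  swap
  · have h3 : chi ⟨n, G⟩ ≤ n := by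
      have h4 : G.Colorable n := by
        have := G.colorable_of_fintype
        simpa using this
      exact ENat.toNat_le_of_le_natCast h4.chromaticNumber_le
    have h4 : r ^ (4600 + 300 * K) ≤ r ^ (10000 + 600 * K) :=
      Nat.pow_le_pow_right (by omega) (by omega)
    omega
  have hup : 2 ^ ρ < n := by
    by_contra h
    exact hout ⟨hbig, hn, not_lt.mp h⟩
  haveI : Nonempty (Fin n) := h1.1.nonempty
  have hrank : (G.adjMatrix ℝ).rank = r := h1.2.2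
  have h3 := chi_bound (G := G) h1.2.1 (by rw [hrank]; omega)
  rw [hrank, Fintype.card_fin] at h3
  have hrR : (2 : ℝ) ≤ r := by exact_mod_cast hr
  have hnR : (2 : ℝ) ^ ρ ≤ n := by exact_mod_cast hup.le
  have hnpos : (0 : ℝ) < n := lt_of_lt_of_le (by positivity) hnR
  have h4 : 16 * (r : ℝ) ^ 2 * 2 ^ r / (n : ℝ) ^ 2 ≤ (r : ℝ) ^ 9 := by
    rw [div_le_iff₀ (by positivity)]
    have h5 : (2 : ℝ) ^ r ≤ 8 * (n : ℝ) ^ 2 := by
      calc (2 : ℝ) ^ r ≤ 2 ^ (ρ + ρ + 3) := pow_le_pow_right₀ (by norm_num) (by omega)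
        _ = 8 * (2 ^ ρ * 2 ^ ρ) := by rw [pow_add, pow_add]; norm_num; ring
        _ ≤ 8 * ((n : ℝ) * n) := by
            apply mul_le_mul_of_nonneg_left _ (by norm_num)
            exact mul_le_mul hnR hnR (by positivity) hnpos.le
        _ = 8 * (n : ℝ) ^ 2 := by ring
    have h6 : (128 : ℝ) ≤ (r : ℝ) ^ 7 := by
      calc (128 : ℝ) = 2 ^ 7 := by norm_num
        _ ≤ (r : ℝ) ^ 7 := pow_le_pow_left₀ (by norm_num) hrR 7
    calc 16 * (r : ℝ) ^ 2 * 2 ^ r ≤ 16 * (r : ℝ) ^ 2 * (8 * (n : ℝ) ^ 2) :=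
          mul_le_mul_of_nonneg_left h5 (by positivity)
      _ = 128 * ((r : ℝ) ^ 2 * (n : ℝ) ^ 2) := by ring
      _ ≤ (r : ℝ) ^ 7 * ((r : ℝ) ^ 2 * (n : ℝ) ^ 2) :=
          mul_le_mul_of_nonneg_right h6 (by positivity)
      _ = (r : ℝ) ^ 9 * (n : ℝ) ^ 2 := by ring
  obtain ⟨s, hs⟩ : ∃ s : ℕ, s = 61 := ⟨_, rfl⟩
  rw [← hs] at h3
  have h5 : (G.chromaticNumber.toNat : ℝ) ≤ (r : ℝ) ^ (9 * s) := by
    rw [pow_mul]
    exact h3.trans (pow_le_pow_left₀ (by positivity) h4 s)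
  have h6 : chi ⟨n, G⟩ ≤ r ^ (9 * s) := by
    have h7 : G.chromaticNumber.toNat ≤ r ^ (9 * s) := by exact_mod_cast h5
    exact h7
  exact h6.trans (Nat.pow_le_pow_right (by omega) (by omega))

theorem core_le {K r n ρ t : ℕ} (hr : 2 ≤ r) (hrρ : r = 2 * (ρ + 1) + t)
    (hn : r ^ (4600 + 300 * K) ≤ n) : (core ρ t).card ≤ r + 1 ∧ (core ρ t).card ≤ n := by
  have hk := core_card ρ t
  have hk' : (core ρ t).card ≤ r + 1 := by omega
  refine ⟨hk', ?_⟩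
  have h1 : r + 1 ≤ n := by
    calc r + 1 ≤ r * r := by nlinarith
      _ = r ^ 2 := by ring
      _ ≤ r ^ (4600 + 300 * K) := Nat.pow_le_pow_right (by omega) (by omega)
      _ ≤ n := hn
  omega

/-- Connected twin-free labelled graphs of rank `r`. -/
theorem every_order_inG (K r : ℕ) (hr : 2 ≤ r) (n : ℕ) :
    r ^ (K * n) * Nat.card {G : SimpleGraph (Fin n) // InG r ⟨n, G⟩ ∧
      r ^ (10000 + 600 * K) < chi ⟨n, G⟩} ≤
      Nat.card {G : SimpleGraph (Fin n) // InG r ⟨n, G⟩} := by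
  classical
  obtain ⟨ρ, t, ht, hrρ⟩ : ∃ ρ t : ℕ, t ≤ 1 ∧ r = 2 * (ρ + 1) + t :=
    ⟨r / 2 - 1, r % 2, by omega, by omega⟩
  by_cases hout : r ^ (4600 + 300 * K) ≤ 2 ^ ρ ∧ r ^ (4600 + 300 * K) ≤ n ∧ n ≤ 2 ^ ρ
  swap
  · have hempty : Nat.card {G : SimpleGraph (Fin n) // InG r ⟨n, G⟩ ∧
        r ^ (10000 + 600 * K) < chi ⟨n, G⟩} = 0 := by
      rw [Nat.card_eq_zero]
      left
      constructor
      rintro ⟨G, h1, h2⟩
      exact absurd (no_bad hr (by omega) hout h1) (not_le.mpr h2)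
    rw [hempty, mul_zero]
    exact Nat.zero_le _
  obtain ⟨hbig, hn, hup⟩ := hout
  obtain ⟨hk', hkn⟩ := core_le hr hrρ hn
  have h1 := bad_bound (K := K) (n := n) (C := 10000 + 600 * K) hr (by omega) hbig (by omega)
  have h2 := compare (ρ := ρ) hr (by omega) hk' hn
  have h3 := lower_inG ρ ht hkn hup
  have h4 : Nat.card {G : SimpleGraph (Fin n) // InG r ⟨n, G⟩ ∧
        r ^ (10000 + 600 * K) < chi ⟨n, G⟩} ≤ ((univ : Finset (SimpleGraph (Fin n))).filter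
      (fun G => grank ⟨n, G⟩ = r ∧ r ^ (10000 + 600 * K) < chi ⟨n, G⟩)).card := by
    rw [Nat.card_eq_fintype_card, Fintype.card_subtype]
    apply Finset.card_le_card
    intro G hG
    rw [Finset.mem_filter] at hG ⊢
    exact ⟨hG.1, hG.2.1.2.2, hG.2.2⟩
  calc _ ≤ r ^ (K * n) * _ := Nat.mul_le_mul_left _ (h4.trans h1)
    _ ≤ (2 ^ ρ) ^ (n - (core ρ t).card) := h2
    _ ≤ _ := h3
    _ = _ := by rw [hrρ]

end Pool.Agent.Helper6.LR
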