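import Pool.Agent.Helper6.LR2.EveryOrder

set_option linter.unusedSectionVars false

/-!
# Isomorphism classes
-/

namespace Pool.Agent.Helper6.LR

open Finset Module

variable {r : ℕ}

open Classical in
theorem count_graphs_iso {n q D : ℕ} (B : Finset (SimpleGraph (Fin n)))
    (hB : ∀ G ∈ B, ∀ G' ∈ B, Nonempty (G ≃g G') → G = G')
    (Cont : (Fin r → Fin r → Bool) → Finset (Fin r → Bool) → Finset (Fin r → Bool))
    (h : ∀ G ∈ B, ∃ (M : Fin r → Fin r → Bool) (T : Finset (Fin r → Bool))
      (x : Fin n → Fin r → Bool), Function.Injective x ∧ T.card ≤ q ∧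
      (T ∪ Cont M T).card ≤ D ∧ (∀ v, x v ∈ T ∪ Cont M T) ∧
      ∀ v w, (if G.Adj v w then (1 : ℝ) else 0) = qf M (x v) (x w)) :
    B.card * n.factorial ≤ 2 ^ (r * r) * (2 ^ r + 1) ^ q * D ^ n := by
  have h' : ∀ G : SimpleGraph (Fin n), ∃ (M : Fin r → Fin r → Bool)
      (T : Finset (Fin r → Bool)) (x : Fin n → Fin r → Bool), G ∈ B →
      Function.Injective x ∧ T.card ≤ q ∧
      (T ∪ Cont M T).card ≤ D ∧ (∀ v, x v ∈ T ∪ Cont M T) ∧
      ∀ v w, (if G.Adj v w then (1 : ℝ) else 0) = qf M (x v) (x w) := by
    intro G
    by_cases hG : G ∈ B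
    · obtain ⟨M, T, x, h1⟩ := h G hG
      exact ⟨M, T, x, fun _ => h1⟩
    · exact ⟨fun _ _ => true, ∅, fun _ _ => true, fun h1 => absurd h1 hG⟩
  choose M T x hx using h'
  let Ψ : SimpleGraph (Fin n) → (Fin r → Fin r → Bool) × Finset (Fin r → Bool) :=
    fun G => (M G, T G)
  have hfib : ∀ p ∈ B.image Ψ, (B.filter (fun G => Ψ G = p)).card ≤ D.choose n := by
    intro p hp
    obtain ⟨G0, hG0, rfl⟩ := Finset.mem_image.mp hp
    obtain ⟨_, _, hD, _, _⟩ := hx G0 hG0
    calc (B.filter (fun G => Ψ G = Ψ G0)).card ≤
          (Finset.powersetCard n (T G0 ∪ Cont (M G0) (T G0))).card := by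
          apply Finset.card_le_card_of_injOn (fun G => univ.image (x G))
          · intro G hG
            obtain ⟨hGB, hGp⟩ := Finset.mem_filter.mp hG
            have h1 : M G = M G0 := congrArg Prod.fst hGp
            have h2 : T G = T G0 := congrArg Prod.snd hGp
            rw [Finset.mem_coe, Finset.mem_powersetCard]
            constructor
            · intro y hy
              obtain ⟨v, _, rfl⟩ := Finset.mem_image.mp hy
              have h3 := (hx G hGB).2.2.2.1 v
              rwa [h1, h2] at h3
            · rw [Finset.card_image_of_injective _ (hx G hGB).1, Finset.card_univ,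
                Fintype.card_fin]
          · intro G hG G' hG' hGG
            obtain ⟨hGB, hGp⟩ := Finset.mem_filter.mp hG
            obtain ⟨hGB', hGp'⟩ := Finset.mem_filter.mp hG'
            have h1 : M G = M G0 := congrArg Prod.fst hGp
            have h1' : M G' = M G0 := congrArg Prod.fst hGp'
            apply hB G hGB G' hGB'
            have hex : ∀ v, ∃ w, x G' w = x G v := by
              intro v
              have h2 : x G v ∈ univ.image (x G') := by
                have h3 : univ.image (x G) = univ.image (x G') := hGG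
                rw [← h3]
                exact Finset.mem_image_of_mem _ (mem_univ v)
              obtain ⟨w, _, hw⟩ := Finset.mem_image.mp h2
              exact ⟨w, hw⟩
            choose σ hσ using hex
            have hσinj : Function.Injective σ := by
              intro v w hvw
              apply (hx G hGB).1
              rw [← hσ v, ← hσ w, hvw]
            have hσbij : Function.Bijective σ := Finite.injective_iff_bijective.mp hσinj
            refine ⟨⟨Equiv.ofBijective σ hσbij, ?_⟩⟩
            intro v w
            have h4 := (hx G hGB).2.2.2.2 v w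
            have h5 := (hx G' hGB').2.2.2.2 (σ v) (σ w)
            have h6 : (if G'.Adj (σ v) (σ w) then (1 : ℝ) else 0) =
                if G.Adj v w then (1 : ℝ) else 0 := by
              rw [h4, h5, h1, h1', hσ, hσ]
            show G'.Adj (σ v) (σ w) ↔ G.Adj v w
            by_cases hv : G'.Adj (σ v) (σ w) <;> by_cases hw : G.Adj v w
            · simp [hv, hw]
            · rw [if_pos hv, if_neg hw] at h6
              norm_num at h6
            · rw [if_neg hv, if_pos hw] at h6
              norm_num at h6
            · simp [hv, hw]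
      _ = (T G0 ∪ Cont (M G0) (T G0)).card.choose n := Finset.card_powersetCard _ _
      _ ≤ D.choose n := Nat.choose_le_choose n hD
  have himage : (B.image Ψ).card ≤ 2 ^ (r * r) * (2 ^ r + 1) ^ q := by
    have hsub : B.image Ψ ⊆ (univ : Finset (Fin r → Fin r → Bool)) ×ˢ
        ((univ : Finset (Finset (Fin r → Bool))).filter (fun T => T.card ≤ q)) := by
      intro p hp
      obtain ⟨G, hG, rfl⟩ := Finset.mem_image.mp hp
      rw [Finset.mem_product, Finset.mem_filter]
      exact ⟨mem_univ _, mem_univ _, (hx G hG).2.1⟩
    refine (Finset.card_le_card hsub).trans ?_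
    rw [Finset.card_product]
    apply Nat.mul_le_mul
    · apply le_of_eq
      rw [Finset.card_univ, Fintype.card_fun, Fintype.card_fun, Fintype.card_bool,
        Fintype.card_fin, ← pow_mul]
    · refine (card_small_subsets q).trans ?_
      rw [Fintype.card_fun, Fintype.card_bool, Fintype.card_fin]
  have hch : D.choose n * n.factorial ≤ D ^ n := by
    rw [mul_comm, ← Nat.descFactorial_eq_factorial_mul_choose]
    exact Nat.descFactorial_le_pow D n
  calc B.card * n.factorial ≤ (D.choose n * (B.image Ψ).card) * n.factorial :=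
        Nat.mul_le_mul_right _ (Finset.card_le_mul_card_image B _ hfib)
    _ = (B.image Ψ).card * (D.choose n * n.factorial) := by ring
    _ ≤ (2 ^ (r * r) * (2 ^ r + 1) ^ q) * D ^ n := Nat.mul_le_mul himage hch

theorem coord_inj {n : ℕ} {G : SimpleGraph (Fin n)} (hG : InG r ⟨n, G⟩)
    {M : Fin r → Fin r → Bool} {x : Fin n → Fin r → Bool} [DecidableRel G.Adj]
    (hx : ∀ v w, (if G.Adj v w then (1 : ℝ) else 0) = qf M (x v) (x w)) :
    Function.Injective x := by
  intro v w hvw
  by_contra hne
  have hadj : ∀ u, G.Adj v u ↔ G.Adj w u := by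
    intro u
    have h1 := hx v u
    have h2 := hx w u
    rw [hvw, ← h2] at h1
    by_cases h3 : G.Adj v u <;> by_cases h4 : G.Adj w u
    · simp [h3, h4]
    · rw [if_pos h3, if_neg h4] at h1
      norm_num at h1
    · rw [if_neg h3, if_pos h4] at h1
      norm_num at h1
    · simp [h3, h4]
  have hn : ¬ G.Adj v w := by
    intro h
    exact G.loopless.irrefl w ((hadj w).mp h)
  apply hG.2.1 v w hne hn
  ext u
  exact hadj u

end Pool.Agent.Helper6.LR
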