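import Pool.Agent.Helper6.LR2.Iso

set_option linter.unusedSectionVars false

/-!
# Final form
-/

namespace Pool.Agent.Helper6.LR

open Finset Module

/-- Isomorphism classes of graphs on `Fin n`, as sets of graphs. -/
def cls (n : ℕ) (p : SimpleGraph (Fin n) → Prop) : Set (Set (SimpleGraph (Fin n))) :=
  {C | ∃ G, p G ∧ C = {H | Nonempty (G ≃g H)}}

theorem cls_eq {n : ℕ} {G G' : SimpleGraph (Fin n)} :
    {H : SimpleGraph (Fin n) | Nonempty (G ≃g H)} = {H | Nonempty (G' ≃g H)} ↔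
      Nonempty (G ≃g G') := by
  constructor
  · intro h
    have h1 : G' ∈ {H : SimpleGraph (Fin n) | Nonempty (G ≃g H)} := by
      rw [h]
      exact ⟨RelIso.refl _⟩
    exact h1
  · rintro ⟨e⟩
    ext H
    exact ⟨fun ⟨f⟩ => ⟨e.symm.trans f⟩, fun ⟨f⟩ => ⟨e.trans f⟩⟩

theorem labelled_le' {n : ℕ} (p : SimpleGraph (Fin n) → Prop) :
    Nat.card {G : SimpleGraph (Fin n) // p G} ≤ n.factorial * (cls n p).ncard := by
  classical
  let A : Finset (SimpleGraph (Fin n)) := univ.filter fun G => p G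
  have h0 : Nat.card {G : SimpleGraph (Fin n) // p G} = A.card := by
    rw [Nat.card_eq_fintype_card, Fintype.card_subtype]
  let f : SimpleGraph (Fin n) → Set (SimpleGraph (Fin n)) := fun G => {H | Nonempty (G ≃g H)}
  have hfib : ∀ q ∈ A.image f, (A.filter fun G => f G = q).card ≤ n.factorial := by
    intro q hq
    obtain ⟨G0, _, rfl⟩ := Finset.mem_image.mp hq
    have hsub : (A.filter fun G => f G = f G0) ⊆
        (univ : Finset (Equiv.Perm (Fin n))).image
          (fun σ : Equiv.Perm (Fin n) => G0.comap σ) := by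
      intro G hG
      obtain ⟨_, hG1⟩ := Finset.mem_filter.mp hG
      obtain ⟨e⟩ := cls_eq.mp hG1
      rw [Finset.mem_image]
      refine ⟨e.toEquiv, mem_univ _, ?_⟩
      ext v w
      rw [SimpleGraph.comap_adj]
      exact e.map_rel_iff
    calc _ ≤ _ := Finset.card_le_card hsub
      _ ≤ _ := Finset.card_image_le
      _ = n.factorial := by rw [Finset.card_univ, Fintype.card_perm, Fintype.card_fin]
  rw [h0]
  refine (Finset.card_le_mul_card_image A _ hfib).trans (Nat.mul_le_mul_left _ ?_)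
  rw [← Set.ncard_coe_finset]
  apply Set.ncard_le_ncard _ (Set.toFinite _)
  intro q hq
  obtain ⟨G, hG, rfl⟩ := Finset.mem_image.mp (Finset.mem_coe.mp hq)
  exact ⟨G, (Finset.mem_filter.mp hG).2, rfl⟩

open Classical in
theorem exists_reps_cls {n : ℕ} (p : SimpleGraph (Fin n) → Prop) :
    ∃ B : Finset (SimpleGraph (Fin n)), (∀ G ∈ B, p G) ∧
      (∀ G ∈ B, ∀ G' ∈ B, Nonempty (G ≃g G') → G = G') ∧ B.card = (cls n p).ncard := by
  have hex : ∀ q : Set (SimpleGraph (Fin n)), ∃ G : SimpleGraph (Fin n),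
      q ∈ cls n p → p G ∧ q = {H | Nonempty (G ≃g H)} := by
    intro q
    by_cases hq : q ∈ cls n p
    · obtain ⟨G, h1, h2⟩ := hq
      exact ⟨G, fun _ => ⟨h1, h2⟩⟩
    · exact ⟨⊥, fun h => absurd h hq⟩
  choose g hg using hex
  have hfin : (cls n p).Finite := Set.toFinite _
  have hmem : ∀ q, q ∈ hfin.toFinset ↔ q ∈ cls n p := fun q => hfin.mem_toFinset
  refine ⟨hfin.toFinset.image g, ?_, ?_, ?_⟩
  · intro G hG
    obtain ⟨q, hq, rfl⟩ := Finset.mem_image.mp hG
    exact (hg q ((hmem q).mp hq)).1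
  · intro G hG G' hG' hiso
    obtain ⟨q, hq, rfl⟩ := Finset.mem_image.mp hG
    obtain ⟨q', hq', rfl⟩ := Finset.mem_image.mp hG'
    have h1 := (hg q ((hmem q).mp hq)).2
    have h2 := (hg q' ((hmem q').mp hq')).2
    have h3 : q = q' := by
      rw [h1, h2]
      exact cls_eq.mpr hiso
    rw [h3]
  · rw [Finset.card_image_of_injOn, Set.ncard_eq_toFinset_card _ hfin]
    intro q hq q' hq' h
    have h1 := (hg q ((hmem q).mp hq)).2
    have h2 := (hg q' ((hmem q').mp hq')).2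
    rw [h1, h2, h]

theorem not_colorable_iff {n m : ℕ} (G : SimpleGraph (Fin n)) :
    ¬ G.Colorable m ↔ m < chi ⟨n, G⟩ := by
  have h1 : G.Colorable n := by
    have := G.colorable_of_fintype
    simpa using this
  have h2 : G.chromaticNumber ≠ ⊤ := ne_top_of_le_ne_top (ENat.coe_ne_top n) h1.chromaticNumber_le
  have h3 : ((chi ⟨n, G⟩ : ℕ) : ℕ∞) = G.chromaticNumber := ENat.coe_toNat h2
  rw [← not_le, not_iff_not, ← SimpleGraph.chromaticNumber_le_iff_colorable, ← h3]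
  exact Nat.cast_le

/-- The number of isomorphism classes of exceptional graphs, compared with the number of labelled
graphs. -/
theorem every_order_strong (K r : ℕ) (hr : 2 ≤ r) (n : ℕ) :
    r ^ (K * n) * (n.factorial *
      (cls n (fun G => InG r ⟨n, G⟩ ∧ r ^ (10000 + 600 * K) < chi ⟨n, G⟩)).ncard) ≤
      Nat.card {G : SimpleGraph (Fin n) // InG r ⟨n, G⟩} := by
  classical
  obtain ⟨ρ, t, ht, hrρ⟩ : ∃ ρ t : ℕ, t ≤ 1 ∧ r = 2 * (ρ + 1) + t :=
    ⟨r / 2 - 1, r % 2, by omega, by omega⟩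
  obtain ⟨B, hBp, hBiso, hBcard⟩ := exists_reps_cls
    (fun G : SimpleGraph (Fin n) => InG r ⟨n, G⟩ ∧ r ^ (10000 + 600 * K) < chi ⟨n, G⟩)
  by_cases hout : r ^ (4600 + 300 * K) ≤ 2 ^ ρ ∧ r ^ (4600 + 300 * K) ≤ n ∧ n ≤ 2 ^ ρ
  swap
  · have hempty : B = ∅ := by
      rw [Finset.eq_empty_iff_forall_notMem]
      intro G hG
      obtain ⟨h1, h2⟩ := hBp G hG
      exact absurd (no_bad hr (by omega) hout h1) (not_le.mpr h2)
    rw [← hBcard, hempty, Finset.card_empty, mul_zero, mul_zero]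
    exact Nat.zero_le _
  obtain ⟨hbig, hn, hup⟩ := hout
  obtain ⟨hk', hkn⟩ := core_le hr hrρ hn
  obtain ⟨Cont, hCont⟩ := bad_struct (K := K) (C := 10000 + 600 * K) hr
    (show r ≤ 2 * ρ + 3 by omega) hbig (by omega)
  have h1 := count_graphs_iso B hBiso Cont (q := r ^ (4539 + 280 * K))
    (D := 2 ^ ρ / (4 * r ^ K)) (by
      intro G hG
      obtain ⟨hG1, hG2⟩ := hBp G hG
      obtain ⟨M, T, x, ha, hb, hc, hd⟩ := hCont n G hG1.2.2 hG2
      exact ⟨M, T, x, coord_inj hG1 hd, ha, hb, hc, hd⟩)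
  have h2 := compare (ρ := ρ) hr (by omega) hk' hn
  have h3 := lower_inG ρ ht hkn hup
  rw [← hBcard]
  calc r ^ (K * n) * (n.factorial * B.card) = r ^ (K * n) * (B.card * n.factorial) := by ring
    _ ≤ r ^ (K * n) * _ := Nat.mul_le_mul_left _ h1
    _ ≤ (2 ^ ρ) ^ (n - (core ρ t).card) := h2
    _ ≤ Nat.card {G : SimpleGraph (Fin n) // InG (2 * (ρ + 1) + t) ⟨n, G⟩} := h3
    _ = Nat.card {G : SimpleGraph (Fin n) // InG r ⟨n, G⟩} := by rw [hrρ]

/-- Isomorphism classes of connected twin-free graphs of rank `r` and order `n`. -/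
theorem every_order_cls (K r : ℕ) (hr : 2 ≤ r) (n : ℕ) :
    r ^ (K * n) * (cls n (fun G => InG r ⟨n, G⟩ ∧ r ^ (10000 + 600 * K) < chi ⟨n, G⟩)).ncard ≤
      (cls n (fun G => InG r ⟨n, G⟩)).ncard := by
  have h1 := every_order_strong K r hr n
  have h2 := labelled_le' (n := n) (fun G => InG r ⟨n, G⟩)
  refine Nat.le_of_mul_le_mul_left ?_ (Nat.factorial_pos n)
  calc n.factorial * (r ^ (K * n) * _) = r ^ (K * n) * (n.factorial * _) := by ring
    _ ≤ _ := h1
    _ ≤ _ := h2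

end Pool.Agent.Helper6.LR
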