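import Pool.Agent.Helper6.LR.Graph

set_option linter.unusedSectionVars false

/-!
# Nearly exact matrices

Real matrices most of whose entries are `±1`. A set `A` of rows is essential for a set `B` of
columns if no subset of `A` of nearly full size has smaller rank.
-/

namespace Pool.Agent.Helper6.LR

open Finset Module

variable {V : Type*} [Fintype V] [DecidableEq V]

/-- The entry is `±1`. -/
def Ex (N : V → V → ℝ) (a b : V) : Prop := N a b = 1 ∨ N a b = -1

theorem Ex.tr {N : V → V → ℝ} {a b : V} (h : Ex N a b) : Ex (tr N) b a := h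

open Classical in
/-- The number of entries in row `a` and columns `B` that are not `±1`. -/
noncomputable def bad (N : V → V → ℝ) (a : V) (B : Finset V) : ℕ :=
  (B.filter (fun b => ¬ Ex N a b)).card

theorem bad_mono (N : V → V → ℝ) (a : V) {B' B : Finset V} (h : B' ⊆ B) :
    bad N a B' ≤ bad N a B := by
  classical
  exact Finset.card_le_card (Finset.filter_subset_filter _ h)

/-- The columns of `B` in which all the rows of `D` are exact. -/
theorem card_exact (N : V → V → ℝ) (D B : Finset V) {e : ℕ} (h : ∀ a ∈ D, bad N a B ≤ e) :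
    ∃ B' ⊆ B, (∀ b ∈ B', ∀ a ∈ D, Ex N a b) ∧ B.card ≤ B'.card + D.card * e := by
  classical
  refine ⟨B.filter (fun b => ∀ a ∈ D, Ex N a b), Finset.filter_subset _ _, ?_, ?_⟩
  · intro b hb
    exact (Finset.mem_filter.mp hb).2
  · have hsub : B ⊆ B.filter (fun b => ∀ a ∈ D, Ex N a b) ∪
        D.biUnion (fun a => B.filter (fun b => ¬ Ex N a b)) := by
      intro b hb
      by_cases hall : ∀ a ∈ D, Ex N a b
      · exact Finset.mem_union_left _ (Finset.mem_filter.mpr ⟨hb, hall⟩)
      · push Not at hall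
        obtain ⟨a, ha, hna⟩ := hall
        apply Finset.mem_union_right
        rw [Finset.mem_biUnion]
        exact ⟨a, ha, Finset.mem_filter.mpr ⟨hb, hna⟩⟩
    calc B.card ≤ _ := Finset.card_le_card hsub
      _ ≤ _ := Finset.card_union_le _ _
      _ ≤ (B.filter (fun b => ∀ a ∈ D, Ex N a b)).card + D.card * e := by
          apply Nat.add_le_add_left
          exact Finset.card_biUnion_le_card_mul _ _ _ fun a ha => h a ha

/-- No subset of `A` of relative size at least `1 - δ` has smaller rank on `B`. -/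
def Ess (N : V → V → ℝ) (A B : Finset V) (δ : ℝ) : Prop :=
  ∀ A' ⊆ A, (1 - δ) * (A.card : ℝ) ≤ A'.card → rk N A' B = rk N A B

theorem ker_bot {N : V → V → ℝ} {A' A B : Finset V} (hA : A' ⊆ A)
    (h : rk N A' B = rk N A B) : (CS N A B ⊓ LinearMap.ker (P A') : Submodule ℝ (V → ℝ)) = ⊥ := by
  have h1 := rk_add_ker N B hA
  apply Submodule.finrank_eq_zero.mp
  omega

theorem zero_of_rk_eq {N : V → V → ℝ} {A' A B : Finset V} (hA : A' ⊆ A)
    (h : rk N A' B = rk N A B) {z : V → ℝ} (hz : z ∈ CS N A B) (h0 : ∀ a ∈ A', z a = 0) :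
    z = 0 := by
  have h1 : z ∈ (CS N A B ⊓ LinearMap.ker (P A') : Submodule ℝ (V → ℝ)) := by
    refine ⟨hz, ?_⟩
    have : P A' z = 0 := by
      funext a
      by_cases ha : a ∈ A'
      · rw [P_mem ha, h0 a ha]
        rfl
      · rw [P_not_mem ha]
        rfl
    exact this
  rw [ker_bot hA h, Submodule.mem_bot] at h1
  exact h1

theorem rk_eq_mono {N : V → V → ℝ} {A' A B' B : Finset V} (hA : A' ⊆ A) (hB : B' ⊆ B)
    (h : rk N A' B = rk N A B) : rk N A' B' = rk N A B' := by
  have h1 := rk_add_ker N B' hA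
  have h2 : (CS N A B' ⊓ LinearMap.ker (P A') : Submodule ℝ (V → ℝ)) = ⊥ := by
    rw [eq_bot_iff, ← ker_bot hA h]
    exact inf_le_inf_right _ (CS_mono N A hB)
  rw [h2, finrank_bot] at h1
  omega

theorem Ess.mono_right {N : V → V → ℝ} {A B B' : Finset V} {δ : ℝ} (h : Ess N A B δ)
    (hB : B' ⊆ B) : Ess N A B' δ := fun A' hA' hc => rk_eq_mono hA' hB (h A' hA' hc)

theorem Ess.mono_delta {N : V → V → ℝ} {A B : Finset V} {δ δ' : ℝ} (h : Ess N A B δ)
    (hδ : δ' ≤ δ) : Ess N A B δ' := by
  intro A' hA' hc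
  apply h A' hA'
  refine le_trans ?_ hc
  apply mul_le_mul_of_nonneg_right _ (Nat.cast_nonneg _)
  linarith

theorem Ess.zero {N : V → V → ℝ} {A B : Finset V} {δ : ℝ} (h : Ess N A B δ) {A' : Finset V}
    (hA' : A' ⊆ A) (hc : (1 - δ) * (A.card : ℝ) ≤ A'.card) {z : V → ℝ} (hz : z ∈ CS N A B)
    (h0 : ∀ a ∈ A', z a = 0) : z = 0 :=
  zero_of_rk_eq hA' (h A' hA' hc) hz h0

/-- A difference of two columns. -/
theorem diff_mem (N : V → V → ℝ) (A : Finset V) {B : Finset V} {b b' : V} (hb : b ∈ B)
    (hb' : b' ∈ B) (s : ℝ) : P A (col N b) - s • P A (col N b') ∈ CS N A B :=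
  Submodule.sub_mem _ (mem_CS N A hb) (Submodule.smul_mem _ _ (mem_CS N A hb'))

theorem diff_apply {N : V → V → ℝ} {A : Finset V} {b b' a : V} (ha : a ∈ A) (s : ℝ) :
    (P A (col N b) - s • P A (col N b')) a = N a b - s * N a b' := by
  simp only [Pi.sub_apply, Pi.smul_apply, P_mem ha, smul_eq_mul, col]

/-- Columns which agree on a subset of full rank agree. -/
theorem agree_of_rk_eq {N : V → V → ℝ} {A' A B : Finset V} (hA : A' ⊆ A)
    (h : rk N A' B = rk N A B) {b b' : V} (hb : b ∈ B) (hb' : b' ∈ B) {s : ℝ}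
    (hag : ∀ a ∈ A', N a b = s * N a b') : ∀ a ∈ A, N a b = s * N a b' := by
  have h0 := zero_of_rk_eq hA h (diff_mem N A hb hb' s) (by
    intro a ha
    rw [diff_apply (hA ha), hag a ha, sub_self])
  intro a ha
  have h1 := congrFun h0 a
  rw [diff_apply ha, Pi.zero_apply] at h1
  linarith

theorem par_of_rk_eq {N : V → V → ℝ} {A' A B : Finset V} (hA : A' ⊆ A)
    (h : rk N A' B = rk N A B) {b b' : V} (hb : b ∈ B) (hb' : b' ∈ B)
    (hp : Par N A' b b') : Par N A b b' := by
  obtain ⟨s, hs, hag⟩ := hp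
  exact ⟨s, hs, agree_of_rk_eq hA h hb hb' hag⟩

/-- A few coordinates separate the elements of a subspace. -/
theorem exists_sep (A : Finset V) : ∀ (d : ℕ) (K : Submodule ℝ (V → ℝ)), finrank ℝ K ≤ d →
    (∀ z ∈ K, ∀ a ∉ A, z a = 0) →
    ∃ D ⊆ A, D.card ≤ d ∧ ∀ z ∈ K, (∀ a ∈ D, z a = 0) → z = 0 := by
  intro d
  induction d with
  | zero =>
    intro K hK _
    have hK0 : K = ⊥ := by
      apply Submodule.finrank_eq_zero.mp
      omega
    refine ⟨∅, Finset.empty_subset _, by simp, ?_⟩
    intro z hz _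
    rwa [hK0, Submodule.mem_bot] at hz
  | succ d ih =>
    intro K hK hout
    by_cases hbot : K = ⊥
    · refine ⟨∅, Finset.empty_subset _, by simp, ?_⟩
      intro z hz _
      rwa [hbot, Submodule.mem_bot] at hz
    · obtain ⟨z, hz, hz0⟩ := Submodule.exists_mem_ne_zero_of_ne_bot hbot
      obtain ⟨a, ha⟩ := Function.ne_iff.mp hz0
      have haA : a ∈ A := by
        by_contra h
        exact ha (hout z hz a h)
      let K' : Submodule ℝ (V → ℝ) := K ⊓ LinearMap.ker (LinearMap.proj a : (V → ℝ) →ₗ[ℝ] ℝ)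
      have hK' : finrank ℝ K' ≤ d := by
        have h2 : K' < K := by
          refine lt_of_le_of_ne inf_le_left ?_
          intro h
          have h3 : z ∈ K' := by rw [h]; exact hz
          have h4 : z a = 0 := h3.2
          exact ha h4
        have := Submodule.finrank_lt_finrank_of_lt h2
        omega
      obtain ⟨D, hD, hDc, hDz⟩ := ih K' hK' fun w hw b hb => hout w hw.1 b hb
      refine ⟨insert a D, ?_, ?_, ?_⟩
      · intro x hx
        rcases Finset.mem_insert.mp hx with rfl | hx
        · exact haA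
        · exact hD hx
      · exact (Finset.card_insert_le _ _).trans (by omega)
      · intro w hw hw0
        apply hDz w
        · refine ⟨hw, ?_⟩
          have : w a = 0 := hw0 a (Finset.mem_insert_self _ _)
          exact this
        · intro b hb
          exact hw0 b (Finset.mem_insert_of_mem hb)

theorem CS_out (N : V → V → ℝ) (A B : Finset V) {z : V → ℝ} (hz : z ∈ CS N A B) {a : V}
    (ha : a ∉ A) : z a = 0 := by
  have hle : CS N A B ≤ LinearMap.ker (LinearMap.proj a : (V → ℝ) →ₗ[ℝ] ℝ) := by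
    rw [CS, Submodule.span_le]
    rintro _ ⟨b, _, rfl⟩
    have : P A (col N b) a = 0 := P_not_mem ha
    exact this
  exact hle hz

/-- Rows completing `A'` to a set of full rank. -/
theorem exists_completion (N : V → V → ℝ) {A' A : Finset V} (B : Finset V) (hA : A' ⊆ A) :
    ∃ D ⊆ A, D.card ≤ rk N A B - rk N A' B ∧
      ∀ z ∈ CS N A B, (∀ a ∈ A', z a = 0) → (∀ a ∈ D, z a = 0) → z = 0 := by
  obtain ⟨D, hD, hDc, hDz⟩ := exists_sep A (rk N A B - rk N A' B)
    (CS N A B ⊓ LinearMap.ker (P A')) (by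
      have := rk_add_ker N B hA
      omega) (fun z hz a ha => CS_out N A B hz.1 ha)
  refine ⟨D, hD, hDc, ?_⟩
  intro z hz h0 h1
  apply hDz z ⟨hz, ?_⟩ h1
  have : P A' z = 0 := by
    funext a
    by_cases ha : a ∈ A'
    · rw [P_mem ha, h0 a ha]
      rfl
    · rw [P_not_mem ha]
      rfl
  exact this

/-- Restricting the rows to `A'`: the classes of columns which are exact on the completing rows
grow by a factor at most `2 ^ |D|`. -/
theorem ColW.merge_exact {N : V → V → ℝ} {A A' B Bref D : Finset V} {w : ℕ}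
    (h : ColW N A B w) (hA : A' ⊆ A) (hBref : B ⊆ Bref) (hDA : D ⊆ A)
    (hD : ∀ z ∈ CS N A Bref, (∀ a ∈ A', z a = 0) → (∀ a ∈ D, z a = 0) → z = 0)
    {B' : Finset V} (hB' : B' ⊆ B) (hex : ∀ b ∈ B', ∀ a ∈ D, Ex N a b) :
    ColW N A' B' (w * 2 ^ D.card) := by
  classical
  intro b hb S hS hp
  have hsig : ∀ b' : V, ∃ s : ℝ, s * s = 1 ∧ (b' ∈ S → ∀ a ∈ A', N a b = s * N a b') := by
    intro b'
    by_cases hb' : b' ∈ S
    · obtain ⟨s, hs, h⟩ := hp b' hb'
      exact ⟨s, hs, fun _ => h⟩
    · exact ⟨1, by norm_num, fun h => absurd h hb'⟩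
  choose s hs hsb using hsig
  let f : V → (V → ℝ) := fun b' => P D (s b' • col N b')
  have hfib : ∀ t ∈ S.image f, (S.filter (fun x => f x = t)).card ≤ w := by
    intro t ht
    obtain ⟨c, hc, rfl⟩ := Finset.mem_image.mp ht
    refine h c (hB' (hS hc)) _ (((Finset.filter_subset _ _).trans hS).trans hB') ?_
    intro b' hb'
    rw [Finset.mem_filter] at hb'
    have hz := hD (P A (col N c) - (s c * s b') • P A (col N b'))
      (diff_mem N A (hBref (hB' (hS hc))) (hBref (hB' (hS hb'.1))) _) (by
        intro a ha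
        rw [diff_apply (hA ha)]
        have h1 := hsb c hc a ha
        have h2 := hsb b' hb'.1 a ha
        have h3 : N a c = s c * (s c * N a c) := by rw [← mul_assoc, hs, one_mul]
        rw [h3, ← h1, h2]
        ring) (by
        intro a ha
        rw [diff_apply (hDA ha)]
        have h1 := congrFun hb'.2 a
        simp only [f, P_mem ha, Pi.smul_apply, smul_eq_mul, col] at h1
        have h3 : N a c = s c * (s c * N a c) := by rw [← mul_assoc, hs, one_mul]
        rw [h3, ← h1]
        ring)
    refine ⟨s c * s b', ?_, ?_⟩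
    · calc s c * s b' * (s c * s b') = (s c * s c) * (s b' * s b') := by ring
        _ = 1 := by rw [hs, hs]; norm_num
    · intro a ha
      have h1 := congrFun hz a
      rw [diff_apply ha, Pi.zero_apply] at h1
      linarith
  have hT : (S.image f).card ≤ 2 ^ D.card := by
    have hsub : S.image f ⊆ Fintype.piFinset (fun a : V => if a ∈ D then ({1, -1} : Finset ℝ)
        else {0}) := by
      intro x hx
      obtain ⟨c, hc, rfl⟩ := Finset.mem_image.mp hx
      rw [Fintype.mem_piFinset]
      intro a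
      by_cases ha : a ∈ D
      · simp only [if_pos ha, f, P_mem ha, Pi.smul_apply, smul_eq_mul, col, Finset.mem_insert,
          Finset.mem_singleton]
        rcases sq_one (hs c) with h1 | h1 <;> rcases hex c (hS hc) a ha with h2 | h2 <;>
          rw [h1, h2] <;> norm_num
      · simp only [if_neg ha, f, P_not_mem ha, Finset.mem_singleton]
    calc (S.image f).card ≤ _ := Finset.card_le_card hsub
      _ = ∏ a : V, (if a ∈ D then ({1, -1} : Finset ℝ) else {0}).card := Fintype.card_piFinset _
      _ ≤ ∏ a : V, (if a ∈ D then 2 else 1) := by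
          apply Finset.prod_le_prod' 
          intro a _
          by_cases ha : a ∈ D
          · simp only [if_pos ha]
            exact Finset.card_le_two
          · simp only [if_neg ha, Finset.card_singleton, le_refl]
      _ = 2 ^ D.card := by
          rw [Finset.prod_ite, Finset.prod_const, Finset.prod_const_one, mul_one]
          congr 2
          ext a
          simp
  calc S.card ≤ w * (S.image f).card := Finset.card_le_mul_card_image S w hfib
    _ ≤ w * 2 ^ D.card := Nat.mul_le_mul_left _ hT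

/-- Counting columns with the help of exact rows. -/
theorem count_cols {N : V → V → ℝ} {A F : Finset V} {w e : ℕ} (h : ColW N A F w)
    (hbad : ∀ a ∈ A, bad N a F ≤ e) : F.card ≤ w * 2 ^ rk N A F + rk N A F * e := by
  classical
  obtain ⟨D, hDA, hDc, hDz⟩ := exists_completion N (A' := ∅) (A := A) F (Finset.empty_subset _)
  have h0 : rk N ∅ F = 0 := by
    have h1 : CS N ∅ F = ⊥ := by
      rw [eq_bot_iff, CS, Submodule.span_le]
      rintro _ ⟨b, _, rfl⟩
      have : P ∅ (col N b) = 0 := by
        funext a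
        exact P_not_mem (Finset.notMem_empty a)
      exact this
    rw [rk, h1, finrank_bot]
  rw [h0, Nat.sub_zero] at hDc
  obtain ⟨F', hF', hex, hcard⟩ := card_exact N D F (e := e) fun a ha => hbad a (hDA ha)
  have hm := h.merge_exact (A' := ∅) (Finset.empty_subset _) (Finset.Subset.refl F) hDA hDz hF' hex
  have h2 : F'.card ≤ w * 2 ^ D.card := by
    rcases F'.eq_empty_or_nonempty with h3 | ⟨b, hb⟩
    · rw [h3]
      simp
    · exact hm b hb F' (Finset.Subset.refl _) fun b' _ =>
        ⟨1, by norm_num, fun a ha => absurd ha (Finset.notMem_empty a)⟩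
  calc F.card ≤ F'.card + D.card * e := hcard
    _ ≤ w * 2 ^ rk N A F + rk N A F * e := by
        apply Nat.add_le_add
        · exact h2.trans (Nat.mul_le_mul_left _ (Nat.pow_le_pow_right (by norm_num) hDc))
        · exact Nat.mul_le_mul_right _ hDc

/-- Essential cores. -/
theorem exists_core {δ : ℝ} (hδ0 : 0 ≤ δ) (hδ1 : δ < 1) (N : V → V → ℝ) (B : Finset V) :
    ∀ (ρ : ℕ) (A : Finset V), rk N A B ≤ ρ → A.Nonempty →
      ∃ A' ⊆ A, A'.Nonempty ∧ (1 - δ) ^ ρ * (A.card : ℝ) ≤ A'.card ∧ Ess N A' B δ := by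
  intro ρ
  induction ρ with
  | zero =>
    intro A hA hne
    refine ⟨A, Finset.Subset.refl _, hne, by simp, ?_⟩
    intro A' hA' _
    have := rk_mono_left N B hA'
    omega
  | succ ρ ih =>
    intro A hA hne
    by_cases hess : Ess N A B δ
    · refine ⟨A, Finset.Subset.refl _, hne, ?_, hess⟩
      have h1 : (1 - δ) ^ (ρ + 1) ≤ 1 := pow_le_one₀ (by linarith) (by linarith)
      calc (1 - δ) ^ (ρ + 1) * (A.card : ℝ) ≤ 1 * (A.card : ℝ) :=
            mul_le_mul_of_nonneg_right h1 (Nat.cast_nonneg _)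
        _ = A.card := one_mul _
    · rw [Ess] at hess
      push Not at hess
      obtain ⟨A', hA', hc, hrk⟩ := hess
      have h1 := rk_mono_left N B hA'
      have hApos : (0 : ℝ) < A.card := by exact_mod_cast hne.card_pos
      have hne' : A'.Nonempty := by
        rw [← Finset.card_pos]
        have : (0 : ℝ) < A'.card := by
          have : 0 < (1 - δ) * (A.card : ℝ) := mul_pos (by linarith) hApos
          linarith
        exact_mod_cast this
      obtain ⟨A2, hA2, hne2, hc2, hess2⟩ := ih A' (by omega) hne'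
      refine ⟨A2, hA2.trans hA', hne2, ?_, hess2⟩
      calc (1 - δ) ^ (ρ + 1) * (A.card : ℝ) = (1 - δ) ^ ρ * ((1 - δ) * A.card) := by ring
        _ ≤ (1 - δ) ^ ρ * A'.card := by
            apply mul_le_mul_of_nonneg_left hc
            exact pow_nonneg (by linarith) _
        _ ≤ _ := hc2

end Pool.Agent.Helper6.LR
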