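import Pool.Agent.Helper6.LR2.RRect

set_option linter.unusedSectionVars false

/-!
# Colouring the part of a clique of exact entries inside a nearly exact set
-/

namespace Pool.Agent.Helper6.LR

open Finset Module

variable {V : Type*} [Fintype V] [DecidableEq V]

/-- A nearly exact set `C`, a set `I` of separating rows, a set `S ⊆ C` with exact entries. -/
structure Setup (N : V → V → ℝ) (I C S : Finset V) (R e : ℕ) : Prop where
  sym : tr N = N
  one : 1 ≤ R
  rkΩ : rk N (I ∪ C) (I ∪ C) ≤ R
  Iex : ∀ i ∈ I, ∀ x ∈ I ∪ C, Ex N i x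
  sep : ∀ x ∈ I ∪ C, ∀ y ∈ I ∪ C, (∀ i ∈ I, N i x = N i y) → x = y
  badC : ∀ x ∈ C, bad N x C ≤ e
  SC : S ⊆ C
  Sex : ∀ x ∈ S, ∀ y ∈ S, Ex N x y
  diag : ∀ x ∈ S, N x x = 1

theorem card_patterns' {N : V → V → ℝ} {A B : Finset V} (h : ∀ a ∈ A, ∀ b ∈ B, Ex N a b) :
    (B.image (fun b => P A (col N b))).card ≤ 2 ^ rk N A B := by
  classical
  apply cube_count _ (CS N A B) _ le_rfl
  · intro x hx y hy
    obtain ⟨c, hc, rfl⟩ := Finset.mem_image.mp hx
    obtain ⟨c', hc', rfl⟩ := Finset.mem_image.mp hy
    exact Submodule.sub_mem _ (mem_CS N A hc) (mem_CS N A hc')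
  · intro i
    refine ⟨if i ∈ A then 1 else 0, if i ∈ A then -1 else 0, ?_⟩
    intro x hx
    obtain ⟨c, hc, rfl⟩ := Finset.mem_image.mp hx
    by_cases hi : i ∈ A
    · rw [if_pos hi, if_pos hi, P_mem hi]
      exact h i hi c hc
    · rw [if_neg hi, if_neg hi, P_not_mem hi]
      left
      rfl

section

variable {N : V → V → ℝ} {I C S : Finset V} {R e : ℕ}

theorem Setup.sym_apply (h : Setup N I C S R e) (a b : V) : N a b = N b a := by
  have := congrFun (congrFun h.sym a) b
  exact this.symm

theorem Setup.SΩ (h : Setup N I C S R e) : I ∪ S ⊆ I ∪ C :=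
  Finset.union_subset_union_right h.SC

theorem Setup.bad_le (h : Setup N I C S R e) {X : Finset V} (hX : X ⊆ C) {a : V}
    (ha : a ∈ I ∪ C) : bad N a X ≤ e := by
  classical
  rcases Finset.mem_union.mp ha with hi | hc
  · have : bad N a X = 0 := by
      rw [bad, Finset.card_eq_zero, Finset.filter_eq_empty_iff]
      intro x hx
      rw [not_not]
      exact h.Iex a hi x (Finset.mem_union_right _ (hX hx))
    omega
  · exact (bad_mono N a hX).trans (h.badC a hc)

/-- Columns in `I ∪ C` which are parallel on `I` are in classes of size at most two. -/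
theorem Setup.two (h : Setup N I C S R e) {A X : Finset V} (hX : X ⊆ I ∪ C)
    (hA : ∀ i ∈ I, ∃ v ∈ A, Par N X i v) : ColW N A X 2 := by
  classical
  intro b hb T hT hp
  have hsig : ∀ b' : V, ∃ s : ℝ, s * s = 1 ∧ (b' ∈ T → ∀ a ∈ A, N a b = s * N a b') := by
    intro b'
    by_cases hb' : b' ∈ T
    · obtain ⟨s, hs, h⟩ := hp b' hb'
      exact ⟨s, hs, fun _ a ha => h a ha⟩
    · exact ⟨1, by norm_num, fun h => absurd h hb'⟩
  choose s hs hsb using hsig
  have hI : ∀ b' ∈ T, ∀ i ∈ I, N i b = s b' * N i b' := by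
    intro b' hb' i hi
    obtain ⟨v, hv, t, _, ht⟩ := hA i hi
    have h1 := ht b hb
    have h2 := ht b' (hT hb')
    have h3 := hsb b' hb' v hv
    rw [h.sym_apply i b, h.sym_apply i b', h1, h2, h.sym_apply b v, h.sym_apply b' v, h3]
    ring
  have h2 : T.card ≤ ({1, -1} : Finset ℝ).card := by
    apply Finset.card_le_card_of_injOn s
    · intro b' _
      have := sq_one (hs b')
      simpa using this
    · intro c hc c' hc' hcc
      apply h.sep c (hX (hT hc)) c' (hX (hT hc'))
      intro i hi
      have h3 := hI c hc i hi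
      have h4 := hI c' hc' i hi
      rw [h3] at h4
      have h5 : s c * N i c = s c * N i c' := by rw [h4, hcc]
      calc N i c = (s c * s c) * N i c := by rw [hs, one_mul]
        _ = s c * (s c * N i c) := by ring
        _ = s c * (s c * N i c') := by rw [h5]
        _ = (s c * s c) * N i c' := by ring
        _ = N i c' := by rw [hs, one_mul]
  refine h2.trans ?_
  exact (Finset.card_le_two)

theorem Setup.patterns (h : Setup N I C S R e) {X : Finset V} (hX : X ⊆ C) (hXne : X.Nonempty)
    (hEss : Ess (tr N) X (I ∪ C) (1 / (4 * (R : ℝ)))) (he : 128 * (R : ℝ) ^ 4 * e ≤ X.card) :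
    (((I ∪ S).image (fun i => P X (col N i))).card : ℝ) * X.card ≤
      3072 * (R : ℝ) ^ 3 * 2 ^ rk N X (I ∪ C) := by
  classical
  rcases (I ∪ S).eq_empty_or_nonempty with hemp | hne
  · rw [hemp]
    simp only [Finset.image_empty, Finset.card_empty, Nat.cast_zero, zero_mul]
    positivity
  obtain ⟨V', hV', hredV, hrepV⟩ := exists_reps (Par N X) (Par.refl _ _)
    (fun _ _ h => h.symm) (I ∪ S)
  have hV'ne : V'.Nonempty := by
    obtain ⟨b, hb⟩ := hne
    obtain ⟨b', hb', _⟩ := hrepV b hb
    exact ⟨b', hb'⟩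
  have hV'Ω : V' ⊆ I ∪ C := hV'.trans h.SΩ
  have hXΩ : X ⊆ I ∪ C := hX.trans Finset.subset_union_right
  have hrk1 : rk N V' X ≤ rk N X (I ∪ C) := by
    rw [← rk_tr N V' X, h.sym]
    exact rk_mono_right N X hV'Ω
  have hrk2 : rk N X (I ∪ C) ≤ R := (rk_mono_left N _ hXΩ).trans h.rkΩ
  have h1 : ColW (tr N) X V' 1 := by
    intro b hb T hT hp
    rw [h.sym] at hp
    rw [Finset.card_le_one]
    intro c hc c' hc'
    exact hredV c (hT hc) c' (hT hc') ((hp c hc).symm.trans (hp c' hc'))
  have h2 : ColW N V' X 2 := h.two hXΩ fun i hi =>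
    hrepV i (Finset.mem_union_left _ hi)
  have h3 := rkw hV'ne hXne h.one (hrk1.trans hrk2) (e0 := e)
    (fun a ha => h.bad_le hX (hV'Ω ha)) he (hEss.mono_right hV'Ω) h1 h2
  have h4 : ((I ∪ S).image (fun i => P X (col N i))).card ≤ 2 * V'.card := by
    have hsub : (I ∪ S).image (fun i => P X (col N i)) ⊆
        V'.image (fun i => P X (col N i)) ∪ V'.image (fun i => - P X (col N i)) := by
      intro x hx
      obtain ⟨i, hi, rfl⟩ := Finset.mem_image.mp hx
      obtain ⟨v, hv, s, hs2, hp⟩ := hrepV i hi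
      rw [Finset.mem_union]
      rcases sq_one hs2 with rfl | rfl
      · left
        rw [Finset.mem_image]
        refine ⟨v, hv, ?_⟩
        rw [P_eq_iff]
        intro a ha
        rw [col, col, hp a ha, one_mul]
      · right
        rw [Finset.mem_image]
        refine ⟨v, hv, ?_⟩
        rw [← map_neg, P_eq_iff]
        intro a ha
        rw [Pi.neg_apply, col, col, hp a ha]
        ring
    calc _ ≤ _ := Finset.card_le_card hsub
      _ ≤ _ := Finset.card_union_le _ _
      _ ≤ V'.card + V'.card := add_le_add Finset.card_image_le Finset.card_image_le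
      _ = 2 * V'.card := by ring
  have h4R : (((I ∪ S).image (fun i => P X (col N i))).card : ℝ) ≤ 2 * V'.card := by
    exact_mod_cast h4
  calc (((I ∪ S).image (fun i => P X (col N i))).card : ℝ) * X.card ≤
        (2 * V'.card) * X.card := mul_le_mul_of_nonneg_right h4R (Nat.cast_nonneg _)
    _ = 2 * ((V'.card : ℝ) * X.card) := by ring
    _ ≤ 2 * (768 * (R : ℝ) ^ 3 * ((1 : ℕ) * (2 : ℕ) * 2 ^ rk N V' X)) := by linarith
    _ = 3072 * (R : ℝ) ^ 3 * 2 ^ rk N V' X := by push_cast; ring
    _ ≤ _ := by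
        apply mul_le_mul_of_nonneg_left _ (by positivity)
        exact pow_le_pow_right₀ (by norm_num) hrk1

theorem Setup.colour (h : Setup N I C S R e) {A B : Finset V} (hA : A ⊆ C) (hB : B ⊆ C)
    (hAne : A.Nonempty) (hBne : B.Nonempty)
    (hEssA : Ess (tr N) A (I ∪ C) (1 / (4 * (R : ℝ)))) (heA : 128 * (R : ℝ) ^ 4 * e ≤ A.card)
    (hEssB : Ess (tr N) B (I ∪ C) (1 / (4 * (R : ℝ)))) (heB : 128 * (R : ℝ) ^ 4 * e ≤ B.card)
    (hAB : rk N A B ≤ 1) :
    ∃ c : V → ((V → ℝ) × (V → ℝ)) × (V → ℝ), (∀ i ∈ S, ∀ j ∈ S, c i = c j → N i j = 1) ∧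
      ((S.image c).card : ℝ) * (A.card * B.card) ≤ 2 ^ 27 * (R : ℝ) ^ 6 * 2 ^ R := by
  classical
  have hsym : ∀ X Y : Finset V, rk N X Y = rk N Y X := by
    intro X Y
    rw [← rk_tr N X Y, h.sym]
  set Ω := I ∪ C with hΩ
  set eA := rk N A Ω with heAdef
  set eB := rk N B Ω with heBdef
  set R' := rk N Ω Ω with hR'
  have hR'R : R' ≤ R := h.rkΩ
  have hAΩ : A ⊆ Ω := hA.trans Finset.subset_union_right
  have hBΩ : B ⊆ Ω := hB.trans Finset.subset_union_right
  have hSΩ : S ⊆ Ω := h.SC.trans Finset.subset_union_right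
  let fA : V → (V → ℝ) := fun i => P A (col N i)
  let fB : V → (V → ℝ) := fun i => P B (col N i)
  let T : V → Finset V := fun j => S.filter (fun i => fA i = fA j ∧ fB i = fB j)
  let c : V → ((V → ℝ) × (V → ℝ)) × (V → ℝ) := fun j => ((fA j, fB j), P (T j) (col N j))
  have hTS : ∀ j, T j ⊆ S := fun j => Finset.filter_subset _ _
  -- the rank of principal submatrices
  have hrkS : ∀ j, rk N (T j) (T j) + eA + eB ≤ R' + 3 := by
    intro j
    have h1 : rk N A (T j) ≤ 1 := rk_const (x := fA j) (by
      intro b hb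
      exact (Finset.mem_filter.mp hb).2.1)
    have h2 : rk N (T j) B ≤ 1 := by
      rw [hsym]
      exact rk_const (x := fB j) (by
        intro b hb
        exact (Finset.mem_filter.mp hb).2.2)
    have h3 := frobenius N (Finset.union_subset ((hTS j).trans hSΩ) hAΩ) hBΩ
    have h4 := frobenius N (Finset.subset_union_right (s₁ := T j) (s₂ := A))
      ((hTS j).trans hSΩ)
    have h5 := rk_union_left N (T j) A B
    have h6 := rk_mono_left N (T j) (Finset.subset_union_left (s₁ := T j) (s₂ := A))
    have h7 : rk N Ω B = eB := hsym _ _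
    omega
  have hle : eA + eB ≤ R' + 1 := by
    have h3 := frobenius N hAΩ hBΩ
    have h7 : rk N Ω B = eB := hsym _ _
    omega
  -- counting the colours
  have hcount : (S.image c).card ≤
      2 ^ (R' + 3 - eA - eB) * ((S.image fA).card * (S.image fB).card) := by
    have h1 : (S.image c).card ≤
        2 ^ (R' + 3 - eA - eB) * ((S.image c).image Prod.fst).card := by
      apply Finset.card_le_mul_card_image
      intro x hx
      obtain ⟨y, hy, rfl⟩ := Finset.mem_image.mp hx
      obtain ⟨j, _, rfl⟩ := Finset.mem_image.mp hy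
      have h2 : ((S.image c).filter (fun z => z.1 = (c j).1)) ⊆
          ((T j).image (fun i => P (T j) (col N i))).image (fun t => ((c j).1, t)) := by
        intro z hz
        rw [Finset.mem_filter] at hz
        obtain ⟨hz1, hz2⟩ := hz
        obtain ⟨i, hi, rfl⟩ := Finset.mem_image.mp hz1
        have h3 : fA i = fA j ∧ fB i = fB j := by
          have := hz2
          simp only [c, Prod.mk.injEq] at this
          exact this
        have h4 : T i = T j := by
          ext k
          simp only [T, Finset.mem_filter]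
          rw [h3.1, h3.2]
        rw [Finset.mem_image]
        refine ⟨P (T j) (col N i), Finset.mem_image.mpr ⟨i, ?_, rfl⟩, ?_⟩
        · simp only [T, Finset.mem_filter]
          exact ⟨hi, h3⟩
        · simp only [c]
          rw [h4, h3.1, h3.2]
      calc ((S.image c).filter (fun z => z.1 = (c j).1)).card ≤ _ := Finset.card_le_card h2
        _ ≤ _ := Finset.card_image_le
        _ ≤ 2 ^ rk N (T j) (T j) := card_patterns' fun a ha b hb =>
            h.Sex a (hTS j ha) b (hTS j hb)
        _ ≤ 2 ^ (R' + 3 - eA - eB) := by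
            apply Nat.pow_le_pow_right (by norm_num)
            have := hrkS j
            omega
    have h2 : ((S.image c).image Prod.fst).card ≤
        (S.image fA).card * (S.image fB).card := by
      rw [← Finset.card_product]
      apply Finset.card_le_card
      intro x hx
      obtain ⟨y, hy, rfl⟩ := Finset.mem_image.mp hx
      obtain ⟨j, hj, rfl⟩ := Finset.mem_image.mp hy
      rw [Finset.mem_product]
      exact ⟨Finset.mem_image_of_mem _ hj, Finset.mem_image_of_mem _ hj⟩
    exact h1.trans (Nat.mul_le_mul_left _ h2)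
  have hsubIS : S ⊆ I ∪ S := Finset.subset_union_right
  have hpA : ((S.image fA).card : ℝ) * A.card ≤ 3072 * (R : ℝ) ^ 3 * 2 ^ eA := by
    refine le_trans ?_ (h.patterns hA hAne hEssA heA)
    apply mul_le_mul_of_nonneg_right _ (Nat.cast_nonneg _)
    exact_mod_cast Finset.card_le_card (Finset.image_subset_image hsubIS)
  have hpB : ((S.image fB).card : ℝ) * B.card ≤ 3072 * (R : ℝ) ^ 3 * 2 ^ eB := by
    refine le_trans ?_ (h.patterns hB hBne hEssB heB)
    apply mul_le_mul_of_nonneg_right _ (Nat.cast_nonneg _)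
    exact_mod_cast Finset.card_le_card (Finset.image_subset_image hsubIS)
  refine ⟨c, ?_, ?_⟩
  · intro i hi j _ hij
    have h2 : fA i = fA j ∧ fB i = fB j := by
      have := congrArg Prod.fst hij
      simp only [c, Prod.mk.injEq] at this
      exact this
    have h3 : P (T i) (col N i) = P (T j) (col N j) := congrArg Prod.snd hij
    have h4 : T i = T j := by
      ext k
      simp only [T, Finset.mem_filter]
      rw [h2.1, h2.2]
    rw [h4] at h3
    have h5 : i ∈ T j := by
      simp only [T, Finset.mem_filter]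
      exact ⟨hi, h2⟩
    have h6 := P_eq_iff.mp h3 i h5
    simp only [col] at h6
    rw [← h6]
    exact h.diag i hi
  · have hcountR : ((S.image c).card : ℝ) ≤
        2 ^ (R' + 3 - eA - eB) * (((S.image fA).card : ℝ) * (S.image fB).card) := by
      exact_mod_cast hcount
    calc ((S.image c).card : ℝ) * (A.card * B.card) ≤
          (2 ^ (R' + 3 - eA - eB) * (((S.image fA).card : ℝ) * (S.image fB).card)) *
            (A.card * B.card) := by
            apply mul_le_mul_of_nonneg_right hcountR
            positivity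
      _ = 2 ^ (R' + 3 - eA - eB) * ((((S.image fA).card : ℝ) * A.card) *
            (((S.image fB).card : ℝ) * B.card)) := by ring
      _ ≤ 2 ^ (R' + 3 - eA - eB) * ((3072 * (R : ℝ) ^ 3 * 2 ^ eA) *
            (3072 * (R : ℝ) ^ 3 * 2 ^ eB)) := by
          apply mul_le_mul_of_nonneg_left _ (by positivity)
          exact mul_le_mul hpA hpB (by positivity) (by positivity)
      _ = 3072 ^ 2 * (R : ℝ) ^ 6 * (2 ^ (R' + 3 - eA - eB) * 2 ^ eA * 2 ^ eB) := by ring
      _ = 3072 ^ 2 * (R : ℝ) ^ 6 * 2 ^ (R' + 3) := by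
          rw [← pow_add, ← pow_add]
          congr 2
          omega
      _ ≤ 3072 ^ 2 * (R : ℝ) ^ 6 * 2 ^ (R + 3) := by
          apply mul_le_mul_of_nonneg_left _ (by positivity)
          exact pow_le_pow_right₀ (by norm_num) (by omega)
      _ = (3072 ^ 2 * 8) * ((R : ℝ) ^ 6 * 2 ^ R) := by ring
      _ ≤ 2 ^ 27 * ((R : ℝ) ^ 6 * 2 ^ R) := by
          apply mul_le_mul_of_nonneg_right _ (by positivity)
          norm_num
      _ = _ := by ring

end

end Pool.Agent.Helper6.LR
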