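import Pool.Agent.Helper6.LR2.RColour

set_option linter.unusedSectionVars false

/-!
# Few colours for the part of a clique inside a large nearly exact set
-/

namespace Pool.Agent.Helper6.LR

open Finset Module

variable {V : Type*} [Fintype V] [DecidableEq V]

theorem exists_RC {R : ℕ} (hR : 1 ≤ R) :
    RC R (1 - 1 / (2 * (R : ℝ))) (1 / (2 ^ 22 * (R : ℝ) ^ 4 * (1536 * (R : ℝ) ^ 3) ^ 140))
      (1 / (2 ^ 36 * (R : ℝ) * (1536 * (R : ℝ) ^ 3) ^ 140)) (1536 * (R : ℝ) ^ 3) := by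
  have hRR : (0 : ℝ) < R := by exact_mod_cast hR
  have hpos : (0 : ℝ) < (1536 * (R : ℝ) ^ 3) ^ 140 := by positivity
  refine ⟨hR, rfl, rfl, by positivity, ?_, by positivity, ?_⟩
  · apply le_of_eq
    generalize (1536 * (R : ℝ) ^ 3) ^ 140 = W at hpos ⊢
    field_simp
  · apply le_of_eq
    generalize (1536 * (R : ℝ) ^ 3) ^ 140 = W at hpos ⊢
    field_simp

theorem half_pow {R R2 : ℕ} (hR : 1 ≤ R) (hR2 : R2 ≤ R) (k : ℕ) :
    (1 / 2 : ℝ) ^ k ≤ (1 - 1 / (2 * (R : ℝ))) ^ (k * R2) := by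
  have hRR : (1 : ℝ) ≤ R := by exact_mod_cast hR
  have h0 : (0 : ℝ) ≤ 1 - 1 / (2 * (R : ℝ)) := by
    have : (1 : ℝ) / (2 * R) ≤ 1 := by
      rw [div_le_one (by positivity)]
      linarith
    linarith
  have h1 : 1 - 1 / (2 * (R : ℝ)) ≤ 1 := by
    have : (0 : ℝ) ≤ 1 / (2 * R) := by positivity
    linarith
  calc (1 / 2 : ℝ) ^ k ≤ ((1 - 1 / (2 * (R : ℝ))) ^ R) ^ k :=
        pow_le_pow_left₀ (by norm_num) (bern hR) k
    _ = (1 - 1 / (2 * (R : ℝ))) ^ (k * R) := by rw [← pow_mul, mul_comm R k]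
    _ ≤ _ := pow_le_pow_of_le_one h0 h1 (Nat.mul_le_mul_left k hR2)

theorem Setup.final {N : V → V → ℝ} {I C S : Finset V} {R e : ℕ} (h : Setup N I C S R e)
    (hC : C.Nonempty) {Q Z : ℝ} (hQ : 1 ≤ Q)
    (hZ : Z = (16 * Q) ^ 140 * (1536 * (R : ℝ) ^ 3) ^ 140)
    (hsize : (2 : ℝ) ^ R ≤ Q * (C.card : ℝ) ^ 2)
    (he : 2 ^ 187 * (R : ℝ) ^ 5 * Z * e ≤ C.card) :
    ∃ c : V → ((V → ℝ) × (V → ℝ)) × (V → ℝ), (∀ i ∈ S, ∀ j ∈ S, c i = c j → N i j = 1) ∧
      ((S.image c).card : ℝ) ≤ 2 ^ 208 * (R : ℝ) ^ 7 * Q * Z := by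
  classical
  have hR := h.one
  have hRR : (1 : ℝ) ≤ R := by exact_mod_cast hR
  have hRpos : (0 : ℝ) < R := by linarith
  have hrc := exists_RC hR
  obtain ⟨t, ht⟩ : ∃ t : ℕ, t = 140 := ⟨_, rfl⟩
  obtain ⟨u, hu⟩ : ∃ u : ℕ, u = 141 := ⟨_, rfl⟩
  obtain ⟨v, hv⟩ : ∃ v : ℕ, v = 142 := ⟨_, rfl⟩
  have hL1536 : (1 : ℝ) ≤ 1536 * (R : ℝ) ^ 3 := by
    have : (1 : ℝ) ≤ (R : ℝ) ^ 3 := one_le_pow₀ hRR
    linarith
  rw [← ht] at hrc hZ
  obtain ⟨W, hW⟩ : ∃ W : ℝ, W = (1536 * (R : ℝ) ^ 3) ^ t := ⟨_, rfl⟩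
  obtain ⟨P', hP'⟩ : ∃ P' : ℝ, P' = (16 * Q) ^ t := ⟨_, rfl⟩
  have hW1 : 1 ≤ W := by rw [hW]; exact one_le_pow₀ hL1536
  have hP1 : 1 ≤ P' := by
    rw [hP']
    apply one_le_pow₀
    linarith
  rw [← hW] at hrc hZ
  rw [← hP'] at hZ
  have hWpos : 0 < W := by linarith
  have hPpos : 0 < P' := by linarith
  have hZpos : 0 < Z := by rw [hZ]; positivity
  have hZ1 : 1 ≤ Z := by
    rw [hZ]
    nlinarith
  set x : ℝ := (C.card : ℝ) with hx
  have hxpos : 0 < x := by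
    rw [hx]
    exact_mod_cast hC.card_pos
  set Ω := I ∪ C with hΩ
  have hCΩ : C ⊆ Ω := Finset.subset_union_right
  -- restriction to `C × C`
  have hcw : ColW N Ω C 2 := h.two hCΩ fun i hi =>
    ⟨i, Finset.mem_union_left _ hi, Par.refl _ _ _⟩
  obtain ⟨A2, hA2, B2, hB2, w1, w2, ha, hb, hcw1, hcw2, hw⟩ := restrict (rk N Ω Ω) N Ω Ω C C 2 2 e
    le_rfl hCΩ hCΩ (fun a ha => h.bad_le (Finset.Subset.refl _) ha)
    (fun b hb => by
      rw [h.sym]
      exact h.bad_le (Finset.Subset.refl _) hb) hcw (by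
      rw [h.sym]
      exact hcw)
  have hRe : (rk N Ω Ω : ℝ) * e ≤ x / 2 := by
    have h1 : (rk N Ω Ω : ℝ) ≤ R := by exact_mod_cast h.rkΩ
    have h2 : (R : ℝ) * (2 * e) ≤ 2 ^ 187 * (R : ℝ) ^ 5 * Z * e := by
      have h3 : (R : ℝ) ≤ (R : ℝ) ^ 5 := by
        calc (R : ℝ) = (R : ℝ) ^ 1 := (pow_one _).symm
          _ ≤ (R : ℝ) ^ 5 := pow_le_pow_right₀ hRR (by norm_num)
      calc (R : ℝ) * (2 * e) = 2 * R * 1 * e := by ring
        _ ≤ 2 ^ 187 * (R : ℝ) ^ 5 * Z * e := by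
            apply mul_le_mul_of_nonneg_right _ (Nat.cast_nonneg _)
            apply mul_le_mul _ hZ1 (by norm_num) (by positivity)
            apply mul_le_mul _ h3 (by positivity) (by positivity)
            norm_num
    have h3 : (rk N Ω Ω : ℝ) * e ≤ R * e := mul_le_mul_of_nonneg_right h1 (Nat.cast_nonneg _)
    linarith
  have haR : x ≤ A2.card + rk N Ω Ω * e := by rw [hx]; exact_mod_cast ha
  have hbR : x ≤ B2.card + rk N Ω Ω * e := by rw [hx]; exact_mod_cast hb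
  have hA2c : x / 2 ≤ A2.card := by linarith
  have hB2c : x / 2 ≤ B2.card := by linarith
  have hA2ne : A2.Nonempty := by
    rw [← Finset.card_pos]
    have : (0 : ℝ) < A2.card := by linarith
    exact_mod_cast this
  have hB2ne : B2.Nonempty := by
    rw [← Finset.card_pos]
    have : (0 : ℝ) < B2.card := by linarith
    exact_mod_cast this
  have hA2Ω : A2 ⊆ Ω := hA2.trans hCΩ
  have hB2Ω : B2 ⊆ Ω := hB2.trans hCΩ
  set R2 := rk N A2 B2 with hR2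
  have hR2R : R2 ≤ R := ((rk_mono_left N B2 hA2Ω).trans (rk_mono_right N Ω hB2Ω)).trans h.rkΩ
  set L : ℝ := 1 / (16 * Q) with hL
  have hLpos : 0 < L := by positivity
  have hL1 : L ≤ 1 := by
    rw [hL, div_le_one (by positivity)]
    linarith
  have hLt : L ^ t = 1 / P' := by
    rw [hL, one_div, inv_pow, hP', one_div]
  have hwR : (w1 * w2 * 2 ^ R2 : ℝ) ≤ 4 * 2 ^ R := by
    have h1 : (w1 * w2 * 2 ^ R2 : ℝ) ≤ 2 * 2 * 2 ^ rk N Ω Ω := by exact_mod_cast hw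
    have h2 : (2 : ℝ) ^ rk N Ω Ω ≤ 2 ^ R := pow_le_pow_right₀ (by norm_num) h.rkΩ
    linarith
  have hLW : L * (w1 * w2 * 2 ^ R2) ≤ (A2.card : ℝ) * B2.card := by
    calc L * (w1 * w2 * 2 ^ R2) ≤ L * (4 * 2 ^ R) := mul_le_mul_of_nonneg_left hwR hLpos.le
      _ ≤ L * (4 * (Q * x ^ 2)) := by
          apply mul_le_mul_of_nonneg_left _ hLpos.le
          linarith
      _ = (x / 2) * (x / 2) := by
          rw [hL]
          field_simp
          norm_num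
      _ ≤ _ := mul_le_mul hA2c hB2c (by positivity) (Nat.cast_nonneg _)
  have hεA : ∀ y : ℝ, x / 2 ≤ y → (e : ℝ) ≤ 1 / (2 ^ 22 * (R : ℝ) ^ 4 * W) * L ^ t *
      (1 - 1 / (2 * (R : ℝ))) ^ (v * R2) * y := by
    intro y hy
    have h1 := half_pow hR hR2R v
    have h2 : (e : ℝ) ≤ x / (2 ^ 187 * (R : ℝ) ^ 5 * Z) := by
      rw [le_div_iff₀ (by positivity)]
      linarith
    have h3 : x / (2 ^ 187 * (R : ℝ) ^ 5 * Z) ≤ 1 / (2 ^ 22 * (R : ℝ) ^ 4 * W) * (1 / P') *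
        (1 / 2) ^ v * (x / 2) := by
      have h4 : 1 / (2 ^ 22 * (R : ℝ) ^ 4 * W) * (1 / P') * (1 / 2) ^ v * (x / 2) =
          x / (2 ^ 165 * (R : ℝ) ^ 4 * Z) := by
        rw [hv, hZ]
        field_simp
      rw [h4]
      apply div_le_div_of_nonneg_left hxpos.le (by positivity)
      apply mul_le_mul_of_nonneg_right _ hZpos.le
      apply mul_le_mul (by norm_num) _ (by positivity) (by positivity)
      exact pow_le_pow_right₀ hRR (by norm_num)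
    calc (e : ℝ) ≤ _ := h2
      _ ≤ _ := h3
      _ ≤ 1 / (2 ^ 22 * (R : ℝ) ^ 4 * W) * (1 / P') * (1 - 1 / (2 * (R : ℝ))) ^ (v * R2) * y := by
          apply mul_le_mul _ hy (by positivity) _
          · exact mul_le_mul_of_nonneg_left h1 (by positivity)
          · apply mul_nonneg (by positivity)
            exact le_trans (by positivity) h1
      _ = _ := by rw [hLt]
  have hgood := rclaim_all hrc ht hu hv R2 hR2R N A2 B2 w1 w2 e L hA2ne hB2ne rfl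
    (fun a ha => h.bad_le hB2 (hA2Ω ha)) (fun b hb => by
      rw [h.sym]
      exact h.bad_le hA2 (hB2Ω hb)) hcw1 hcw2 hLpos (hL1.trans hL1536) hLW
    (hεA _ hA2c) (hεA _ hB2c)
  obtain ⟨A, hA, B, hB, hrk1, hABsize⟩ := hgood
  have hAC : A ⊆ C := hA.trans hA2
  have hBC : B ⊆ C := hB.trans hB2
  have hAx : (A.card : ℝ) ≤ x := by rw [hx]; exact_mod_cast Finset.card_le_card hAC
  have hBx : (B.card : ℝ) ≤ x := by rw [hx]; exact_mod_cast Finset.card_le_card hBC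
  have hAB : x ^ 2 / (2 ^ 179 * (R : ℝ) * Z) ≤ (A.card : ℝ) * B.card := by
    refine le_trans ?_ hABsize
    have h1 := half_pow hR hR2R u
    calc x ^ 2 / (2 ^ 179 * (R : ℝ) * Z) = 1 / (2 ^ 36 * (R : ℝ) * W) * (1 / P') * (1 / 2) ^ u *
          ((x / 2) * (x / 2)) := by
          rw [hu, hZ]
          field_simp
      _ ≤ 1 / (2 ^ 36 * (R : ℝ) * W) * (1 / P') * (1 - 1 / (2 * (R : ℝ))) ^ (u * R2) *
          ((A2.card : ℝ) * B2.card) := by
          apply mul_le_mul _ _ (by positivity) _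
          · exact mul_le_mul_of_nonneg_left h1 (by positivity)
          · exact mul_le_mul hA2c hB2c (by positivity) (Nat.cast_nonneg _)
          · apply mul_nonneg (by positivity)
            exact le_trans (by positivity) h1
      _ = _ := by rw [hLt]
  have hAc : x / (2 ^ 179 * (R : ℝ) * Z) ≤ A.card := by
    have h1 : x ^ 2 / (2 ^ 179 * (R : ℝ) * Z) ≤ A.card * x :=
      hAB.trans (mul_le_mul_of_nonneg_left hBx (Nat.cast_nonneg _))
    have h2 : x ^ 2 / (2 ^ 179 * (R : ℝ) * Z) = x / (2 ^ 179 * (R : ℝ) * Z) * x := by ring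
    rw [h2] at h1
    exact le_of_mul_le_mul_right h1 hxpos
  have hBc : x / (2 ^ 179 * (R : ℝ) * Z) ≤ B.card := by
    have h1 : x ^ 2 / (2 ^ 179 * (R : ℝ) * Z) ≤ x * B.card :=
      hAB.trans (mul_le_mul_of_nonneg_right hAx (Nat.cast_nonneg _))
    have h2 : x ^ 2 / (2 ^ 179 * (R : ℝ) * Z) = x * (x / (2 ^ 179 * (R : ℝ) * Z)) := by ring
    rw [h2] at h1
    exact le_of_mul_le_mul_left h1 hxpos
  have hcpos : 0 < x / (2 ^ 179 * (R : ℝ) * Z) := by positivity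
  have hAne : A.Nonempty := by
    rw [← Finset.card_pos]
    have : (0 : ℝ) < A.card := by linarith
    exact_mod_cast this
  have hBne : B.Nonempty := by
    rw [← Finset.card_pos]
    have : (0 : ℝ) < B.card := by linarith
    exact_mod_cast this
  -- essential cores
  have hcore : ∀ X : Finset V, X ⊆ C → X.Nonempty → x / (2 ^ 179 * (R : ℝ) * Z) ≤ X.card →
      ∃ X' ⊆ X, X'.Nonempty ∧ (X.card : ℝ) / 2 ≤ X'.card ∧
        Ess (tr N) X' Ω (1 / (4 * (R : ℝ))) ∧ 128 * (R : ℝ) ^ 4 * e ≤ X'.card := by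
    intro X hX hXne hXc
    have hhalf : (1 : ℝ) / (2 * R) ≤ 1 / 2 := by
      apply one_div_le_one_div_of_le (by norm_num)
      linarith
    obtain ⟨X', hX', hne', hc', hess'⟩ := exists_core (δ := 1 / (2 * (R : ℝ))) (by positivity)
      (by linarith) (tr N) Ω R X (by
        rw [h.sym]
        exact (rk_mono_left N Ω (hX.trans hCΩ)).trans h.rkΩ) hXne
    have hc2 : (X.card : ℝ) / 2 ≤ X'.card := by
      refine le_trans ?_ hc'
      have := mul_le_mul_of_nonneg_right (bern hR) (Nat.cast_nonneg (α := ℝ) X.card)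
      linarith
    refine ⟨X', hX', hne', hc2, hess'.mono_delta ?_, ?_⟩
    · apply one_div_le_one_div_of_le (by positivity)
      linarith
    · refine le_trans ?_ hc2
      have h1 : 128 * (R : ℝ) ^ 4 * e ≤ x / (2 ^ 179 * (R : ℝ) * Z) / 2 := by
        rw [div_div, le_div_iff₀ (by positivity)]
        calc 128 * (R : ℝ) ^ 4 * e * (2 ^ 179 * (R : ℝ) * Z * 2) =
              2 ^ 187 * (R : ℝ) ^ 5 * Z * e := by ring
          _ ≤ x := he
      linarith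
  obtain ⟨A', hA', hA'ne, hA'c, hA'ess, hA'e⟩ := hcore A hAC hAne hAc
  obtain ⟨B', hB', hB'ne, hB'c, hB'ess, hB'e⟩ := hcore B hBC hBne hBc
  obtain ⟨c, hc, hm⟩ := h.colour (hA'.trans hAC) (hB'.trans hBC) hA'ne hB'ne hA'ess hA'e hB'ess
    hB'e ((rk_mono_left N B' hA').trans ((rk_mono_right N A hB').trans hrk1))
  refine ⟨c, hc, ?_⟩
  have hA'B' : x ^ 2 / (2 ^ 181 * (R : ℝ) * Z) ≤ (A'.card : ℝ) * B'.card := by
    calc x ^ 2 / (2 ^ 181 * (R : ℝ) * Z) = x ^ 2 / (2 ^ 179 * (R : ℝ) * Z) / 4 := by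
          field_simp
          norm_num
      _ ≤ (A.card : ℝ) * B.card / 4 := by linarith
      _ = (A.card / 2) * (B.card / 2) := by ring
      _ ≤ _ := mul_le_mul hA'c hB'c (by positivity) (Nat.cast_nonneg _)
  have h5 : ((S.image c).card : ℝ) * (x ^ 2 / (2 ^ 181 * (R : ℝ) * Z)) ≤
      2 ^ 27 * (R : ℝ) ^ 6 * (Q * x ^ 2) := by
    calc ((S.image c).card : ℝ) * (x ^ 2 / (2 ^ 181 * (R : ℝ) * Z)) ≤
          ((S.image c).card : ℝ) * ((A'.card : ℝ) * B'.card) :=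
          mul_le_mul_of_nonneg_left hA'B' (Nat.cast_nonneg _)
      _ ≤ 2 ^ 27 * (R : ℝ) ^ 6 * 2 ^ R := hm
      _ ≤ _ := mul_le_mul_of_nonneg_left hsize (by positivity)
  have h6 : 2 ^ 27 * (R : ℝ) ^ 6 * (Q * x ^ 2) =
      (2 ^ 208 * (R : ℝ) ^ 7 * Q * Z) * (x ^ 2 / (2 ^ 181 * (R : ℝ) * Z)) := by
    field_simp
  rw [h6] at h5
  exact le_of_mul_le_mul_right h5 (by positivity)

end Pool.Agent.Helper6.LR
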