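import Pool.Agent.Helper6.LR2.Restrict

set_option linter.unusedSectionVars false

/-!
# A Kupavskii–Weltge type inequality for nearly exact matrices
-/

namespace Pool.Agent.Helper6.LR

open Finset Module

variable {V : Type*} [Fintype V] [DecidableEq V]

theorem sum_bad (N : V → V → ℝ) (A B : Finset V) :
    ∑ b ∈ B, bad (tr N) b A = ∑ a ∈ A, bad N a B := by
  classical
  simp only [bad, Finset.card_filter]
  rw [Finset.sum_comm]
  rfl

/-- In a nearly exact matrix one of the two agreement sets has nearly half of the rows. -/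
theorem exists_half_near {N : V → V → ℝ} {A : Finset V} {b1 b2 : V} {e : ℕ}
    (h1 : bad (tr N) b1 A ≤ e) (h2 : bad (tr N) b2 A ≤ e) :
    ∃ s : ℝ, s * s = 1 ∧ A.card ≤ 2 * (A.filter (fun a => N a b1 = s * N a b2)).card + 2 * e := by
  classical
  have hsub : A ⊆ ((A.filter (fun a => N a b1 = 1 * N a b2)) ∪
      (A.filter (fun a => N a b1 = (-1) * N a b2))) ∪
      ((A.filter (fun a => ¬ Ex (tr N) b1 a)) ∪ (A.filter (fun a => ¬ Ex (tr N) b2 a))) := by
    intro a ha
    simp only [Finset.mem_union, Finset.mem_filter]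
    by_cases e1 : Ex (tr N) b1 a
    · by_cases e2 : Ex (tr N) b2 a
      · left
        by_cases h : N a b1 = 1 * N a b2
        · exact Or.inl ⟨ha, h⟩
        · exact Or.inr ⟨ha, pm_ne (by norm_num) e1 e2 h⟩
      · exact Or.inr (Or.inr ⟨ha, e2⟩)
    · exact Or.inr (Or.inl ⟨ha, e1⟩)
  have h3 := Finset.card_le_card hsub
  have h4 := Finset.card_union_le ((A.filter (fun a => N a b1 = 1 * N a b2)) ∪
      (A.filter (fun a => N a b1 = (-1) * N a b2)))
      ((A.filter (fun a => ¬ Ex (tr N) b1 a)) ∪ (A.filter (fun a => ¬ Ex (tr N) b2 a)))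
  have h5 := Finset.card_union_le (A.filter (fun a => N a b1 = 1 * N a b2))
      (A.filter (fun a => N a b1 = (-1) * N a b2))
  have h6 := Finset.card_union_le (A.filter (fun a => ¬ Ex (tr N) b1 a))
      (A.filter (fun a => ¬ Ex (tr N) b2 a))
  have h1' : (A.filter (fun a => ¬ Ex (tr N) b1 a)).card ≤ e := h1
  have h2' : (A.filter (fun a => ¬ Ex (tr N) b2 a)).card ≤ e := h2
  by_cases hc : A.card ≤ 2 * (A.filter (fun a => N a b1 = 1 * N a b2)).card + 2 * e
  · exact ⟨1, by norm_num, hc⟩
  · exact ⟨-1, by norm_num, by omega⟩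

/-- Removing the columns of `F` which merge. -/
theorem ColW.sdiff_merge {N : V → V → ℝ} {A A0 B : Finset V} {w : ℕ} (h : ColW N A B w)
    {F : Finset V} (hF : ∀ b ∈ B, (∃ b' ∈ B, Par N A0 b b' ∧ ¬ Par N A b b') → b ∈ F) :
    ColW N A0 (B \ F) w := by
  intro b hb S hS hp
  rw [Finset.mem_sdiff] at hb
  apply h b hb.1 S (hS.trans Finset.sdiff_subset)
  intro x hx
  by_contra hnp'
  exact hb.2 (hF b hb.1 ⟨x, Finset.sdiff_subset (hS hx), hp x hx, hnp'⟩)

theorem bern {R : ℕ} (hR : 1 ≤ R) : (1 : ℝ) / 2 ≤ (1 - 1 / (2 * (R : ℝ))) ^ R := by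
  have hRR : (1 : ℝ) ≤ R := by exact_mod_cast hR
  have h3 := one_add_mul_le_pow (a := -(1 / (2 * (R : ℝ)))) (by
    have : (1 : ℝ) / (2 * R) ≤ 1 := by
      rw [div_le_one (by positivity)]
      linarith
    linarith) R
  rw [← sub_eq_add_neg] at h3
  refine le_trans ?_ h3
  have h4 : (R : ℝ) * (1 / (2 * (R : ℝ))) = 1 / 2 := by
    field_simp
  linarith

theorem rkw_aux {N : V → V → ℝ} {A B : Finset V} (hB : B.Nonempty) {R : ℕ} (hR : 1 ≤ R)
    (hrk : rk N A B ≤ R) {e0 : ℕ} (hrow : ∀ a ∈ A, bad N a B ≤ e0)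
    (he0 : 128 * (R : ℝ) ^ 4 * e0 ≤ B.card) (hEss : Ess (tr N) B A (1 / (4 * (R : ℝ))))
    {w1 : ℕ} (h1 : ColW (tr N) B A w1) : ∀ (ρ : ℕ) (At : Finset V), At ⊆ A → At.Nonempty →
    ∀ Bt ⊆ B, ∀ w : ℕ, rk N At B = ρ →
      (B.card : ℝ) - Bt.card ≤ ((R : ℝ) - ρ) / (4 * (R : ℝ) ^ 2) * B.card → ColW N At Bt w →
      (At.card : ℝ) * B.card ≤ 256 * (R : ℝ) ^ 3 * (1 + 1 / (R : ℝ)) ^ ρ * (w1 * w * 2 ^ ρ) := by
  classical
  have hRR : (1 : ℝ) ≤ R := by exact_mod_cast hR
  have hBpos : (0 : ℝ) < B.card := by exact_mod_cast hB.card_pos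
  have hR2 : (1 : ℝ) ≤ (R : ℝ) ^ 2 := one_le_pow₀ hRR
  set μ : ℝ := 1 + 1 / (R : ℝ) with hμ
  have hμ1 : 1 ≤ μ := by
    rw [hμ]
    have : (0 : ℝ) ≤ 1 / (R : ℝ) := by positivity
    linarith
  -- ranks are not changed by restricting to nearly all columns
  have hbig : ∀ B' ⊆ B, (1 - 1 / (4 * (R : ℝ))) * (B.card : ℝ) ≤ B'.card →
      rk (tr N) B' A = rk (tr N) B A := fun B' hB' hc => hEss B' hB' hc
  have hbig' : ∀ B' ⊆ B, (1 - 1 / (4 * (R : ℝ))) * (B.card : ℝ) ≤ B'.card → ∀ A' ⊆ A,
      rk N A' B' = rk N A' B := by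
    intro B' hB' hc A' hA'
    rw [← rk_tr N A' B', ← rk_tr N A' B]
    exact rk_eq_mono hB' hA' (hbig B' hB' hc)
  intro ρ
  induction ρ using Nat.strong_induction_on with
  | _ ρ ih =>
  intro At hAt hAtne Bt hBt w hρ hloss hw
  have hρR : ρ ≤ R := by
    rw [← hρ]
    exact (rk_mono_left N B hAt).trans hrk
  have hρRR : (ρ : ℝ) ≤ R := by exact_mod_cast hρR
  have hAtpos : (0 : ℝ) < At.card := by exact_mod_cast hAtne.card_pos
  by_cases hess : Ess N At B (1 / (2 * (R : ℝ)))
  swap
  · -- case (i)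
    rw [Ess] at hess
    push Not at hess
    obtain ⟨A', hA', hc, hrk'⟩ := hess
    have hmono := rk_mono_left N B hA'
    have hlt : rk N A' B < ρ := by omega
    set ρ' := rk N A' B with hρ'
    have hhalf : (1 : ℝ) / 2 ≤ 1 - 1 / (2 * (R : ℝ)) := by
      have : (1 : ℝ) / (2 * R) ≤ 1 / 2 := by
        apply one_div_le_one_div_of_le (by norm_num)
        linarith
      linarith
    have hA'pos : (0 : ℝ) < A'.card := by
      have : 0 < (1 - 1 / (2 * (R : ℝ))) * (At.card : ℝ) := mul_pos (by linarith) hAtpos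
      linarith
    have hA'ne : A'.Nonempty := by
      rw [← Finset.card_pos]
      exact_mod_cast hA'pos
    obtain ⟨D, hDA, hDc, hDz⟩ := exists_completion N B hA'
    obtain ⟨B', hB', hex, hcard⟩ := card_exact N D Bt (e := e0) fun a ha =>
      (bad_mono N a hBt).trans (hrow a (hAt (hDA ha)))
    have hcw := hw.merge_exact hA' hBt hDA hDz hB' hex
    have hDc' : D.card ≤ ρ - ρ' := by rw [← hρ]; exact hDc
    have hcw' : ColW N A' B' (w * 2 ^ (ρ - ρ')) :=
      hcw.mono_w (Nat.mul_le_mul_left _ (Nat.pow_le_pow_right (by norm_num) hDc'))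
    have hρ'R : (ρ : ℝ) - ρ' = ((ρ - ρ' : ℕ) : ℝ) := by
      rw [Nat.cast_sub hlt.le]
    have hih := ih ρ' hlt A' (hA'.trans hAt) hA'ne B' (hB'.trans hBt) (w * 2 ^ (ρ - ρ')) rfl (by
      have hc1 : (Bt.card : ℝ) ≤ B'.card + (ρ - ρ' : ℕ) * e0 := by
        have : Bt.card ≤ B'.card + (ρ - ρ') * e0 :=
          hcard.trans (Nat.add_le_add_left (Nat.mul_le_mul_right _ hDc') _)
        exact_mod_cast this
      have hc2 : (e0 : ℝ) ≤ 1 / (4 * (R : ℝ) ^ 2) * B.card := by
        rw [div_mul_eq_mul_div, one_mul, le_div_iff₀ (by positivity)]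
        have h4 : (R : ℝ) ^ 2 ≤ (R : ℝ) ^ 4 := pow_le_pow_right₀ hRR (by norm_num)
        have h5 : (0 : ℝ) ≤ e0 := Nat.cast_nonneg _
        nlinarith
      have hc3 : ((ρ - ρ' : ℕ) : ℝ) * e0 ≤ ((ρ : ℝ) - ρ') * (1 / (4 * (R : ℝ) ^ 2) * B.card) := by
        rw [← hρ'R]
        apply mul_le_mul_of_nonneg_left hc2
        rw [hρ'R]
        positivity
      calc (B.card : ℝ) - B'.card ≤ ((B.card : ℝ) - Bt.card) + (ρ - ρ' : ℕ) * e0 := by linarith
        _ ≤ ((R : ℝ) - ρ) / (4 * (R : ℝ) ^ 2) * B.card +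
            ((ρ : ℝ) - ρ') * (1 / (4 * (R : ℝ) ^ 2) * B.card) := by linarith
        _ = ((R : ℝ) - ρ') / (4 * (R : ℝ) ^ 2) * B.card := by ring) hcw'
    have hX : (w1 : ℝ) * ((w * 2 ^ (ρ - ρ') : ℕ) : ℝ) * 2 ^ ρ' = w1 * w * 2 ^ ρ := by
      push_cast
      have : (2 : ℝ) ^ ρ = 2 ^ (ρ - ρ') * 2 ^ ρ' := by
        rw [← pow_add]
        congr 1
        omega
      rw [this]
      ring
    rw [hX] at hih
    have hμ2 : 1 ≤ μ * (1 - 1 / (2 * (R : ℝ))) := by
      rw [hμ]
      have h4 : (1 + 1 / (R : ℝ)) * (1 - 1 / (2 * (R : ℝ))) =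
          1 + (1 / (2 * R)) * (1 - 1 / R) := by
        field_simp
        ring
      rw [h4]
      have h5 : (1 : ℝ) / R ≤ 1 := by
        rw [div_le_one (by positivity)]
        exact hRR
      have h6 : (0 : ℝ) ≤ 1 / (2 * R) * (1 - 1 / R) := mul_nonneg (by positivity) (by linarith)
      linarith
    have hXnn : (0 : ℝ) ≤ w1 * w * 2 ^ ρ := by positivity
    calc (At.card : ℝ) * B.card = 1 * ((At.card : ℝ) * B.card) := (one_mul _).symm
      _ ≤ (μ * (1 - 1 / (2 * (R : ℝ)))) * ((At.card : ℝ) * B.card) :=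
          mul_le_mul_of_nonneg_right hμ2 (by positivity)
      _ = μ * (((1 - 1 / (2 * (R : ℝ))) * At.card) * B.card) := by ring
      _ ≤ μ * ((A'.card : ℝ) * B.card) := by
          apply mul_le_mul_of_nonneg_left _ (by positivity)
          exact mul_le_mul_of_nonneg_right hc hBpos.le
      _ ≤ μ * (256 * (R : ℝ) ^ 3 * μ ^ ρ' * (w1 * w * 2 ^ ρ)) :=
          mul_le_mul_of_nonneg_left hih (by positivity)
      _ = 256 * (R : ℝ) ^ 3 * μ ^ (ρ' + 1) * (w1 * w * 2 ^ ρ) := by ring
      _ ≤ 256 * (R : ℝ) ^ 3 * μ ^ ρ * (w1 * w * 2 ^ ρ) := by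
          apply mul_le_mul_of_nonneg_right _ hXnn
          apply mul_le_mul_of_nonneg_left _ (by positivity)
          exact pow_le_pow_right₀ hμ1 (by omega)
  · -- case (ii)
    set e1 : ℕ := At.card / (16 * R ^ 2) with he1
    have he1R : 16 * (R : ℝ) ^ 2 * e1 ≤ At.card := by
      have : e1 * (16 * R ^ 2) ≤ At.card := Nat.div_mul_le_self _ _
      have h' : (e1 : ℝ) * (16 * (R : ℝ) ^ 2) ≤ At.card := by exact_mod_cast this
      linarith
    set B1 := Bt.filter (fun b => bad (tr N) b At ≤ e1) with hB1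
    have hB1t : B1 ⊆ Bt := Finset.filter_subset _ _
    have hB1B : B1 ⊆ B := hB1t.trans hBt
    have hB1bad : ∀ b ∈ B1, bad (tr N) b At ≤ e1 := fun b hb => (Finset.mem_filter.mp hb).2
    -- few columns are removed
    have hrem : (Bt.card : ℝ) - B1.card ≤ 1 / (8 * (R : ℝ) ^ 2) * B.card := by
      have hs : (Bt \ B1).card * At.card ≤ 16 * R ^ 2 * (At.card * e0) := by
        have h3 : ∀ b ∈ Bt \ B1, At.card ≤ 16 * R ^ 2 * bad (tr N) b At := by
          intro b hb
          rw [Finset.mem_sdiff] at hb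
          have h4 : ¬ bad (tr N) b At ≤ e1 := fun h => hb.2 (Finset.mem_filter.mpr ⟨hb.1, h⟩)
          rw [he1, Nat.le_div_iff_mul_le (by positivity)] at h4
          have h5 : At.card < bad (tr N) b At * (16 * R ^ 2) := by omega
          calc At.card ≤ bad (tr N) b At * (16 * R ^ 2) := h5.le
            _ = _ := by ring
        calc (Bt \ B1).card * At.card = ∑ b ∈ Bt \ B1, At.card := by
              rw [Finset.sum_const, smul_eq_mul]
          _ ≤ ∑ b ∈ Bt \ B1, 16 * R ^ 2 * bad (tr N) b At := Finset.sum_le_sum h3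
          _ = 16 * R ^ 2 * ∑ b ∈ Bt \ B1, bad (tr N) b At := by rw [Finset.mul_sum]
          _ ≤ 16 * R ^ 2 * ∑ b ∈ B, bad (tr N) b At := by
              apply Nat.mul_le_mul_left
              exact Finset.sum_le_sum_of_subset (Finset.sdiff_subset.trans hBt)
          _ = 16 * R ^ 2 * ∑ a ∈ At, bad N a B := by rw [sum_bad]
          _ ≤ 16 * R ^ 2 * ∑ a ∈ At, e0 := by
              apply Nat.mul_le_mul_left
              exact Finset.sum_le_sum fun a ha => hrow a (hAt ha)
          _ = _ := by rw [Finset.sum_const, smul_eq_mul]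
      have hs' : ((Bt \ B1).card : ℝ) * At.card ≤ 16 * (R : ℝ) ^ 2 * (At.card * e0) := by
        exact_mod_cast hs
      have hs2 : ((Bt \ B1).card : ℝ) ≤ 16 * (R : ℝ) ^ 2 * e0 := by
        have : ((Bt \ B1).card : ℝ) * At.card ≤ (16 * (R : ℝ) ^ 2 * e0) * At.card := by
          linarith
        exact le_of_mul_le_mul_right this hAtpos
      have hs3 : (Bt.card : ℝ) - B1.card = (Bt \ B1).card := by
        have := Finset.card_sdiff_add_card_eq_card hB1t
        have h' : ((Bt \ B1).card : ℝ) + B1.card = Bt.card := by exact_mod_cast this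
        linarith
      rw [hs3]
      refine hs2.trans ?_
      rw [div_mul_eq_mul_div, one_mul, le_div_iff₀ (by positivity)]
      have hh : 16 * (R : ℝ) ^ 2 * (e0 : ℝ) * (8 * (R : ℝ) ^ 2) = 128 * (R : ℝ) ^ 4 * (e0 : ℝ) := by
        ring
      rw [hh]
      exact he0
    have hloss1 : (B.card : ℝ) - B1.card ≤ ((R : ℝ) - ρ) / (4 * (R : ℝ) ^ 2) * B.card +
        1 / (8 * (R : ℝ) ^ 2) * B.card := by linarith
    have hρ1 : 1 ≤ ρ := by
      -- some entry is exact, so the rank is positive
      obtain ⟨a, ha⟩ := hAtne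
      have h3 : bad N a B < B.card := by
        have h4 := hrow a (hAt ha)
        have h5 : (e0 : ℝ) < B.card := by
          have h6 : (1 : ℝ) ≤ (R : ℝ) ^ 4 := one_le_pow₀ hRR
          have h7 : (0 : ℝ) ≤ e0 := Nat.cast_nonneg _
          nlinarith
        have h8 : e0 < B.card := by exact_mod_cast h5
        omega
      have h4 : ∃ b ∈ B, Ex N a b := by
        by_contra hcon
        push Not at hcon
        have h5 : B.filter (fun b => ¬ Ex N a b) = B := Finset.filter_true_of_mem hcon
        have h6 : bad N a B = B.card := by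
          rw [bad, h5]
        omega
      obtain ⟨b, hb, hex⟩ := h4
      by_contra h0
      have h5 : rk N At B = 0 := by omega
      have h6 : CS N At B = ⊥ := Submodule.finrank_eq_zero.mp h5
      have h7 := mem_CS N At hb
      rw [h6, Submodule.mem_bot] at h7
      have h8 := congrFun h7 a
      simp only [P_mem ha, col, Pi.zero_apply] at h8
      rcases hex with h9 | h9 <;> rw [h9] at h8 <;> norm_num at h8
    have hρ1R : (1 : ℝ) ≤ ρ := by exact_mod_cast hρ1
    have hB1big : (1 - 1 / (4 * (R : ℝ))) * (B.card : ℝ) ≤ B1.card := by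
      have h3 : ((R : ℝ) - ρ) / (4 * (R : ℝ) ^ 2) * B.card + 1 / (8 * (R : ℝ) ^ 2) * B.card ≤
          1 / (4 * (R : ℝ)) * B.card := by
        rw [← add_mul]
        apply mul_le_mul_of_nonneg_right _ hBpos.le
        have h4 : ((R : ℝ) - ρ) / (4 * (R : ℝ) ^ 2) ≤ ((R : ℝ) - 1) / (4 * (R : ℝ) ^ 2) := by
          gcongr
        have h5 : ((R : ℝ) - 1) / (4 * (R : ℝ) ^ 2) + 1 / (8 * (R : ℝ) ^ 2) =
            1 / (4 * R) - 1 / (8 * (R : ℝ) ^ 2) := by
          field_simp
          ring
        have h6 : (0 : ℝ) ≤ 1 / (8 * (R : ℝ) ^ 2) := by positivity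
        linarith
      linarith
    have hB1pos : (0 : ℝ) < B1.card := by
      have h3 : (3 : ℝ) / 4 ≤ 1 - 1 / (4 * (R : ℝ)) := by
        have : (1 : ℝ) / (4 * R) ≤ 1 / 4 := by
          apply one_div_le_one_div_of_le (by norm_num)
          linarith
        linarith
      have : 0 < (1 - 1 / (4 * (R : ℝ))) * (B.card : ℝ) := mul_pos (by linarith) hBpos
      linarith
    have hB1ne : B1.Nonempty := by
      rw [← Finset.card_pos]
      exact_mod_cast hB1pos
    have hB34 : 3 / 4 * (B.card : ℝ) ≤ B1.card := by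
      have h3 : (3 : ℝ) / 4 ≤ 1 - 1 / (4 * (R : ℝ)) := by
        have : (1 : ℝ) / (4 * R) ≤ 1 / 4 := by
          apply one_div_le_one_div_of_le (by norm_num)
          linarith
        linarith
      exact (mul_le_mul_of_nonneg_right h3 hBpos.le).trans hB1big
    have hR3 : (1 : ℝ) ≤ (R : ℝ) ^ 3 := one_le_pow₀ hRR
    have hμρ : 1 ≤ μ ^ ρ := one_le_pow₀ hμ1
    have hw' : ColW N At B1 w := hw.mono_right hB1t
    by_cases hall : ∀ b ∈ B1, ∀ b' ∈ B1, Par N At b b'
    · -- all columns are proportional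
      obtain ⟨b0, hb0⟩ := hB1ne
      have hw2 : B1.card ≤ w := hw' b0 hb0 B1 (Finset.Subset.refl _) fun b hb => hall b0 hb0 b hb
      have hexact : ∀ a ∈ At, Ex N a b0 := by
        intro a ha
        have h3 : bad N a B1 < B1.card := by
          have h4 := (bad_mono N a hB1B).trans (hrow a (hAt ha))
          have h5 : (e0 : ℝ) < B1.card := by
            have h6 : (1 : ℝ) ≤ (R : ℝ) ^ 4 := one_le_pow₀ hRR
            have h7 : (0 : ℝ) ≤ e0 := Nat.cast_nonneg _
            nlinarith
          have h8 : e0 < B1.card := by exact_mod_cast h5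
          omega
        have h4 : ∃ b ∈ B1, Ex N a b := by
          by_contra hcon
          push Not at hcon
          have h5 : B1.filter (fun b => ¬ Ex N a b) = B1 := Finset.filter_true_of_mem hcon
          have h6 : bad N a B1 = B1.card := by
            rw [bad, h5]
          omega
        obtain ⟨b, hb, hex⟩ := h4
        obtain ⟨s, hs, hag⟩ := hall b0 hb0 b hb
        have h5 := hag a ha
        rcases sq_one hs with h6 | h6 <;> rcases hex with h7 | h7 <;> rw [h6, h7] at h5 <;>
          simp only [Ex, h5] <;> norm_num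
      have hw1 : At.card ≤ w1 := by
        obtain ⟨a0, ha0⟩ := hAtne
        refine h1 a0 (hAt ha0) At hAt ?_
        intro a ha
        apply par_of_rk_eq hB1B (hbig B1 hB1B hB1big) (hAt ha0) (hAt ha)
        have hsq : ∀ x ∈ At, N x b0 * N x b0 = 1 := by
          intro x hx
          rcases hexact x hx with h | h <;> rw [h] <;> norm_num
        refine ⟨N a0 b0 * N a b0, ?_, ?_⟩
        · calc N a0 b0 * N a b0 * (N a0 b0 * N a b0) =
              (N a0 b0 * N a0 b0) * (N a b0 * N a b0) := by ring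
            _ = 1 := by rw [hsq a0 ha0, hsq a ha]; norm_num
        · intro b hb
          obtain ⟨s, hs, hag⟩ := (hall b0 hb0 b hb).symm
          show N a0 b = N a0 b0 * N a b0 * N a b
          rw [hag a0 ha0, hag a ha]
          calc s * N a0 b0 = s * N a0 b0 * (N a b0 * N a b0) := by rw [hsq a ha, mul_one]
            _ = _ := by ring
      have hw1R : (At.card : ℝ) ≤ w1 := by exact_mod_cast hw1
      have hw2R : (B1.card : ℝ) ≤ w := by exact_mod_cast hw2
      have h2ρ : (1 : ℝ) ≤ 2 ^ ρ := one_le_pow₀ (by norm_num)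
      calc (At.card : ℝ) * B.card ≤ w1 * (2 * w) := by
            apply mul_le_mul hw1R _ hBpos.le (Nat.cast_nonneg _)
            linarith
        _ = 2 * (w1 * w) := by ring
        _ ≤ (256 * (R : ℝ) ^ 3 * μ ^ ρ) * (w1 * w * 2 ^ ρ) := by
            have h3 : (2 : ℝ) ≤ 256 * (R : ℝ) ^ 3 * μ ^ ρ := by nlinarith
            have h4 : (w1 * w : ℝ) ≤ w1 * w * 2 ^ ρ := le_mul_of_one_le_right (by positivity) h2ρ
            exact mul_le_mul h3 h4 (by positivity) (by positivity)
    · push Not at hall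
      obtain ⟨b1, hb1, b2, hb2, hnp⟩ := hall
      obtain ⟨s, hs, hhalf⟩ := exists_half_near (hB1bad b1 hb1) (hB1bad b2 hb2)
      have h3e : 3 * (e1 : ℝ) ≤ 1 / (2 * (R : ℝ)) * At.card := by
        rw [div_mul_eq_mul_div, one_mul, le_div_iff₀ (by positivity)]
        have h4 : (R : ℝ) ≤ (R : ℝ) ^ 2 := le_self_pow₀ hRR (by norm_num)
        have h5 : (0 : ℝ) ≤ e1 := Nat.cast_nonneg _
        nlinarith
      obtain ⟨A0, hA0, hagr, hsize, hrk0, hmerge, hone⟩ :=
        rsplit hess hB1B hB1bad h3e hb1 hb2 hnp hs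
      have hA0c : (1 - 1 / (8 * (R : ℝ) ^ 2)) * (At.card : ℝ) ≤ 2 * A0.card := by
        have h4 : (At.card : ℝ) ≤ 2 * A0.card + 2 * e1 := by
          have : At.card ≤ 2 * A0.card + 2 * e1 := by omega
          exact_mod_cast this
        have h5 : 2 * (e1 : ℝ) ≤ 1 / (8 * (R : ℝ) ^ 2) * At.card := by
          rw [div_mul_eq_mul_div, one_mul, le_div_iff₀ (by positivity)]
          linarith
        linarith
      have h78 : (7 : ℝ) / 8 ≤ 1 - 1 / (8 * (R : ℝ) ^ 2) := by
        have : (1 : ℝ) / (8 * (R : ℝ) ^ 2) ≤ 1 / 8 := by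
          apply one_div_le_one_div_of_le (by norm_num)
          linarith
        linarith
      have hA0pos : (0 : ℝ) < A0.card := by
        have : 0 < (1 - 1 / (8 * (R : ℝ) ^ 2)) * (At.card : ℝ) := mul_pos (by linarith) hAtpos
        linarith
      have hA0ne : A0.Nonempty := by
        rw [← Finset.card_pos]
        exact_mod_cast hA0pos
      have hμ3 : 1 ≤ μ * (1 - 1 / (8 * (R : ℝ) ^ 2)) := by
        rw [hμ]
        have h4 : (1 : ℝ) / (8 * (R : ℝ) ^ 2) ≤ 1 / (2 * R) := by
          apply one_div_le_one_div_of_le (by positivity)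
          have : (R : ℝ) ≤ (R : ℝ) ^ 2 := le_self_pow₀ hRR (by norm_num)
          linarith
        have h5 : (1 + 1 / (R : ℝ)) * (1 - 1 / (2 * R)) ≤
            (1 + 1 / (R : ℝ)) * (1 - 1 / (8 * (R : ℝ) ^ 2)) := by
          apply mul_le_mul_of_nonneg_left _ (by positivity)
          linarith
        refine le_trans ?_ h5
        have h6 : (1 + 1 / (R : ℝ)) * (1 - 1 / (2 * (R : ℝ))) =
            1 + (1 / (2 * R)) * (1 - 1 / R) := by
          field_simp
          ring
        rw [h6]
        have h7 : (1 : ℝ) / R ≤ 1 := by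
          rw [div_le_one (by positivity)]
          exact hRR
        have h8 : (0 : ℝ) ≤ 1 / (2 * R) * (1 - 1 / R) := mul_nonneg (by positivity) (by linarith)
        linarith
      have hXnn : (0 : ℝ) ≤ w1 * w * 2 ^ ρ := by positivity
      set ρ' := rk N A0 B with hρ'
      have hlt : ρ' < ρ := by omega
      -- the common conclusion
      have hfin : ∀ Y : ℝ, (A0.card : ℝ) * B.card ≤ Y → 2 * Y ≤
          256 * (R : ℝ) ^ 3 * μ ^ ρ' * (w1 * w * 2 ^ ρ) →
          (At.card : ℝ) * B.card ≤ 256 * (R : ℝ) ^ 3 * μ ^ ρ * (w1 * w * 2 ^ ρ) := by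
        intro Y hY1 hY2
        calc (At.card : ℝ) * B.card = 1 * ((At.card : ℝ) * B.card) := (one_mul _).symm
          _ ≤ (μ * (1 - 1 / (8 * (R : ℝ) ^ 2))) * ((At.card : ℝ) * B.card) :=
              mul_le_mul_of_nonneg_right hμ3 (by positivity)
          _ = μ * (((1 - 1 / (8 * (R : ℝ) ^ 2)) * At.card) * B.card) := by ring
          _ ≤ μ * ((2 * A0.card) * B.card) := by
              apply mul_le_mul_of_nonneg_left _ (by positivity)
              exact mul_le_mul_of_nonneg_right hA0c hBpos.le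
          _ = μ * (2 * ((A0.card : ℝ) * B.card)) := by ring
          _ ≤ μ * (256 * (R : ℝ) ^ 3 * μ ^ ρ' * (w1 * w * 2 ^ ρ)) := by
              apply mul_le_mul_of_nonneg_left _ (by positivity)
              linarith
          _ = 256 * (R : ℝ) ^ 3 * μ ^ (ρ' + 1) * (w1 * w * 2 ^ ρ) := by ring
          _ ≤ 256 * (R : ℝ) ^ 3 * μ ^ ρ * (w1 * w * 2 ^ ρ) := by
              apply mul_le_mul_of_nonneg_right _ hXnn
              apply mul_le_mul_of_nonneg_left _ (by positivity)
              exact pow_le_pow_right₀ hμ1 (by omega)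
      by_cases hk : ρ' + 2 ≤ ρ
      · have hρ'2 : (ρ' : ℝ) + 2 ≤ ρ := by exact_mod_cast hk
        have hih := ih ρ' hlt A0 (hA0.trans hAt) hA0ne B1 hB1B (2 * w) rfl (by
          refine hloss1.trans ?_
          rw [← add_mul]
          apply mul_le_mul_of_nonneg_right _ hBpos.le
          have h4 : ((R : ℝ) - ρ) / (4 * (R : ℝ) ^ 2) + 1 / (8 * (R : ℝ) ^ 2) =
              ((R : ℝ) - ρ + 1 / 2) / (4 * (R : ℝ) ^ 2) := by
            field_simp
            ring
          rw [h4]
          gcongr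
          linarith) (hw'.two hmerge)
        apply hfin _ hih
        have h4 : 2 * (256 * (R : ℝ) ^ 3 * μ ^ ρ' * (w1 * ((2 * w : ℕ) : ℝ) * 2 ^ ρ')) =
            256 * (R : ℝ) ^ 3 * μ ^ ρ' * (w1 * w * 2 ^ (ρ' + 2)) := by
          push_cast
          ring
        rw [h4]
        apply mul_le_mul_of_nonneg_left _ (by positivity)
        apply mul_le_mul_of_nonneg_left _ (by positivity)
        exact pow_le_pow_right₀ (by norm_num) hk
      · have hk1 : ρ = ρ' + 1 := by omega
        set F := B1.filter (fun b => ∃ b' ∈ B1, Par N A0 b b' ∧ ¬ Par N At b b') with hF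
        have hFB : F ⊆ B1 := Finset.filter_subset _ _
        by_cases hFc : 8 * (R : ℝ) ^ 2 * F.card ≤ B.card
        · have hcw : ColW N A0 (B1 \ F) w := hw'.sdiff_merge fun b hb h =>
            Finset.mem_filter.mpr ⟨hb, h⟩
          have hFc' : (F.card : ℝ) ≤ 1 / (8 * (R : ℝ) ^ 2) * B.card := by
            rw [div_mul_eq_mul_div, one_mul, le_div_iff₀ (by positivity)]
            linarith
          have hρ'R : (ρ : ℝ) = ρ' + 1 := by rw [hk1]; push_cast; ring
          have hih := ih ρ' hlt A0 (hA0.trans hAt) hA0ne (B1 \ F)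
            (Finset.sdiff_subset.trans hB1B) w rfl (by
            have h4 : (B1.card : ℝ) = (B1 \ F).card + F.card := by
              have := Finset.card_sdiff_add_card_eq_card hFB
              exact_mod_cast this.symm
            calc (B.card : ℝ) - (B1 \ F).card = ((B.card : ℝ) - B1.card) + F.card := by linarith
              _ ≤ ((R : ℝ) - ρ) / (4 * (R : ℝ) ^ 2) * B.card +
                  1 / (8 * (R : ℝ) ^ 2) * B.card + 1 / (8 * (R : ℝ) ^ 2) * B.card := by linarith
              _ = ((R : ℝ) - ρ') / (4 * (R : ℝ) ^ 2) * B.card := by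
                  rw [hρ'R]
                  field_simp
                  ring) hcw
          apply hfin _ hih
          apply le_of_eq
          rw [hk1]
          ring
        · -- the direct bound
          push Not at hFc
          have hRne : (R : ℝ) ≠ 0 := by positivity
          have hA1c : 1 / (2 * (R : ℝ)) * At.card ≤ (At \ A0).card := by
            have h4 := Finset.card_sdiff_add_card_eq_card hA0
            have h5 : ((At \ A0).card : ℝ) + A0.card = At.card := by exact_mod_cast h4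
            linarith
          have hA1pos : (0 : ℝ) < (At \ A0).card := by
            have : 0 < 1 / (2 * (R : ℝ)) * (At.card : ℝ) := by positivity
            linarith
          have hA1ne : (At \ A0).Nonempty := by
            rw [← Finset.card_pos]
            exact_mod_cast hA1pos
          obtain ⟨A1, hA1, hA1ne', hA1card, hEss1⟩ := exists_core (δ := 1 / (2 * (R : ℝ)))
            (by positivity) (by
              rw [div_lt_one (by positivity)]
              linarith) N B R (At \ A0)
            ((rk_mono_left N B (Finset.sdiff_subset.trans hAt)).trans hrk) hA1ne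
          have hA1At : A1 ⊆ At := hA1.trans Finset.sdiff_subset
          have hbern := bern hR
          have hA1half : 1 / 2 * ((At \ A0).card : ℝ) ≤ A1.card :=
            (mul_le_mul_of_nonneg_right hbern hA1pos.le).trans hA1card
          have hA1big : (At.card : ℝ) ≤ 4 * R * A1.card := by
            have h4 : 1 / (4 * (R : ℝ)) * At.card ≤ A1.card := by
              calc 1 / (4 * (R : ℝ)) * At.card = 1 / 2 * (1 / (2 * (R : ℝ)) * At.card) := by
                    field_simp
                    ring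
                _ ≤ 1 / 2 * ((At \ A0).card : ℝ) := by linarith
                _ ≤ _ := hA1half
            rw [div_mul_eq_mul_div, one_mul, div_le_iff₀ (by positivity)] at h4
            linarith
          have hrk1 : rk N A1 F ≤ 1 := by
            apply hone (by omega) F hFB (fun b hb => (Finset.mem_filter.mp hb).2) A1 hA1 _ hEss1
            rw [div_mul_eq_mul_div, one_mul, le_div_iff₀ (by positivity)]
            have h4 : 16 * (R : ℝ) ^ 2 * e1 ≤ 4 * R * A1.card := he1R.trans hA1big
            have h5 : 4 * (R : ℝ) * (4 * R * e1) ≤ 4 * R * A1.card := by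
              calc 4 * (R : ℝ) * (4 * R * e1) = 16 * (R : ℝ) ^ 2 * e1 := by ring
                _ ≤ _ := h4
            have h6 := le_of_mul_le_mul_left h5 (by positivity)
            linarith
          have hfrob := frobenius N hA1At (hFB.trans hB1B)
          have hcolF : F.card ≤ w * 2 ^ rk N At F + rk N At F * e0 := by
            apply count_cols (hw'.mono_right hFB)
            intro a ha
            exact (bad_mono N a (hFB.trans hB1B)).trans (hrow a (hAt ha))
          have hrowA : A1.card ≤ w1 * 2 ^ rk N A1 B + rk N A1 B * e1 := by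
            have h4 : ColW (tr N) B1 A1 w1 :=
              (h1.mono_right (hA1At.trans hAt)).of_rk_eq hB1B (hA1At.trans hAt)
                (hbig B1 hB1B hB1big)
            have h5 := count_cols (N := tr N) h4 (e := e1) fun b hb =>
              (bad_mono (tr N) b hA1At).trans (hB1bad b hb)
            rwa [rk_tr, hbig' B1 hB1B hB1big A1 (hA1At.trans hAt)] at h5
          have hrkF : rk N At F ≤ R :=
            (rk_mono_right N At (hFB.trans hB1B)).trans (by omega)
          have hrkA1 : rk N A1 B ≤ R := (rk_mono_left N B hA1At).trans (by omega)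
          have hF2 : (F.card : ℝ) ≤ 2 * (w * 2 ^ rk N At F) := by
            have h4 : (F.card : ℝ) ≤ w * 2 ^ rk N At F + rk N At F * e0 := by exact_mod_cast hcolF
            have h5 : (rk N At F : ℝ) * e0 ≤ R * e0 := by
              apply mul_le_mul_of_nonneg_right _ (Nat.cast_nonneg _)
              exact_mod_cast hrkF
            have h6 : (R : ℝ) * e0 ≤ 1 / 2 * F.card := by
              have h7 : 128 * (R : ℝ) ^ 4 * e0 ≤ 8 * (R : ℝ) ^ 2 * F.card := he0.trans hFc.le
              have h8 : 8 * (R : ℝ) ^ 2 * (16 * (R : ℝ) ^ 2 * e0) ≤ 8 * (R : ℝ) ^ 2 * F.card := by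
                calc 8 * (R : ℝ) ^ 2 * (16 * (R : ℝ) ^ 2 * e0) = 128 * (R : ℝ) ^ 4 * e0 := by ring
                  _ ≤ _ := h7
              have h9 := le_of_mul_le_mul_left h8 (by positivity)
              have h10 : (R : ℝ) ≤ (R : ℝ) ^ 2 := le_self_pow₀ hRR (by norm_num)
              have h11 : (0 : ℝ) ≤ e0 := Nat.cast_nonneg _
              nlinarith
            linarith
          have hA2 : (A1.card : ℝ) ≤ 2 * (w1 * 2 ^ rk N A1 B) := by
            have h4 : (A1.card : ℝ) ≤ w1 * 2 ^ rk N A1 B + rk N A1 B * e1 := by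
              exact_mod_cast hrowA
            have h5 : (rk N A1 B : ℝ) * e1 ≤ R * e1 := by
              apply mul_le_mul_of_nonneg_right _ (Nat.cast_nonneg _)
              exact_mod_cast hrkA1
            have h6 : (R : ℝ) * e1 ≤ 1 / 4 * A1.card := by
              have h7 : 16 * (R : ℝ) ^ 2 * e1 ≤ 4 * R * A1.card := he1R.trans hA1big
              have h8 : 4 * (R : ℝ) * (4 * R * e1) ≤ 4 * (R : ℝ) * A1.card := by
                calc 4 * (R : ℝ) * (4 * R * e1) = 16 * (R : ℝ) ^ 2 * e1 := by ring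
                  _ ≤ _ := h7
              have h9 := le_of_mul_le_mul_left h8 (by positivity)
              linarith
            have h7 : (0 : ℝ) ≤ (A1.card : ℝ) := Nat.cast_nonneg _
            linarith
          have hprod : (A1.card : ℝ) * F.card ≤ 8 * (w1 * w * 2 ^ ρ) := by
            calc (A1.card : ℝ) * F.card ≤
                  (2 * (w1 * 2 ^ rk N A1 B)) * (2 * (w * 2 ^ rk N At F)) :=
                  mul_le_mul hA2 hF2 (Nat.cast_nonneg _) (by positivity)
              _ = 4 * (w1 * w * 2 ^ (rk N A1 B + rk N At F)) := by rw [pow_add]; ring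
              _ ≤ 4 * (w1 * w * 2 ^ (ρ + 1)) := by
                  apply mul_le_mul_of_nonneg_left _ (by norm_num)
                  apply mul_le_mul_of_nonneg_left _ (by positivity)
                  exact pow_le_pow_right₀ (by norm_num) (by omega)
              _ = _ := by ring
          calc (At.card : ℝ) * B.card ≤ (4 * R * A1.card) * (8 * (R : ℝ) ^ 2 * F.card) :=
                mul_le_mul hA1big hFc.le hBpos.le (by positivity)
            _ = 32 * (R : ℝ) ^ 3 * (A1.card * F.card) := by ring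
            _ ≤ 32 * (R : ℝ) ^ 3 * (8 * (w1 * w * 2 ^ ρ)) :=
                mul_le_mul_of_nonneg_left hprod (by positivity)
            _ = 256 * (R : ℝ) ^ 3 * 1 * (w1 * w * 2 ^ ρ) := by ring
            _ ≤ 256 * (R : ℝ) ^ 3 * μ ^ ρ * (w1 * w * 2 ^ ρ) := by
                apply mul_le_mul_of_nonneg_right _ hXnn
                exact mul_le_mul_of_nonneg_left hμρ (by positivity)

/-- Kupavskii–Weltge for nearly exact matrices. -/
theorem rkw {N : V → V → ℝ} {A B : Finset V} (hA : A.Nonempty) (hB : B.Nonempty) {R : ℕ}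
    (hR : 1 ≤ R) (hrk : rk N A B ≤ R) {e0 : ℕ} (hrow : ∀ a ∈ A, bad N a B ≤ e0)
    (he0 : 128 * (R : ℝ) ^ 4 * e0 ≤ B.card) (hEss : Ess (tr N) B A (1 / (4 * (R : ℝ))))
    {w1 w2 : ℕ} (h1 : ColW (tr N) B A w1) (h2 : ColW N A B w2) :
    (A.card : ℝ) * B.card ≤ 768 * (R : ℝ) ^ 3 * (w1 * w2 * 2 ^ rk N A B) := by
  have hRR : (1 : ℝ) ≤ R := by exact_mod_cast hR
  have h := rkw_aux hB hR hrk hrow he0 hEss h1 (rk N A B) A (Finset.Subset.refl _) hA B
    (Finset.Subset.refl _) w2 rfl (by
      rw [sub_self]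
      have : (rk N A B : ℝ) ≤ R := by exact_mod_cast hrk
      have h2 : (0 : ℝ) ≤ (R : ℝ) - rk N A B := by linarith
      positivity) h2
  have hμ : (1 + 1 / (R : ℝ)) ^ rk N A B ≤ 3 := by
    have h3 : (1 + 1 / (R : ℝ)) ≤ Real.exp (1 / R) := by
      have := Real.add_one_le_exp (1 / (R : ℝ))
      linarith
    calc (1 + 1 / (R : ℝ)) ^ rk N A B ≤ (1 + 1 / (R : ℝ)) ^ R := by
          apply pow_le_pow_right₀ _ hrk
          have : (0 : ℝ) ≤ 1 / (R : ℝ) := by positivity
          linarith
      _ ≤ (Real.exp (1 / R)) ^ R := pow_le_pow_left₀ (by positivity) h3 R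
      _ = Real.exp 1 := by
          rw [← Real.exp_nat_mul]
          congr 1
          field_simp
      _ ≤ 3 := by
          have := Real.exp_one_lt_d9
          linarith
  refine h.trans ?_
  apply mul_le_mul_of_nonneg_right _ (by positivity)
  calc 256 * (R : ℝ) ^ 3 * (1 + 1 / (R : ℝ)) ^ rk N A B ≤ 256 * (R : ℝ) ^ 3 * 3 :=
        mul_le_mul_of_nonneg_left hμ (by positivity)
    _ = 768 * (R : ℝ) ^ 3 := by ring

end Pool.Agent.Helper6.LR
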