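import Pool.Agent.Helper6.LR2.RKW

set_option linter.unusedSectionVars false

/-!
# Nearly exact matrices without biased pairs of columns

A random sample of rows reduces the question to exact matrices.
-/

namespace Pool.Agent.Helper6.LR

open Finset Module

variable {V : Type*} [Fintype V] [DecidableEq V]

/-- Few nearly orthogonal `±1` vectors in a space of small dimension. -/
theorem bias_gen {ι : Type*} [Fintype ι] (u : V → ι → ℝ) {B : Finset V}
    (hu : ∀ b ∈ B, ∀ i, u b i = 1 ∨ u b i = -1) (hι : 0 < Fintype.card ι) {k : ℕ} (hk : 1 ≤ k)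
    {K : Submodule ℝ (ι → ℝ)} (hK : ∀ b ∈ B, u b ∈ K) (hR : finrank ℝ K ≤ 16 * k)
    (hb : ∀ b ∈ B, ∀ b' ∈ B, b ≠ b' → 64 * |∑ i, u b i * u b' i| ≤ Fintype.card ι) :
    B.card < 64 ^ k := by
  classical
  set R := finrank ℝ K with hRdef
  set D := R.multichoose k with hD
  have hDlt : D < 64 ^ k := multichoose_lt hk hR
  by_contra hcon
  push Not at hcon
  obtain ⟨S, hSB, hScard⟩ := Finset.exists_subset_card_eq (show D + 1 ≤ B.card by omega)
  let e := Module.finBasis ℝ K
  let p : S → Fin R → ℝ := fun b j => e.repr ⟨u b.1, hK b.1 (hSB b.2)⟩ j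
  let q : S → Fin R → ℝ := fun b j => ∑ i, (e j : ι → ℝ) i * u b.1 i
  have hpq : ∀ b b' : S, ∑ i, u b.1 i * u b'.1 i = ∑ j, p b j * q b' j := by
    intro b b'
    have h1 : ∀ i, u b.1 i = ∑ j, p b j * (e j : ι → ℝ) i := by
      intro i
      have h2 := e.sum_repr ⟨u b.1, hK b.1 (hSB b.2)⟩
      calc u b.1 i = ((∑ j, p b j • e j : K) : ι → ℝ) i := by
            simp only [p]
            rw [h2]
        _ = _ := by
            rw [Submodule.coe_sum, Finset.sum_apply]
            rfl
    rw [Finset.sum_congr rfl (fun i _ => by rw [h1 i])]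
    simp only [q]
    simp_rw [Finset.sum_mul, Finset.mul_sum]
    rw [Finset.sum_comm]
    apply Finset.sum_congr rfl
    intro j _
    apply Finset.sum_congr rfl
    intro i _
    ring
  let X : Matrix S (Sym (Fin R) k) ℝ := Matrix.of fun b m =>
    (m.1.countPerms : ℝ) * (m.1.map (p b)).prod
  let Y : Matrix (Sym (Fin R) k) S ℝ := Matrix.of fun m b => (m.1.map (q b)).prod
  let H : Matrix S S ℝ := Matrix.of fun b b' => (∑ i, u b.1 i * u b'.1 i) ^ k
  have hH : H = X * Y := by
    ext b b'
    simp only [H, X, Y, Matrix.of_apply, Matrix.mul_apply]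
    rw [hpq b b', Finset.sum_pow, Finset.sym_univ]
    apply Finset.sum_congr rfl
    intro m _
    rw [mul_assoc]
    congr 1
    rw [Multiset.prod_map_mul]
  have hApos : (0 : ℝ) < Fintype.card ι := by exact_mod_cast hι
  have hdet : H.det ≠ 0 := by
    apply det_ne_zero_of_sum_row_lt_diag
    intro b
    have h1 : ‖H b b‖ = (Fintype.card ι : ℝ) ^ k := by
      simp only [H, Matrix.of_apply]
      have h2 : ∑ i, u b.1 i * u b.1 i = Fintype.card ι := by
        rw [Finset.sum_congr rfl (g := fun _ => (1 : ℝ))]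
        · simp
        · intro i _
          rcases hu b.1 (hSB b.2) i with h | h <;> rw [h] <;> norm_num
      rw [h2, Real.norm_eq_abs, abs_of_nonneg (by positivity)]
    rw [h1]
    have h2 : ∀ b' ∈ Finset.univ.erase b, ‖H b b'‖ ≤ ((Fintype.card ι : ℝ) / 64) ^ k := by
      intro b' hb'
      simp only [H, Matrix.of_apply]
      rw [norm_pow, Real.norm_eq_abs]
      apply pow_le_pow_left₀ (abs_nonneg _)
      have hne : b.1 ≠ b'.1 := by
        intro h
        exact (Finset.ne_of_mem_erase hb') (Subtype.ext h).symm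
      have := hb b.1 (hSB b.2) b'.1 (hSB b'.2) hne
      linarith
    have h3 : (Finset.univ.erase b).card = D := by
      rw [Finset.card_erase_of_mem (Finset.mem_univ _), Finset.card_univ, Fintype.card_coe,
        hScard]
      rfl
    calc ∑ b' ∈ Finset.univ.erase b, ‖H b b'‖ ≤
          ∑ b' ∈ Finset.univ.erase b, ((Fintype.card ι : ℝ) / 64) ^ k := Finset.sum_le_sum h2
      _ = D * ((Fintype.card ι : ℝ) / 64) ^ k := by rw [Finset.sum_const, h3, nsmul_eq_mul]
      _ = (D / 64 ^ k) * (Fintype.card ι : ℝ) ^ k := by rw [div_pow]; ring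
      _ < 1 * (Fintype.card ι : ℝ) ^ k := by
          apply mul_lt_mul_of_pos_right _ (by positivity)
          rw [div_lt_one (by positivity)]
          exact_mod_cast hDlt
      _ = (Fintype.card ι : ℝ) ^ k := one_mul _
  have hrank : H.rank = D + 1 := by
    have hu : IsUnit H := by
      rw [Matrix.isUnit_iff_isUnit_det]
      exact isUnit_iff_ne_zero.mpr hdet
    rw [Matrix.rank_of_isUnit H hu, Fintype.card_coe, hScard]
  have hrank2 : H.rank ≤ D := by
    rw [hH]
    calc (X * Y).rank ≤ X.rank := Matrix.rank_mul_le_left X Y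
      _ ≤ Fintype.card (Sym (Fin R) k) := Matrix.rank_le_card_width X
      _ = D := by
          rw [Sym.card_sym_eq_multichoose, Fintype.card_fin]
  omega

theorem numeric_chernoff : ((32897 : ℝ) / 32768) ^ 256 ≤ 199 / 200 * (129 / 128 : ℝ) ^ 130 := by
  norm_num

theorem numeric_half : ((199 : ℝ) / 200) ^ 200 ≤ 1 / 2 := by
  norm_num

/-- A family of pairwise non-proportional columns without biased pairs is small. -/
theorem few_classes {N : V → V → ℝ} {A B : Finset V} (hA : A.Nonempty) {k : ℕ} (hk : 1 ≤ k)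
    (hR : rk N A B ≤ 16 * k) {e : ℕ} (hbad : ∀ b ∈ B, bad (tr N) b A ≤ e)
    (he : 4 * (51200 * (12 * k + 5)) * (e : ℝ) ≤ A.card)
    (hag : ∀ b ∈ B, ∀ b' ∈ B, b ≠ b' → ∀ s : ℝ, s * s = 1 →
      256 * ((A.filter (fun a => N a b = s * N a b')).card : ℝ) ≤ 129 * A.card) :
    B.card < 2 * 64 ^ k := by
  classical
  by_contra hcon
  push Not at hcon
  obtain ⟨B0, hB0, hB0card⟩ := Finset.exists_subset_card_eq hcon
  obtain ⟨m', hm'⟩ : ∃ m' : ℕ, m' = 200 * (12 * k + 5) := ⟨_, rfl⟩
  obtain ⟨m, hm⟩ : ∃ m : ℕ, m = 256 * m' := ⟨_, rfl⟩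
  set x : ℝ := 129 / 128 with hx
  have hx0 : 0 < x := by rw [hx]; norm_num
  have hx1 : 1 < x := by rw [hx]; norm_num
  have hApos : (0 : ℝ) < A.card := by exact_mod_cast hA.card_pos
  have hcardA : (Fintype.card A : ℝ) = A.card := by rw [Fintype.card_coe]
  -- indicator functions
  let ex : V → A → ℝ := fun b α => if Ex N α.1 b then 1 else 0
  let ag : V → V → ℝ → A → ℝ := fun b b' s α => if N α.1 b = s * N α.1 b' then x else 1
  let S1 : (Fin m → A) → ℝ := fun a => ∑ b ∈ B0, ∏ i, ex b (a i)
  let pr : Finset (V × V) := (B0 ×ˢ B0).filter (fun c => c.1 ≠ c.2)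
  let sg2 : Finset ℝ := {1, -1}
  let S2 : (Fin m → A) → ℝ := fun a => ∑ c ∈ pr, ∑ s ∈ sg2,
    (∏ i, ag c.1 c.2 s (a i)) / x ^ (130 * m')
  have hB0R : (B0.card : ℝ) = 2 * 64 ^ k := by rw [hB0card]; push_cast; ring
  -- first moment of `S1`
  have hS1 : 3 / 4 * (B0.card : ℝ) * (A.card : ℝ) ^ m ≤ ∑ a, S1 a := by
    simp only [S1]
    rw [Finset.sum_comm]
    have h1 : ∀ b ∈ B0, 3 / 4 * (A.card : ℝ) ^ m ≤ ∑ a : Fin m → A, ∏ i, ex b (a i) := by
      intro b hb
      rw [← Fintype.sum_pow]
      have h2 : ∑ α, ex b α = A.card - (bad (tr N) b A : ℝ) := by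
        have h3 : ∑ α, ex b α = ∑ a ∈ A, if Ex N a b then (1 : ℝ) else 0 := by
          rw [← Finset.sum_coe_sort A]
        rw [h3, ← Finset.sum_filter, Finset.sum_const, nsmul_eq_mul, mul_one]
        have h4 := Finset.card_filter_add_card_filter_not (s := A) (fun a => Ex N a b)
        have h5 : (A.filter (fun a => ¬ Ex N a b)).card = bad (tr N) b A := rfl
        rw [h5] at h4
        have h6 : ((A.filter (fun a => Ex N a b)).card : ℝ) + bad (tr N) b A = A.card := by
          exact_mod_cast h4
        linarith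
      rw [h2]
      set y : ℝ := (bad (tr N) b A : ℝ) / A.card with hy
      have h3 : (A.card : ℝ) - bad (tr N) b A = A.card * (1 - y) := by
        rw [hy]
        field_simp
      rw [h3, mul_pow]
      have hbe : (bad (tr N) b A : ℝ) ≤ e := by exact_mod_cast hbad b (hB0 hb)
      have hmy : (m : ℝ) * y ≤ 1 / 4 := by
        rw [hy, mul_div_assoc', div_le_iff₀ hApos]
        have hmR : (m : ℝ) = 51200 * (12 * k + 5) := by
          rw [hm, hm']
          push_cast
          ring
        rw [hmR]
        have h0 : (0 : ℝ) ≤ 51200 * (12 * (k : ℝ) + 5) := by positivity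
        nlinarith
      have hy0 : 0 ≤ y := by positivity
      have hm1 : (1 : ℝ) ≤ m := by
        have : 1 ≤ m := by omega
        exact_mod_cast this
      have hy1 : y ≤ 1 := by nlinarith
      have h4 : 1 - (m : ℝ) * y ≤ (1 - y) ^ m := by
        have := one_add_mul_le_pow (a := -y) (by linarith) m
        rw [← sub_eq_add_neg] at this
        linarith
      calc 3 / 4 * (A.card : ℝ) ^ m = (A.card : ℝ) ^ m * (3 / 4) := by ring
        _ ≤ (A.card : ℝ) ^ m * (1 - y) ^ m := by
            apply mul_le_mul_of_nonneg_left _ (by positivity)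
            linarith
    calc 3 / 4 * (B0.card : ℝ) * (A.card : ℝ) ^ m = ∑ b ∈ B0, 3 / 4 * (A.card : ℝ) ^ m := by
          rw [Finset.sum_const, nsmul_eq_mul]
          ring
      _ ≤ _ := Finset.sum_le_sum h1
  -- first moment of `S2`
  have hS2 : ∑ a, S2 a ≤ 1 / 4 * (A.card : ℝ) ^ m := by
    simp only [S2]
    rw [Finset.sum_comm]
    have h1 : ∀ c ∈ pr, ∑ a : Fin m → A, ∑ s ∈ sg2,
        (∏ i, ag c.1 c.2 s (a i)) / x ^ (130 * m') ≤
          2 * ((A.card : ℝ) ^ m * (199 / 200) ^ m') := by
      intro c hc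
      rw [Finset.mem_filter, Finset.mem_product] at hc
      rw [Finset.sum_comm]
      have h2 : ∀ s ∈ sg2, ∑ a : Fin m → A, (∏ i, ag c.1 c.2 s (a i)) / x ^ (130 * m') ≤
          (A.card : ℝ) ^ m * (199 / 200) ^ m' := by
        intro s hs
        have hs2 : s * s = 1 := by
          simp only [sg2, Finset.mem_insert, Finset.mem_singleton] at hs
          rcases hs with rfl | rfl <;> norm_num
        rw [← Finset.sum_div, ← Fintype.sum_pow]
        have h3 : ∑ α, ag c.1 c.2 s α = A.card +
            (x - 1) * ((A.filter (fun a => N a c.1 = s * N a c.2)).card : ℝ) := by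
          have h4 : ∑ α, ag c.1 c.2 s α = ∑ a ∈ A, if N a c.1 = s * N a c.2 then x else 1 := by
            rw [← Finset.sum_coe_sort A]
          rw [h4, Finset.sum_ite, Finset.sum_const, Finset.sum_const, nsmul_eq_mul, nsmul_eq_mul,
            mul_one]
          have h5 := Finset.card_filter_add_card_filter_not (s := A)
            (fun a => N a c.1 = s * N a c.2)
          have h6 : ((A.filter (fun a => N a c.1 = s * N a c.2)).card : ℝ) +
              (A.filter (fun a => ¬ N a c.1 = s * N a c.2)).card = A.card := by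
            exact_mod_cast h5
          linarith
        rw [h3]
        have h4 := hag c.1 (hB0 hc.1.1) c.2 (hB0 hc.1.2) hc.2 s hs2
        have h5 : (A.card : ℝ) +
            (x - 1) * ((A.filter (fun a => N a c.1 = s * N a c.2)).card : ℝ) ≤
              A.card * (32897 / 32768) := by
          rw [hx]
          linarith
        rw [div_le_iff₀ (by positivity)]
        calc ((A.card : ℝ) +
            (x - 1) * ((A.filter (fun a => N a c.1 = s * N a c.2)).card : ℝ)) ^ m ≤
              ((A.card : ℝ) * (32897 / 32768)) ^ m := by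
                apply pow_le_pow_left₀ _ h5
                have : 0 ≤ x - 1 := by linarith
                positivity
          _ = (A.card : ℝ) ^ m * (((32897 : ℝ) / 32768) ^ 256) ^ m' := by
              rw [mul_pow, ← pow_mul, ← hm]
          _ ≤ (A.card : ℝ) ^ m * (199 / 200 * (129 / 128 : ℝ) ^ 130) ^ m' := by
              apply mul_le_mul_of_nonneg_left _ (by positivity)
              exact pow_le_pow_left₀ (by positivity) numeric_chernoff m'
          _ = (A.card : ℝ) ^ m * (199 / 200) ^ m' * x ^ (130 * m') := by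
              rw [mul_pow, ← pow_mul, hx]
              ring
      calc ∑ s ∈ sg2, ∑ a : Fin m → A, (∏ i, ag c.1 c.2 s (a i)) / x ^ (130 * m') ≤
            ∑ s ∈ sg2, (A.card : ℝ) ^ m * (199 / 200) ^ m' := Finset.sum_le_sum h2
        _ = (sg2.card : ℝ) * ((A.card : ℝ) ^ m * (199 / 200) ^ m') := by
            rw [Finset.sum_const, nsmul_eq_mul]
        _ ≤ 2 * ((A.card : ℝ) ^ m * (199 / 200) ^ m') := by
            apply mul_le_mul_of_nonneg_right _ (by positivity)
            have : sg2.card ≤ 2 := Finset.card_le_two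
            exact_mod_cast this
    have hpr : (pr.card : ℝ) ≤ (B0.card : ℝ) ^ 2 := by
      have : pr.card ≤ B0.card * B0.card := by
        refine (Finset.card_filter_le _ _).trans ?_
        rw [Finset.card_product]
      have h' : (pr.card : ℝ) ≤ B0.card * B0.card := by exact_mod_cast this
      rw [sq]
      exact h'
    have hhalf : ((199 : ℝ) / 200) ^ m' ≤ 1 / 2 ^ (12 * k + 5) := by
      rw [hm', pow_mul]
      calc (((199 : ℝ) / 200) ^ 200) ^ (12 * k + 5) ≤ (1 / 2) ^ (12 * k + 5) :=
            pow_le_pow_left₀ (by positivity) numeric_half _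
        _ = _ := by rw [div_pow, one_pow]
    calc ∑ c ∈ pr, ∑ a : Fin m → A, ∑ s ∈ sg2,
        (∏ i, ag c.1 c.2 s (a i)) / x ^ (130 * m') ≤
          ∑ c ∈ pr, 2 * ((A.card : ℝ) ^ m * (199 / 200) ^ m') := Finset.sum_le_sum h1
      _ = (pr.card : ℝ) * (2 * ((A.card : ℝ) ^ m * (199 / 200) ^ m')) := by
          rw [Finset.sum_const, nsmul_eq_mul]
      _ ≤ (B0.card : ℝ) ^ 2 * (2 * ((A.card : ℝ) ^ m * (1 / 2 ^ (12 * k + 5)))) := by
          gcongr
      _ = 1 / 4 * (A.card : ℝ) ^ m := by
          rw [hB0R]
          have h4 : ((2 : ℝ) * 64 ^ k) ^ 2 = 4 * 2 ^ (12 * k) := by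
            rw [mul_pow, ← pow_mul, show (64 : ℝ) = 2 ^ 6 by norm_num, ← pow_mul,
              show 6 * (k * 2) = 12 * k by ring]
            norm_num
          rw [h4, pow_add]
          field_simp
          norm_num
  -- choice of the sample
  have hB0pos : (0 : ℝ) < B0.card := by rw [hB0R]; positivity
  have hne : (Finset.univ : Finset (Fin m → A)).Nonempty := by
    obtain ⟨a, ha⟩ := hA
    exact ⟨fun _ => ⟨a, ha⟩, Finset.mem_univ _⟩
  obtain ⟨a, _, ha⟩ := Finset.exists_le_of_sum_le (s := (Finset.univ : Finset (Fin m → A)))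
    (f := fun _ => (1 : ℝ) / 2) (g := fun a => S1 a / B0.card - S2 a) hne (by
      rw [Finset.sum_const, Finset.card_univ, Fintype.card_fun, Fintype.card_fin,
        Fintype.card_coe, nsmul_eq_mul, Finset.sum_sub_distrib, ← Finset.sum_div]
      have h1 : 3 / 4 * (A.card : ℝ) ^ m ≤ (∑ a, S1 a) / B0.card := by
        rw [le_div_iff₀ hB0pos]
        linarith
      push_cast
      linarith)
  have hS1le : S1 a ≤ B0.card := by
    simp only [S1]
    calc ∑ b ∈ B0, ∏ i, ex b (a i) ≤ ∑ b ∈ B0, (1 : ℝ) := by
          apply Finset.sum_le_sum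
          intro b _
          apply Finset.prod_le_one
          · intro i _
            simp only [ex]
            split_ifs <;> norm_num
          · intro i _
            simp only [ex]
            split_ifs <;> norm_num
      _ = B0.card := by simp
  have hterm : ∀ c ∈ pr, ∀ s ∈ sg2, 0 ≤ (∏ i, ag c.1 c.2 s (a i)) / x ^ (130 * m') := by
    intro c _ s _
    apply div_nonneg _ (by positivity)
    apply Finset.prod_nonneg
    intro i _
    simp only [ag]
    split_ifs <;> linarith
  have hS2nn : 0 ≤ S2 a := Finset.sum_nonneg fun c hc => Finset.sum_nonneg fun s hs =>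
    hterm c hc s hs
  have hS2le : S2 a ≤ 1 / 2 := by
    have : S1 a / B0.card ≤ 1 := by
      rw [div_le_one hB0pos]
      exact hS1le
    linarith
  have hS1ge : (64 : ℝ) ^ k ≤ S1 a := by
    have h1 : 1 / 2 ≤ S1 a / B0.card := by linarith
    rw [le_div_iff₀ hB0pos, hB0R] at h1
    linarith
  -- the exact columns
  set B' := B0.filter (fun b => ∀ i, Ex N (a i).1 b) with hB'
  have hB'card : (B'.card : ℝ) = S1 a := by
    simp only [S1]
    rw [hB', Finset.card_filter]
    push_cast
    apply Finset.sum_congr rfl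
    intro b _
    by_cases h : ∀ i, Ex N (a i).1 b
    · rw [if_pos h]
      symm
      apply Finset.prod_eq_one
      intro i _
      simp only [ex]
      rw [if_pos (h i)]
    · rw [if_neg h]
      push Not at h
      obtain ⟨i, hi⟩ := h
      symm
      apply Finset.prod_eq_zero (Finset.mem_univ i)
      simp only [ex]
      rw [if_neg hi]
  have hcontra : B'.card < 64 ^ k := by
    let φ : (V → ℝ) →ₗ[ℝ] (Fin m → ℝ) := LinearMap.funLeft ℝ ℝ (fun i => (a i).1)
    refine bias_gen (u := fun b i => N (a i).1 b) (hu := ?_) (hι := ?_) (hk := hk)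
      (K := (CS N A B).map φ) (hK := ?_) (hR := ?_) (hb := ?_)
    · intro b hb i
      exact (Finset.mem_filter.mp hb).2 i
    · rw [Fintype.card_fin]
      omega
    · intro b hb
      refine ⟨P A (col N b), mem_CS N A (hB0 (Finset.filter_subset _ _ hb)), ?_⟩
      funext i
      simp only [φ, LinearMap.funLeft_apply, P_mem (a i).2, col]
    · exact (Submodule.finrank_map_le _ _).trans hR
    · intro b hb b' hb' hbb
      have hbm := Finset.mem_filter.mp hb
      have hbm' := Finset.mem_filter.mp hb'
      have hcpr : (b, b') ∈ pr := by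
        rw [Finset.mem_filter, Finset.mem_product]
        exact ⟨⟨hbm.1, hbm'.1⟩, hbb⟩
      have hcount : ∀ s ∈ sg2,
          (Finset.univ.filter (fun i => N (a i).1 b = s * N (a i).1 b')).card ≤ 130 * m' := by
        intro s hs
        have h1 : (∏ i, ag b b' s (a i)) / x ^ (130 * m') ≤ 1 / 2 := by
          calc (∏ i, ag b b' s (a i)) / x ^ (130 * m') ≤
                ∑ s ∈ sg2, (∏ i, ag b b' s (a i)) / x ^ (130 * m') :=
                Finset.single_le_sum (fun s hs => hterm (b, b') hcpr s hs) hs
            _ ≤ S2 a := Finset.single_le_sum (f := fun c : V × V => ∑ s ∈ sg2,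
                (∏ i, ag c.1 c.2 s (a i)) / x ^ (130 * m'))
                (fun c hc => Finset.sum_nonneg fun s hs => hterm c hc s hs) hcpr
            _ ≤ 1 / 2 := hS2le
        have h2 : ∏ i, ag b b' s (a i) =
            x ^ (Finset.univ.filter (fun i => N (a i).1 b = s * N (a i).1 b')).card := by
          simp only [ag]
          rw [Finset.prod_ite, Finset.prod_const, Finset.prod_const_one, mul_one]
        rw [h2, div_le_iff₀ (by positivity)] at h1
        by_contra hcon2
        push Not at hcon2
        have h3 : x ^ (130 * m') ≤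
            x ^ (Finset.univ.filter (fun i => N (a i).1 b = s * N (a i).1 b')).card :=
          pow_le_pow_right₀ hx1.le hcon2.le
        have h4 : (0 : ℝ) < x ^ (130 * m') := by positivity
        linarith
      have hc1 := hcount 1 (by simp [sg2])
      have hc2 := hcount (-1) (by simp [sg2])
      set c1 := (Finset.univ.filter (fun i => N (a i).1 b = 1 * N (a i).1 b')).card with hc1d
      set c2 := (Finset.univ.filter (fun i => N (a i).1 b = (-1) * N (a i).1 b')).card with hc2d
      have hsum : ∑ i, N (a i).1 b * N (a i).1 b' = (c1 : ℝ) - c2 := by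
        rw [hc1d, hc2d, Finset.card_filter, Finset.card_filter]
        push_cast
        rw [← Finset.sum_sub_distrib]
        apply Finset.sum_congr rfl
        intro i _
        rcases hbm.2 i with h | h <;> rcases hbm'.2 i with h' | h' <;> rw [h, h'] <;> norm_num
      have htot : c1 + c2 = m := by
        rw [hc1d, hc2d]
        have h1 := Finset.card_filter_add_card_filter_not (s := (Finset.univ : Finset (Fin m)))
          (fun i => N (a i).1 b = 1 * N (a i).1 b')
        rw [Finset.card_univ, Fintype.card_fin] at h1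
        refine Eq.trans ?_ h1
        congr 2
        ext i
        simp only [Finset.mem_filter, Finset.mem_univ, true_and]
        rcases hbm.2 i with h | h <;> rcases hbm'.2 i with h' | h' <;> rw [h, h'] <;> norm_num
      rw [hsum, Fintype.card_fin]
      have hc1R : (c1 : ℝ) ≤ 130 * m' := by exact_mod_cast hc1
      have hc2R : (c2 : ℝ) ≤ 130 * m' := by exact_mod_cast hc2
      have htotR : (c1 : ℝ) + c2 = m := by exact_mod_cast htot
      have hmR : (m : ℝ) = 256 * m' := by rw [hm]; push_cast; ring
      have habs : |(c1 : ℝ) - c2| ≤ 4 * m' := by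
        rw [abs_le]
        constructor <;> linarith
      linarith
  have h1 : (B'.card : ℝ) < 64 ^ k := by exact_mod_cast hcontra
  rw [hB'card] at h1
  linarith

end Pool.Agent.Helper6.LR
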