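import Pool.Agent.Helper6.LR2.RKW
import Pool.Agent.Helper6.LR2.Sample

set_option linter.unusedSectionVars false

/-!
# Large submatrices of rank one in nearly exact matrices
-/

namespace Pool.Agent.Helper6.LR

open Finset Module

variable {V : Type*} [Fintype V] [DecidableEq V]

/-- The constants. -/
structure RC (R0 : ℕ) (σ κ a0 Λ : ℝ) : Prop where
  one : 1 ≤ R0
  hσ : σ = 1 - 1 / (2 * (R0 : ℝ))
  hΛ : Λ = 1536 * (R0 : ℝ) ^ 3
  hκ : 0 < κ
  hκΛ : κ * Λ ^ 140 ≤ 1 / (2 ^ 22 * (R0 : ℝ) ^ 4)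
  ha : 0 < a0
  haΛ : a0 * Λ ^ 140 ≤ 1 / (2 ^ 36 * (R0 : ℝ))

section

variable {R0 : ℕ} {σ κ a0 Λ : ℝ}

theorem RC.oneR (h : RC R0 σ κ a0 Λ) : (1 : ℝ) ≤ R0 := by exact_mod_cast h.one

theorem RC.σ0 (h : RC R0 σ κ a0 Λ) : 0 < σ := by
  have h1 := h.oneR
  rw [h.hσ]
  have : (1 : ℝ) / (2 * R0) ≤ 1 / 2 := by
    apply one_div_le_one_div_of_le (by norm_num)
    linarith
  linarith

theorem RC.σ1 (h : RC R0 σ κ a0 Λ) : σ ≤ 1 := by
  have h1 := h.oneR
  rw [h.hσ]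
  have : (0 : ℝ) ≤ 1 / (2 * R0) := by positivity
  linarith

theorem RC.Λ1 (h : RC R0 σ κ a0 Λ) : 1 ≤ Λ := by
  have h1 := h.oneR
  rw [h.hΛ]
  have : (1 : ℝ) ≤ (R0 : ℝ) ^ 3 := one_le_pow₀ h1
  linarith

/-- The error is small. -/
theorem RC.small (h : RC R0 σ κ a0 Λ) {t u R : ℕ} (ht : t = 140) {L e x : ℝ} (hL : 0 < L)
    (hLΛ : L ≤ Λ) (hx : 0 ≤ x) (he : e ≤ κ * L ^ t * σ ^ (u * R) * x) :
    e ≤ 1 / (2 ^ 22 * (R0 : ℝ) ^ 4) * x := by
  refine he.trans (mul_le_mul_of_nonneg_right ?_ hx)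
  calc κ * L ^ t * σ ^ (u * R) ≤ κ * Λ ^ t * 1 := by
        apply mul_le_mul _ (pow_le_one₀ h.σ0.le h.σ1) (pow_nonneg h.σ0.le _)
          (mul_nonneg h.hκ.le (pow_nonneg (by linarith) _))
        apply mul_le_mul_of_nonneg_left _ h.hκ.le
        exact pow_le_pow_left₀ hL.le hLΛ t
    _ = κ * Λ ^ t := mul_one _
    _ ≤ _ := by rw [ht]; exact h.hκΛ

theorem RC.asmall (h : RC R0 σ κ a0 Λ) {t u R : ℕ} (ht : t = 140) {L : ℝ} (hL : 0 < L)
    (hLΛ : L ≤ Λ) : a0 * L ^ t * σ ^ (u * R) ≤ 1 / (2 ^ 36 * (R0 : ℝ)) := by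
  calc a0 * L ^ t * σ ^ (u * R) ≤ a0 * Λ ^ t * 1 := by
        apply mul_le_mul _ (pow_le_one₀ h.σ0.le h.σ1) (pow_nonneg h.σ0.le _)
          (mul_nonneg h.ha.le (pow_nonneg (by linarith) _))
        apply mul_le_mul_of_nonneg_left _ h.ha.le
        exact pow_le_pow_left₀ hL.le hLΛ t
    _ = a0 * Λ ^ t := mul_one _
    _ ≤ _ := by rw [ht]; exact h.haΛ

end

/-- The claim for rank `R`, with exponents `t = 140`, `u = 141`, `v = 142`. -/
def RClaim (V : Type*) [Fintype V] [DecidableEq V] (σ κ a0 Λ : ℝ) (t u v : ℕ) (R : ℕ) : Prop :=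
  ∀ (N : V → V → ℝ) (A B : Finset V) (w1 w2 e : ℕ) (L : ℝ), A.Nonempty → B.Nonempty →
    rk N A B = R → (∀ a ∈ A, bad N a B ≤ e) → (∀ b ∈ B, bad (tr N) b A ≤ e) →
    ColW (tr N) B A w1 → ColW N A B w2 → 0 < L → L ≤ Λ →
    L * (w1 * w2 * 2 ^ R) ≤ (A.card : ℝ) * B.card →
    (e : ℝ) ≤ κ * L ^ t * σ ^ (v * R) * A.card → (e : ℝ) ≤ κ * L ^ t * σ ^ (v * R) * B.card →
    Good N A B (a0 * L ^ t * σ ^ (u * R) * ((A.card : ℝ) * B.card))

theorem rdescend {R0 : ℕ} {σ κ a0 Λ : ℝ} (hc : RC R0 σ κ a0 Λ) {t u v R R' : ℕ}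
    (hR : R' + 1 ≤ R) (hcl : RClaim V σ κ a0 Λ t u v R') {N : V → V → ℝ} {A B A2 B2 : Finset V}
    {w1 w2 e : ℕ} {L c dA dB : ℝ} (hA2 : A2 ⊆ A) (hB2 : B2 ⊆ B) (hA : A.Nonempty)
    (hB : B.Nonempty) (hrk : rk N A2 B2 = R') (hbr : ∀ a ∈ A, bad N a B ≤ e)
    (hbc : ∀ b ∈ B, bad (tr N) b A ≤ e) (h1 : ColW (tr N) B2 A2 w1) (h2 : ColW N A2 B2 w2)
    (hL : 0 < L) (hcpos : 0 < c) (hcL : c * L ≤ Λ) (hdA0 : 0 < dA) (hdB0 : 0 < dB)
    (hdA : dA * A.card ≤ A2.card) (hdB : dB * B.card ≤ B2.card)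
    (hLW : c * L * (w1 * w2 * 2 ^ R') ≤ (A2.card : ℝ) * B2.card)
    (heA : (e : ℝ) ≤ κ * L ^ t * σ ^ (v * R) * A.card)
    (heB : (e : ℝ) ≤ κ * L ^ t * σ ^ (v * R) * B.card)
    (hcA : σ ^ v ≤ c ^ t * dA) (hcB : σ ^ v ≤ c ^ t * dB) (hcAB : σ ^ u ≤ c ^ t * (dA * dB)) :
    Good N A B (a0 * L ^ t * σ ^ (u * R) * ((A.card : ℝ) * B.card)) := by
  have hApos : (0 : ℝ) < A.card := by exact_mod_cast hA.card_pos
  have hBpos : (0 : ℝ) < B.card := by exact_mod_cast hB.card_pos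
  have hA2ne : A2.Nonempty := by
    rw [← Finset.card_pos]
    have : (0 : ℝ) < A2.card := lt_of_lt_of_le (by positivity) hdA
    exact_mod_cast this
  have hB2ne : B2.Nonempty := by
    rw [← Finset.card_pos]
    have : (0 : ℝ) < B2.card := lt_of_lt_of_le (by positivity) hdB
    exact_mod_cast this
  have h := hcl N A2 B2 w1 w2 e (c * L) hA2ne hB2ne hrk
    (fun a ha => (bad_mono N a hB2).trans (hbr a (hA2 ha)))
    (fun b hb => (bad_mono (tr N) b hA2).trans (hbc b (hB2 hb))) h1 h2 (by positivity) hcL hLW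
    (heA.trans (step_ineq hc.hκ.le hL.le hcpos.le hc.σ0.le hc.σ1 hApos.le hdA hcA hR))
    (heB.trans (step_ineq hc.hκ.le hL.le hcpos.le hc.σ0.le hc.σ1 hBpos.le hdB hcB hR))
  refine h.mono hA2 hB2 ?_
  apply step_ineq (d := dA * dB) hc.ha.le hL.le hcpos.le hc.σ0.le hc.σ1 (by positivity) _ hcAB hR
  calc dA * dB * ((A.card : ℝ) * B.card) = (dA * A.card) * (dB * B.card) := by ring
    _ ≤ _ := mul_le_mul hdA hdB (by positivity) (Nat.cast_nonneg _)

/-- Rows which are not essential. -/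
theorem rstep_ess {R0 : ℕ} {σ κ a0 Λ : ℝ} (hc : RC R0 σ κ a0 Λ) {t u v R : ℕ} (ht : t = 140)
    (hu : u = 141) (hv : v = 142) (hR0 : R ≤ R0)
    (ih : ∀ R' < R, RClaim V σ κ a0 Λ t u v R') {N : V → V → ℝ} {A B : Finset V}
    {w1 w2 e : ℕ} {L : ℝ} (hA : A.Nonempty) (hB : B.Nonempty) (hrk : rk N A B = R)
    (hbr : ∀ a ∈ A, bad N a B ≤ e) (hbc : ∀ b ∈ B, bad (tr N) b A ≤ e)
    (h1 : ColW (tr N) B A w1) (h2 : ColW N A B w2) (hL : 0 < L) (hLΛ : L ≤ Λ)
    (hLW : L * (w1 * w2 * 2 ^ R) ≤ (A.card : ℝ) * B.card)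
    (heA : (e : ℝ) ≤ κ * L ^ t * σ ^ (v * R) * A.card)
    (heB : (e : ℝ) ≤ κ * L ^ t * σ ^ (v * R) * B.card)
    (hness : ¬ Ess N A B (1 / (4 * (R0 : ℝ)))) :
    Good N A B (a0 * L ^ t * σ ^ (u * R) * ((A.card : ℝ) * B.card)) := by
  have hR0R := hc.oneR
  have hApos : (0 : ℝ) < A.card := by exact_mod_cast hA.card_pos
  have hBpos : (0 : ℝ) < B.card := by exact_mod_cast hB.card_pos
  rw [Ess] at hness
  push Not at hness
  obtain ⟨A', hA', hc', hrk'⟩ := hness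
  have hrk1 : rk N A' B < R := by
    have := rk_mono_left N B hA'
    omega
  obtain ⟨A2, hA2, B2, hB2, w1', w2', ha, hb, hcw1, hcw2, hw⟩ := restrict (rk N A B) N A B A' B
    w1 w2 e le_rfl hA' (Finset.Subset.refl _) hbr
    (fun b hb => (bad_mono (tr N) b hA').trans (hbc b hb)) h2
    (h1.mono_right hA')
  have heA' := hc.small ht hL hLΛ hApos.le heA
  have heB' := hc.small ht hL hLΛ hBpos.le heB
  have hz : (R0 : ℝ) * (1 / (2 ^ 22 * (R0 : ℝ) ^ 4)) ≤ 1 / (8 * R0) := by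
    rw [mul_one_div, div_le_div_iff₀ (by positivity) (by positivity)]
    have : (R0 : ℝ) ^ 2 ≤ (R0 : ℝ) ^ 4 := pow_le_pow_right₀ hR0R (by norm_num)
    nlinarith
  have hRR : (R : ℝ) ≤ R0 := by exact_mod_cast hR0
  have hReA : (R : ℝ) * e ≤ 1 / (8 * R0) * A.card := by
    calc (R : ℝ) * e ≤ R0 * (1 / (2 ^ 22 * (R0 : ℝ) ^ 4) * A.card) :=
          mul_le_mul hRR heA' (Nat.cast_nonneg _) (by linarith)
      _ = R0 * (1 / (2 ^ 22 * (R0 : ℝ) ^ 4)) * A.card := by ring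
      _ ≤ _ := mul_le_mul_of_nonneg_right hz hApos.le
  have hReB : (R : ℝ) * e ≤ 1 / (8 * R0) * B.card := by
    calc (R : ℝ) * e ≤ R0 * (1 / (2 ^ 22 * (R0 : ℝ) ^ 4) * B.card) :=
          mul_le_mul hRR heB' (Nat.cast_nonneg _) (by linarith)
      _ = R0 * (1 / (2 ^ 22 * (R0 : ℝ) ^ 4)) * B.card := by ring
      _ ≤ _ := mul_le_mul_of_nonneg_right hz hBpos.le
  have haR : (A'.card : ℝ) ≤ A2.card + R * e := by
    rw [hrk] at ha
    exact_mod_cast ha
  have hbR : (B.card : ℝ) ≤ B2.card + R * e := by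
    rw [hrk] at hb
    exact_mod_cast hb
  set x : ℝ := 1 / (8 * R0) with hx
  have hx0 : 0 < x := by positivity
  have hx1 : x ≤ 1 / 8 := by
    rw [hx]
    apply one_div_le_one_div_of_le (by norm_num)
    linarith
  have h4 : (1 : ℝ) / (4 * R0) = 2 * x := by rw [hx]; field_simp; norm_num
  have hσx : σ = 1 - 4 * x := by rw [hc.hσ, hx]; field_simp; ring
  rw [h4] at hc'
  have hA2c : (1 - 3 * x) * (A.card : ℝ) ≤ A2.card := by linarith
  have hB2c : (1 - x) * (B.card : ℝ) ≤ B2.card := by linarith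
  have hrk2 : rk N A2 B2 < R :=
    lt_of_le_of_lt ((rk_mono_left N B2 hA2).trans (rk_mono_right N A' hB2)) hrk1
  have hw' : (w1' * w2' * 2 ^ rk N A2 B2 : ℝ) ≤ w1 * w2 * 2 ^ R := by
    rw [hrk] at hw
    exact_mod_cast hw
  have hprod : 1 - 4 * x ≤ (1 - 3 * x) * (1 - x) := by nlinarith
  refine rdescend hc (R' := rk N A2 B2) (by omega) (ih _ hrk2) (hA2.trans hA') hB2 hA hB rfl hbr
    hbc hcw1 hcw2 hL hc.σ0 ?_ (dA := 1 - 3 * x) (dB := 1 - x) (by linarith) (by linarith) hA2c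
    hB2c ?_ heA heB ?_ ?_ ?_
  · calc σ * L ≤ 1 * L := mul_le_mul_of_nonneg_right hc.σ1 hL.le
      _ ≤ Λ := by linarith
  · calc σ * L * (w1' * w2' * 2 ^ rk N A2 B2) ≤ σ * L * (w1 * w2 * 2 ^ R) := by
          apply mul_le_mul_of_nonneg_left hw'
          exact mul_nonneg hc.σ0.le hL.le
      _ = σ * (L * (w1 * w2 * 2 ^ R)) := by ring
      _ ≤ σ * ((A.card : ℝ) * B.card) := mul_le_mul_of_nonneg_left hLW hc.σ0.le
      _ ≤ ((1 - 3 * x) * (1 - x)) * ((A.card : ℝ) * B.card) := by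
          apply mul_le_mul_of_nonneg_right _ (by positivity)
          rw [hσx]
          exact hprod
      _ = ((1 - 3 * x) * A.card) * ((1 - x) * B.card) := by ring
      _ ≤ _ := mul_le_mul hA2c hB2c (mul_nonneg (by linarith) hBpos.le) (Nat.cast_nonneg _)
  · calc σ ^ v = σ ^ t * (σ * σ) := by rw [ht, hv]; ring
      _ ≤ σ ^ t * (1 - 3 * x) := by
          apply mul_le_mul_of_nonneg_left _ (pow_nonneg hc.σ0.le _)
          have := hc.σ0
          have := hc.σ1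
          nlinarith
  · calc σ ^ v = σ ^ t * (σ * σ) := by rw [ht, hv]; ring
      _ ≤ σ ^ t * (1 - x) := by
          apply mul_le_mul_of_nonneg_left _ (pow_nonneg hc.σ0.le _)
          have := hc.σ0
          have := hc.σ1
          nlinarith
  · calc σ ^ u = σ ^ t * σ := by rw [ht, hu]; ring
      _ ≤ σ ^ t * ((1 - 3 * x) * (1 - x)) := by
          apply mul_le_mul_of_nonneg_left _ (pow_nonneg hc.σ0.le _)
          rw [hσx]
          exact hprod

theorem num1 : (1 : ℝ) ≤ (129 / 128 : ℝ) ^ 140 * (129 / 256) := by norm_num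

theorem num2 : (1 : ℝ) ≤ (201 / 200 : ℝ) ^ 140 * (201 / 400) := by norm_num

theorem num3 : (201 / 400 : ℝ) ≤ (129 / 256 * (4095 / 4096)) * (511 / 512 * (4095 / 4096)) := by
  norm_num

/-- The inductive step, biased columns, for essential rows. -/
theorem rstep_cols {R0 : ℕ} {σ κ a0 Λ : ℝ} (hc : RC R0 σ κ a0 Λ) {t u v R : ℕ} (ht : t = 140)
    (hR0 : R ≤ R0)
    (ih : ∀ R' < R, RClaim V σ κ a0 Λ t u v R') {N : V → V → ℝ} {A B : Finset V}
    {w1 w2 e : ℕ} {L : ℝ} (hA : A.Nonempty) (hB : B.Nonempty) (hrk : rk N A B = R)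
    (hbr : ∀ a ∈ A, bad N a B ≤ e) (hbc : ∀ b ∈ B, bad (tr N) b A ≤ e)
    (h1 : ColW (tr N) B A w1) (h2 : ColW N A B w2) (hL : 0 < L) (hLΛ : 2 * L ≤ Λ)
    (hLW : L * (w1 * w2 * 2 ^ R) ≤ (A.card : ℝ) * B.card)
    (heA : (e : ℝ) ≤ κ * L ^ t * σ ^ (v * R) * A.card)
    (heB : (e : ℝ) ≤ κ * L ^ t * σ ^ (v * R) * B.card)
    (hess : Ess N A B (1 / (4 * (R0 : ℝ))))
    {b1 b2 : V} (hb1 : b1 ∈ B) (hb2 : b2 ∈ B) (hnp : ¬ Par N A b1 b2) {s : ℝ} (hs : s * s = 1)
    (hbias : 129 * (A.card : ℝ) <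
      256 * ((A.filter (fun a => N a b1 = s * N a b2)).card : ℝ)) :
    Good N A B (a0 * L ^ t * σ ^ (u * R) * ((A.card : ℝ) * B.card)) := by
  classical
  have hR0R := hc.oneR
  have hApos : (0 : ℝ) < A.card := by exact_mod_cast hA.card_pos
  have hBpos : (0 : ℝ) < B.card := by exact_mod_cast hB.card_pos
  have hLΛ' : L ≤ Λ := by linarith
  have heA' := hc.small ht hL hLΛ' hApos.le heA
  have heB' := hc.small ht hL hLΛ' hBpos.le heB
  have hσv : σ ^ v ≤ 1 := pow_le_one₀ hc.σ0.le hc.σ1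
  have hσu : σ ^ u ≤ 1 := pow_le_one₀ hc.σ0.le hc.σ1
  have hRR : (R : ℝ) ≤ R0 := by exact_mod_cast hR0
  -- small errors
  have hz1 : 1 / (2 ^ 22 * (R0 : ℝ) ^ 4) ≤ 1 / (12 * (R0 : ℝ)) := by
    apply one_div_le_one_div_of_le (by positivity)
    have : (R0 : ℝ) ^ 1 ≤ (R0 : ℝ) ^ 4 := pow_le_pow_right₀ hR0R (by norm_num)
    nlinarith
  have hz2 : (R0 : ℝ) * (1 / (2 ^ 22 * (R0 : ℝ) ^ 4)) ≤ 1 / 2 ^ 13 := by
    rw [mul_one_div, div_le_div_iff₀ (by positivity) (by positivity)]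
    have : (R0 : ℝ) ^ 1 ≤ (R0 : ℝ) ^ 4 := pow_le_pow_right₀ hR0R (by norm_num)
    nlinarith
  have h3e : 3 * (e : ℝ) ≤ 1 / (4 * (R0 : ℝ)) * A.card := by
    calc 3 * (e : ℝ) ≤ 3 * (1 / (2 ^ 22 * (R0 : ℝ) ^ 4) * A.card) := by linarith
      _ ≤ 3 * (1 / (12 * (R0 : ℝ)) * A.card) := by
          apply mul_le_mul_of_nonneg_left _ (by norm_num)
          exact mul_le_mul_of_nonneg_right hz1 hApos.le
      _ = _ := by field_simp; norm_num
  have hReA : (R0 : ℝ) * e ≤ 1 / 2 ^ 13 * A.card := by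
    calc (R0 : ℝ) * e ≤ R0 * (1 / (2 ^ 22 * (R0 : ℝ) ^ 4) * A.card) :=
          mul_le_mul_of_nonneg_left heA' (by linarith)
      _ = R0 * (1 / (2 ^ 22 * (R0 : ℝ) ^ 4)) * A.card := by ring
      _ ≤ _ := mul_le_mul_of_nonneg_right hz2 hApos.le
  have hReB : (R0 : ℝ) * e ≤ 1 / 2 ^ 13 * B.card := by
    calc (R0 : ℝ) * e ≤ R0 * (1 / (2 ^ 22 * (R0 : ℝ) ^ 4) * B.card) :=
          mul_le_mul_of_nonneg_left heB' (by linarith)
      _ = R0 * (1 / (2 ^ 22 * (R0 : ℝ) ^ 4)) * B.card := by ring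
      _ ≤ _ := mul_le_mul_of_nonneg_right hz2 hBpos.le
  obtain ⟨A0, hA0, hsub, hA0lt, hrk0, hmerge, hone⟩ := rsplit hess (Finset.Subset.refl B) hbc h3e
    hb1 hb2 hnp hs
  have hsubR : ((A.filter (fun a => N a b1 = s * N a b2)).card : ℝ) ≤ A0.card := by
    exact_mod_cast hsub
  have hA0card : 129 / 256 * (A.card : ℝ) ≤ A0.card := by linarith
  have hA0pos : (0 : ℝ) < A0.card := by linarith
  rw [hrk] at hrk0
  set R' := rk N A0 B with hR'
  by_cases hk : R' + 2 ≤ R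
  · -- large drop
    refine rdescend hc (R' := R') (by omega) (ih R' (by omega)) hA0 (Finset.Subset.refl B) hA hB
      rfl hbr hbc (h1.mono_right hA0) (h2.two hmerge) hL (c := 129 / 128) (by norm_num)
      (by linarith) (dA := 129 / 256) (dB := 1) (by norm_num) (by norm_num) hA0card (by linarith)
      ?_ heA heB ?_ ?_ ?_
    · have hpow : (2 : ℝ) ^ (R' + 2) ≤ 2 ^ R := pow_le_pow_right₀ (by norm_num) hk
      have hpow' : (2 : ℝ) ^ (R' + 2) = 4 * 2 ^ R' := by ring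
      push_cast
      calc 129 / 128 * L * (w1 * (2 * w2) * 2 ^ R') =
            129 / 256 * (L * (w1 * w2 * (4 * 2 ^ R'))) := by ring
        _ ≤ 129 / 256 * (L * (w1 * w2 * 2 ^ R)) := by
            rw [hpow'] at hpow
            gcongr
        _ ≤ 129 / 256 * ((A.card : ℝ) * B.card) := by linarith
        _ = (129 / 256 * A.card) * B.card := by ring
        _ ≤ A0.card * B.card := mul_le_mul_of_nonneg_right hA0card hBpos.le
    · rw [ht]
      exact hσv.trans num1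
    · rw [ht, mul_one]
      refine hσv.trans (num1.trans ?_)
      have : (0 : ℝ) ≤ (129 / 128 : ℝ) ^ 140 := by positivity
      linarith
    · rw [ht, mul_one]
      exact hσu.trans num1
  · have hk1 : R = R' + 1 := by omega
    set F := B.filter (fun b => ∃ b' ∈ B, Par N A0 b b' ∧ ¬ Par N A b b') with hF
    have hFB : F ⊆ B := Finset.filter_subset _ _
    by_cases hFc : 512 * (F.card : ℝ) < B.card
    · -- few merging columns
      have hcardB : (B.card : ℝ) = (B \ F).card + F.card := by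
        have := Finset.card_sdiff_add_card_eq_card hFB
        exact_mod_cast this.symm
      have hBF : 511 / 512 * (B.card : ℝ) ≤ (B \ F).card := by linarith
      obtain ⟨A2, hA2, B2, hB2, w1', w2', ha, hb, hcw1, hcw2, hw⟩ := restrict (rk N A0 B) N A0 B
        A0 (B \ F) w1 w2 e le_rfl (Finset.Subset.refl _) Finset.sdiff_subset
        (fun a ha => (bad_mono N a Finset.sdiff_subset).trans (hbr a (hA0 ha)))
        (fun b hb => (bad_mono (tr N) b hA0).trans (hbc b hb))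
        (h2.sdiff_merge (by
          intro b hb hb'
          rw [hF, Finset.mem_filter]
          exact ⟨hb, hb'⟩)) (h1.mono_right hA0)
      rw [← hR'] at ha hb hw
      have hR'R0 : (R' : ℝ) ≤ R0 := by exact_mod_cast (by omega : R' ≤ R0)
      have haR : (A0.card : ℝ) ≤ A2.card + R' * e := by exact_mod_cast ha
      have hbR : ((B \ F).card : ℝ) ≤ B2.card + R' * e := by exact_mod_cast hb
      have hR'e : (R' : ℝ) * e ≤ R0 * e := mul_le_mul_of_nonneg_right hR'R0 (Nat.cast_nonneg _)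
      have hA2c : 129 / 256 * (4095 / 4096) * (A.card : ℝ) ≤ A2.card := by
        have : (1 : ℝ) / 2 ^ 13 = 1 / 8192 := by norm_num
        rw [this] at hReA
        linarith
      have hB2c : 511 / 512 * (4095 / 4096) * (B.card : ℝ) ≤ B2.card := by
        have : (1 : ℝ) / 2 ^ 13 = 1 / 8192 := by norm_num
        rw [this] at hReB
        linarith
      have hrk2 : rk N A2 B2 ≤ R' :=
        (rk_mono_left N B2 hA2).trans (rk_mono_right N A0 (hB2.trans Finset.sdiff_subset))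
      have hwR : (w1' * w2' * 2 ^ rk N A2 B2 : ℝ) ≤ w1 * w2 * 2 ^ R' := by exact_mod_cast hw
      refine rdescend hc (R' := rk N A2 B2) (by omega) (ih _ (by omega)) (hA2.trans hA0)
        (hB2.trans Finset.sdiff_subset) hA hB rfl hbr hbc hcw1 hcw2 hL (c := 201 / 200)
        (by norm_num) (by linarith) (dA := 129 / 256 * (4095 / 4096))
        (dB := 511 / 512 * (4095 / 4096)) (by norm_num) (by norm_num) hA2c hB2c ?_ heA heB ?_ ?_ ?_
      · have hpow2 : (2 : ℝ) ^ R = 2 * 2 ^ R' := by rw [hk1]; ring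
        calc 201 / 200 * L * (w1' * w2' * 2 ^ rk N A2 B2) ≤
              201 / 200 * L * (w1 * w2 * 2 ^ R') := by
                apply mul_le_mul_of_nonneg_left hwR
                positivity
          _ = 201 / 400 * (L * (w1 * w2 * 2 ^ R)) := by rw [hpow2]; ring
          _ ≤ 201 / 400 * ((A.card : ℝ) * B.card) := by
              apply mul_le_mul_of_nonneg_left hLW (by norm_num)
          _ ≤ ((129 / 256 * (4095 / 4096)) * (511 / 512 * (4095 / 4096))) *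
                ((A.card : ℝ) * B.card) :=
              mul_le_mul_of_nonneg_right num3 (by positivity)
          _ = (129 / 256 * (4095 / 4096) * A.card) * (511 / 512 * (4095 / 4096) * B.card) := by
              ring
          _ ≤ _ := mul_le_mul hA2c hB2c (by positivity) (Nat.cast_nonneg _)
      · rw [ht]
        refine hσv.trans (num2.trans ?_)
        apply mul_le_mul_of_nonneg_left _ (by positivity)
        norm_num
      · rw [ht]
        refine hσv.trans (num2.trans ?_)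
        apply mul_le_mul_of_nonneg_left _ (by positivity)
        norm_num
      · rw [ht]
        refine hσu.trans (num2.trans ?_)
        exact mul_le_mul_of_nonneg_left num3 (by positivity)
    · -- many merging columns
      push Not at hFc
      have hcardA : (A.card : ℝ) = A0.card + (A \ A0).card := by
        have := Finset.card_sdiff_add_card_eq_card hA0
        have h' : ((A \ A0).card : ℝ) + A0.card = A.card := by exact_mod_cast this
        linarith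
      have hAd : 1 / (4 * (R0 : ℝ)) * A.card < (A \ A0).card := by linarith
      have hAdne : (A \ A0).Nonempty := by
        rw [← Finset.card_pos]
        have : (0 : ℝ) < (A \ A0).card := lt_of_le_of_lt (by positivity) hAd
        exact_mod_cast this
      have hhalf : (1 : ℝ) / (2 * R0) ≤ 1 / 2 := by
        apply one_div_le_one_div_of_le (by norm_num)
        linarith
      obtain ⟨A1, hA1, hA1ne, hA1c, hA1ess⟩ := exists_core (δ := 1 / (2 * (R0 : ℝ)))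
        (by positivity) (by linarith) N B R0 (A \ A0)
        ((rk_mono_left N B Finset.sdiff_subset).trans (by omega)) hAdne
      have hA1c2 : 1 / (8 * (R0 : ℝ)) * A.card ≤ A1.card := by
        calc 1 / (8 * (R0 : ℝ)) * A.card = 1 / 2 * (1 / (4 * (R0 : ℝ)) * A.card) := by
              field_simp; norm_num
          _ ≤ 1 / 2 * (A \ A0).card := by linarith
          _ ≤ (1 - 1 / (2 * (R0 : ℝ))) ^ R0 * (A \ A0).card :=
              mul_le_mul_of_nonneg_right (bern hc.one) (Nat.cast_nonneg _)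
          _ ≤ _ := hA1c
      have h2e : 2 * (e : ℝ) ≤ 1 / (2 * (R0 : ℝ)) * A1.card := by
        have hz3 : 2 * (1 / (2 ^ 22 * (R0 : ℝ) ^ 4)) ≤ 1 / (2 * (R0 : ℝ)) * (1 / (8 * R0)) := by
          rw [mul_one_div, one_div_mul_one_div, div_le_div_iff₀ (by positivity) (by positivity)]
          have : (R0 : ℝ) ^ 2 ≤ (R0 : ℝ) ^ 4 := pow_le_pow_right₀ hR0R (by norm_num)
          nlinarith
        calc 2 * (e : ℝ) ≤ 2 * (1 / (2 ^ 22 * (R0 : ℝ) ^ 4) * A.card) := by linarith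
          _ = 2 * (1 / (2 ^ 22 * (R0 : ℝ) ^ 4)) * A.card := by ring
          _ ≤ 1 / (2 * (R0 : ℝ)) * (1 / (8 * R0)) * A.card :=
              mul_le_mul_of_nonneg_right hz3 hApos.le
          _ = 1 / (2 * (R0 : ℝ)) * (1 / (8 * R0) * A.card) := by ring
          _ ≤ _ := mul_le_mul_of_nonneg_left hA1c2 (by positivity)
      have h3 : rk N A1 F ≤ 1 := by
        apply hone (by omega) F hFB _ A1 hA1 _ hA1ess h2e
        intro b hb
        rw [hF, Finset.mem_filter] at hb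
        exact hb.2
      refine ⟨A1, hA1.trans Finset.sdiff_subset, F, hFB, h3, ?_⟩
      have h9 := hc.asmall (u := u) (R := R) ht hL hLΛ'
      calc a0 * L ^ t * σ ^ (u * R) * ((A.card : ℝ) * B.card) ≤
            1 / (2 ^ 36 * (R0 : ℝ)) * ((A.card : ℝ) * B.card) :=
            mul_le_mul_of_nonneg_right h9 (by positivity)
        _ ≤ (1 / (8 * (R0 : ℝ)) * (1 / 512)) * ((A.card : ℝ) * B.card) := by
            apply mul_le_mul_of_nonneg_right _ (by positivity)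
            rw [one_div_mul_one_div]
            apply one_div_le_one_div_of_le (by positivity)
            nlinarith
        _ = (1 / (8 * (R0 : ℝ)) * A.card) * (B.card / 512) := by ring
        _ ≤ (A1.card : ℝ) * F.card := by
            apply mul_le_mul hA1c2 _ (by positivity) (Nat.cast_nonneg _)
            linarith

/-- No biased pairs. -/
theorem rstep_none {R0 : ℕ} {σ κ a0 Λ : ℝ} (hc : RC R0 σ κ a0 Λ) {t u v R : ℕ} (ht : t = 140)
    (hR1 : 1 ≤ R) (hR0 : R ≤ R0) {N : V → V → ℝ} {A B : Finset V}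
    {w1 w2 e : ℕ} {L : ℝ} (hA : A.Nonempty) (hB : B.Nonempty) (hrk : rk N A B = R)
    (hbr : ∀ a ∈ A, bad N a B ≤ e) (hbc : ∀ b ∈ B, bad (tr N) b A ≤ e)
    (h1 : ColW (tr N) B A w1) (h2 : ColW N A B w2) (hL : 0 < L) (hLΛ : L ≤ Λ)
    (hLW : L * (w1 * w2 * 2 ^ R) ≤ (A.card : ℝ) * B.card)
    (heA : (e : ℝ) ≤ κ * L ^ t * σ ^ (v * R) * A.card)
    (heB : (e : ℝ) ≤ κ * L ^ t * σ ^ (v * R) * B.card)
    (hcn : ∀ b1 ∈ B, ∀ b2 ∈ B, ¬ Par N A b1 b2 → ∀ s : ℝ, s * s = 1 →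
      256 * ((A.filter (fun a => N a b1 = s * N a b2)).card : ℝ) ≤ 129 * A.card)
    (hrn : ∀ a1 ∈ A, ∀ a2 ∈ A, ¬ Par (tr N) B a1 a2 → ∀ s : ℝ, s * s = 1 →
      256 * ((B.filter (fun b => (tr N) b a1 = s * (tr N) b a2)).card : ℝ) ≤ 129 * B.card) :
    Good N A B (a0 * L ^ t * σ ^ (u * R) * ((A.card : ℝ) * B.card)) := by
  classical
  have hR0R := hc.oneR
  have hApos : (0 : ℝ) < A.card := by exact_mod_cast hA.card_pos
  have hBpos : (0 : ℝ) < B.card := by exact_mod_cast hB.card_pos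
  have heA' := hc.small ht hL hLΛ hApos.le heA
  have heB' := hc.small ht hL hLΛ hBpos.le heB
  obtain ⟨k, hk⟩ : ∃ k : ℕ, k = (R + 15) / 16 := ⟨_, rfl⟩
  have hk1 : 1 ≤ k := by omega
  have hk2 : R ≤ 16 * k := by omega
  have hk3 : 16 * k ≤ R + 15 := by omega
  have hkR0 : k ≤ R0 := by omega
  have hkR : (k : ℝ) ≤ R0 := by exact_mod_cast hkR0
  have hek : ∀ x : ℝ, 0 ≤ x → (e : ℝ) ≤ 1 / (2 ^ 22 * (R0 : ℝ) ^ 4) * x →
      4 * (51200 * (12 * k + 5)) * (e : ℝ) ≤ x := by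
    intro x hx he
    have h0 : (4 : ℝ) * (51200 * (12 * k + 5)) ≤ 2 ^ 22 * (R0 : ℝ) ^ 4 := by
      have : (R0 : ℝ) ^ 1 ≤ (R0 : ℝ) ^ 4 := pow_le_pow_right₀ hR0R (by norm_num)
      nlinarith
    calc 4 * (51200 * (12 * k + 5)) * (e : ℝ) ≤ 2 ^ 22 * (R0 : ℝ) ^ 4 * e :=
          mul_le_mul_of_nonneg_right h0 (Nat.cast_nonneg _)
      _ ≤ 2 ^ 22 * (R0 : ℝ) ^ 4 * (1 / (2 ^ 22 * (R0 : ℝ) ^ 4) * x) :=
          mul_le_mul_of_nonneg_left he (by positivity)
      _ = x := by field_simp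
  have hredB : ∀ B' ⊆ B, Red N A B' → B'.card < 2 * 64 ^ k := by
    intro B' hB' hred
    apply few_classes hA hk1 ((rk_mono_right N A hB').trans (by rw [hrk]; exact hk2))
      (fun b hb => hbc b (hB' hb)) (hek _ hApos.le heA')
    intro b hb b' hb' hne s hs
    exact hcn b (hB' hb) b' (hB' hb') (fun h => hne (hred b hb b' hb' h)) s hs
  have hredA : ∀ A' ⊆ A, Red (tr N) B A' → A'.card < 2 * 64 ^ k := by
    intro A' hA' hred
    have h3 : rk (tr N) B A' ≤ 16 * k := by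
      rw [rk_tr]
      exact (rk_mono_left N B hA').trans (by rw [hrk]; exact hk2)
    apply few_classes (N := tr N) hB hk1 h3 (fun b hb => hbr b (hA' hb)) (hek _ hBpos.le heB')
    intro b hb b' hb' hne s hs
    exact hrn b (hA' hb) b' (hA' hb') (fun h => hne (hred b hb b' hb' h)) s hs
  obtain ⟨C, hCB, hCrk, hCcard⟩ := exists_large_class hredB hB
  refine ⟨A, Finset.Subset.refl _, C, hCB, hCrk, ?_⟩
  have hAw : (A.card : ℝ) ≤ w1 * (2 * 64 ^ k) := by
    obtain ⟨A', hA', hred, hrep⟩ := exists_reps (Par (tr N) B) (Par.refl _ _)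
      (fun _ _ h => h.symm) A
    have h3 := card_le_of_reps h1 hA' hrep
    have h4 := (hredA A' hA' hred).le
    have : A.card ≤ w1 * (2 * 64 ^ k) := h3.trans (Nat.mul_le_mul_left _ h4)
    exact_mod_cast this
  have hBw : (B.card : ℝ) ≤ w2 * (2 * 64 ^ k) := by
    obtain ⟨B', hB', hred, hrep⟩ := exists_reps (Par N A) (Par.refl _ _)
      (fun _ _ h => h.symm) B
    have h3 := card_le_of_reps h2 hB' hrep
    have h4 := (hredB B' hB' hred).le
    have : B.card ≤ w2 * (2 * 64 ^ k) := h3.trans (Nat.mul_le_mul_left _ h4)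
    exact_mod_cast this
  have hw1R : (1 : ℝ) ≤ w1 := by exact_mod_cast h1.pos hA
  have hw2R : (1 : ℝ) ≤ w2 := by exact_mod_cast h2.pos hB
  have hL1 : L * 2 ^ R ≤ 4 * (64 ^ k * 64 ^ k) := by
    have h3 : (w1 * w2 : ℝ) * (L * 2 ^ R) ≤ (w1 * w2 : ℝ) * (4 * (64 ^ k * 64 ^ k)) := by
      calc (w1 * w2 : ℝ) * (L * 2 ^ R) = L * (w1 * w2 * 2 ^ R) := by ring
        _ ≤ _ := hLW
        _ ≤ (w1 * (2 * 64 ^ k)) * (w2 * (2 * 64 ^ k)) := mul_le_mul hAw hBw hBpos.le (by positivity)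
        _ = _ := by ring
    exact le_of_mul_le_mul_left h3 (by positivity)
  have hL2 : L * 2 ^ (4 * k) ≤ 2 ^ 17 := by
    have h3 : L * 2 ^ (16 * k) ≤ 2 ^ 17 * 2 ^ (12 * k) := by
      calc L * 2 ^ (16 * k) ≤ L * 2 ^ (R + 15) := by
            apply mul_le_mul_of_nonneg_left _ hL.le
            exact pow_le_pow_right₀ (by norm_num) hk3
        _ = 2 ^ 15 * (L * 2 ^ R) := by ring
        _ ≤ 2 ^ 15 * (4 * (64 ^ k * 64 ^ k)) := by linarith
        _ = 2 ^ 17 * (64 ^ k * 64 ^ k) := by ring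
        _ = 2 ^ 17 * 2 ^ (12 * k) := by
            rw [show (64 : ℝ) = 2 ^ 6 by norm_num, ← pow_mul, ← pow_add]
            congr 2
            ring
    have h4 : L * 2 ^ (16 * k) = L * 2 ^ (4 * k) * 2 ^ (12 * k) := by
      rw [mul_assoc, ← pow_add]
      congr 2
      ring
    rw [h4] at h3
    exact le_of_mul_le_mul_right h3 (by positivity)
  have h10 : L ^ 2 * 64 ^ k ≤ 2 ^ 34 := by
    calc L ^ 2 * 64 ^ k ≤ L ^ 2 * 2 ^ (8 * k) := by
          apply mul_le_mul_of_nonneg_left _ (by positivity)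
          rw [show (64 : ℝ) = 2 ^ 6 by norm_num, ← pow_mul]
          exact pow_le_pow_right₀ (by norm_num) (by omega)
      _ = (L * 2 ^ (4 * k)) ^ 2 := by
          rw [mul_pow, ← pow_mul]
          congr 2
          ring
      _ ≤ (2 ^ 17) ^ 2 := pow_le_pow_left₀ (by positivity) hL2 2
      _ = 2 ^ 34 := by norm_num
  have hΛ1 := hc.Λ1
  have h9 : a0 * L ^ t * σ ^ (u * R) * (2 * 64 ^ k) ≤ 1 := by
    have h11 : L ^ t = L ^ 138 * L ^ 2 := by rw [ht]; ring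
    have h12 : L ^ 138 ≤ Λ ^ 140 := by
      calc L ^ 138 ≤ Λ ^ 138 := pow_le_pow_left₀ hL.le hLΛ 138
        _ ≤ Λ ^ 140 := pow_le_pow_right₀ hΛ1 (by norm_num)
    have h13 : σ ^ (u * R) ≤ 1 := pow_le_one₀ hc.σ0.le hc.σ1
    have h14 : (0 : ℝ) ≤ σ ^ (u * R) := pow_nonneg hc.σ0.le _
    calc a0 * L ^ t * σ ^ (u * R) * (2 * 64 ^ k) = (a0 * L ^ 138) * (L ^ 2 * 64 ^ k) * 2 *
          σ ^ (u * R) := by rw [h11]; ring
      _ ≤ (a0 * Λ ^ 140) * 2 ^ 34 * 2 * 1 := by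
          apply mul_le_mul _ h13 h14 (by
            have := hc.ha
            positivity)
          apply mul_le_mul_of_nonneg_right _ (by norm_num)
          apply mul_le_mul _ h10 (by positivity) (by
            have := hc.ha
            positivity)
          exact mul_le_mul_of_nonneg_left h12 hc.ha.le
      _ ≤ 1 / (2 ^ 36 * (R0 : ℝ)) * 2 ^ 34 * 2 * 1 := by
          have := hc.haΛ
          linarith
      _ ≤ 1 / (2 ^ 36) * 2 ^ 34 * 2 * 1 := by
          have : 1 / (2 ^ 36 * (R0 : ℝ)) ≤ 1 / (2 ^ 36) := by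
            apply one_div_le_one_div_of_le (by positivity)
            linarith
          linarith
      _ ≤ 1 := by norm_num
  have hCc : (B.card : ℝ) ≤ 2 * 64 ^ k * C.card := by exact_mod_cast hCcard
  have hnn : 0 ≤ a0 * L ^ t * σ ^ (u * R) := by
    have := hc.ha
    have := hc.σ0
    positivity
  calc a0 * L ^ t * σ ^ (u * R) * ((A.card : ℝ) * B.card) ≤
        a0 * L ^ t * σ ^ (u * R) * ((A.card : ℝ) * (2 * 64 ^ k * C.card)) := by
          apply mul_le_mul_of_nonneg_left _ hnn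
          exact mul_le_mul_of_nonneg_left hCc hApos.le
    _ = (a0 * L ^ t * σ ^ (u * R) * (2 * 64 ^ k)) * ((A.card : ℝ) * C.card) := by ring
    _ ≤ 1 * ((A.card : ℝ) * C.card) := by
        apply mul_le_mul_of_nonneg_right h9 (by positivity)
    _ = _ := one_mul _

theorem rclaim_all {R0 : ℕ} {σ κ a0 Λ : ℝ} (hc : RC R0 σ κ a0 Λ) {t u v : ℕ} (ht : t = 140)
    (hu : u = 141) (hv : v = 142) : ∀ R ≤ R0, RClaim V σ κ a0 Λ t u v R := by
  classical
  intro R
  induction R using Nat.strong_induction_on with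
  | _ R ih =>
  intro hR0 N A B w1 w2 e L hA hB hrk hbr hbc h1 h2 hL hLΛ hLW heA heB
  have ih' : ∀ R' < R, RClaim V σ κ a0 Λ t u v R' := fun R' hR' => ih R' hR' (by omega)
  have hR0R := hc.oneR
  have hApos : (0 : ℝ) < A.card := by exact_mod_cast hA.card_pos
  have hBpos : (0 : ℝ) < B.card := by exact_mod_cast hB.card_pos
  -- rank zero
  by_cases hRz : R = 0
  · refine ⟨A, Finset.Subset.refl _, B, Finset.Subset.refl _, by omega, ?_⟩
    have h9 := hc.asmall (u := u) (R := R) ht hL hLΛ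
    have h8 : 1 / (2 ^ 36 * (R0 : ℝ)) ≤ 1 := by
      rw [div_le_one (by positivity)]
      nlinarith
    calc a0 * L ^ t * σ ^ (u * R) * ((A.card : ℝ) * B.card) ≤ 1 * ((A.card : ℝ) * B.card) :=
          mul_le_mul_of_nonneg_right (h9.trans h8) (by positivity)
      _ = _ := one_mul _
  have htrLW : L * (w2 * w1 * 2 ^ R) ≤ (B.card : ℝ) * A.card := by
    calc L * (w2 * w1 * 2 ^ R) = L * (w1 * w2 * 2 ^ R) := by ring
      _ ≤ _ := hLW
      _ = _ := by ring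
  by_cases hess : Ess N A B (1 / (4 * (R0 : ℝ)))
  swap
  · exact rstep_ess hc ht hu hv hR0 ih' hA hB hrk hbr hbc h1 h2 hL hLΛ hLW heA heB hess
  by_cases hess2 : Ess (tr N) B A (1 / (4 * (R0 : ℝ)))
  swap
  · apply Good.of_tr
    have := rstep_ess hc ht hu hv hR0 ih' (N := tr N) hB hA (by rw [rk_tr, hrk]) hbc hbr h2 h1 hL
      hLΛ htrLW heB heA hess2
    rwa [mul_comm (B.card : ℝ)] at this
  -- both essential
  have heB' := hc.small ht hL hLΛ hBpos.le heB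
  have hLR : 2 * L ≤ Λ := by
    have h4 := rkw hA hB hc.one (by rw [hrk]; exact hR0) hbr (by
      calc 128 * (R0 : ℝ) ^ 4 * e ≤ 128 * (R0 : ℝ) ^ 4 * (1 / (2 ^ 22 * (R0 : ℝ) ^ 4) * B.card) :=
            mul_le_mul_of_nonneg_left heB' (by positivity)
        _ = 128 / 2 ^ 22 * B.card := by field_simp
        _ ≤ B.card := by linarith) hess2 h1 h2
    rw [hrk] at h4
    have hw1R : (1 : ℝ) ≤ w1 := by exact_mod_cast h1.pos hA
    have hw2R : (1 : ℝ) ≤ w2 := by exact_mod_cast h2.pos hB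
    have h7 : L ≤ 768 * (R0 : ℝ) ^ 3 :=
      le_of_mul_le_mul_right (hLW.trans h4) (by positivity)
    rw [hc.hΛ]
    linarith
  by_cases hcb : ∃ b1 ∈ B, ∃ b2 ∈ B, ¬ Par N A b1 b2 ∧ ∃ s : ℝ, s * s = 1 ∧
      129 * (A.card : ℝ) < 256 * ((A.filter (fun a => N a b1 = s * N a b2)).card : ℝ)
  · obtain ⟨b1, hb1, b2, hb2, hnp, s, hs, hbias⟩ := hcb
    exact rstep_cols hc ht hR0 ih' hA hB hrk hbr hbc h1 h2 hL hLR hLW heA heB hess hb1 hb2 hnp hs
      hbias
  by_cases hrb : ∃ a1 ∈ A, ∃ a2 ∈ A, ¬ Par (tr N) B a1 a2 ∧ ∃ s : ℝ, s * s = 1 ∧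
      129 * (B.card : ℝ) < 256 * ((B.filter (fun b => (tr N) b a1 = s * (tr N) b a2)).card : ℝ)
  · obtain ⟨a1, ha1, a2, ha2, hnp, s, hs, hbias⟩ := hrb
    apply Good.of_tr
    have := rstep_cols hc ht hR0 ih' (N := tr N) hB hA (by rw [rk_tr, hrk]) hbc hbr h2 h1 hL
      hLR htrLW heB heA hess2 ha1 ha2 hnp hs hbias
    rwa [mul_comm (B.card : ℝ)] at this
  push Not at hcb hrb
  exact rstep_none hc ht (by omega) hR0 hA hB hrk hbr hbc h1 h2 hL hLΛ hLW heA heB hcb hrb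

end Pool.Agent.Helper6.LR
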