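import Pool.Agent.Helper6.LR2.Near

set_option linter.unusedSectionVars false

/-!
# Restricting a nearly exact matrix without losing in the potential
-/

namespace Pool.Agent.Helper6.LR

open Finset Module

variable {V : Type*} [Fintype V] [DecidableEq V]

/-- Classes with respect to a subset of rows of full rank. -/
theorem ColW.of_rk_eq {N : V → V → ℝ} {A A' B Bref : Finset V} {w : ℕ} (h : ColW N A B w)
    (hA : A' ⊆ A) (hB : B ⊆ Bref) (hrk : rk N A' Bref = rk N A Bref) : ColW N A' B w :=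
  fun b hb S hS hp => h b hb S hS fun b' hb' =>
    par_of_rk_eq hA hrk (hB hb) (hB (hS hb')) (hp b' hb')

/-- One step, rows. -/
theorem restrict_step {N : V → V → ℝ} {Aref Bref Atar Btar : Finset V} {w2 e : ℕ}
    (hA : Atar ⊆ Aref) (hB : Btar ⊆ Bref) (hbad : ∀ a ∈ Aref, bad N a Btar ≤ e)
    (h2 : ColW N Aref Btar w2) :
    ∃ B' ⊆ Btar, ∃ w', Btar.card ≤ B'.card + (rk N Aref Bref - rk N Atar Bref) * e ∧
      ColW N Atar B' w' ∧ w' ≤ w2 * 2 ^ (rk N Aref Bref - rk N Atar Bref) := by
  obtain ⟨D, hDA, hDc, hDz⟩ := exists_completion N (A' := Atar) (A := Aref) Bref hA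
  obtain ⟨B', hB', hex, hcard⟩ := card_exact N D Btar (e := e) fun a ha => hbad a (hDA ha)
  refine ⟨B', hB', w2 * 2 ^ D.card, ?_, h2.merge_exact hA hB hDA hDz hB' hex, ?_⟩
  · exact hcard.trans (Nat.add_le_add_left (Nat.mul_le_mul_right _ hDc) _)
  · exact Nat.mul_le_mul_left _ (Nat.pow_le_pow_right (by norm_num) hDc)

theorem restrict : ∀ (ρ : ℕ) (N : V → V → ℝ) (Aref Bref Atar Btar : Finset V) (w1 w2 e : ℕ),
    rk N Aref Bref ≤ ρ → Atar ⊆ Aref → Btar ⊆ Bref → (∀ a ∈ Aref, bad N a Btar ≤ e) →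
    (∀ b ∈ Bref, bad (tr N) b Atar ≤ e) → ColW N Aref Btar w2 → ColW (tr N) Bref Atar w1 →
    ∃ A2 ⊆ Atar, ∃ B2 ⊆ Btar, ∃ w1' w2' : ℕ, Atar.card ≤ A2.card + rk N Aref Bref * e ∧
      Btar.card ≤ B2.card + rk N Aref Bref * e ∧ ColW (tr N) B2 A2 w1' ∧ ColW N A2 B2 w2' ∧
      w1' * w2' * 2 ^ rk N A2 B2 ≤ w1 * w2 * 2 ^ rk N Aref Bref := by
  intro ρ
  induction ρ using Nat.strong_induction_on with
  | _ ρ ih =>
  intro N Aref Bref Atar Btar w1 w2 e hρ hA hB hbadr hbadc h2 h1
  have hr1 : rk N Atar Bref ≤ rk N Aref Bref := rk_mono_left N Bref hA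
  by_cases hc1 : rk N Atar Bref < rk N Aref Bref
  · obtain ⟨B', hB', w', hcard, hcw, hw'⟩ := restrict_step hA hB hbadr h2
    obtain ⟨A2, hA2, B2, hB2, w1', w2', ha, hb, hc, hd, he⟩ :=
      ih (rk N Atar Bref) (by omega) N Atar Bref Atar B' w1 w' e le_rfl (Finset.Subset.refl _)
        (hB'.trans hB) (fun a ha => (bad_mono N a hB').trans (hbadr a (hA ha))) hbadc hcw h1
    set d := rk N Aref Bref - rk N Atar Bref with hd'
    have hsum : rk N Aref Bref = rk N Atar Bref + d := by omega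
    refine ⟨A2, hA2, B2, hB2.trans hB', w1', w2', ?_, ?_, hc, hd, ?_⟩
    · refine ha.trans (Nat.add_le_add_left (Nat.mul_le_mul_right _ hr1) _)
    · calc Btar.card ≤ B'.card + d * e := hcard
        _ ≤ B2.card + rk N Atar Bref * e + d * e := Nat.add_le_add_right hb _
        _ = B2.card + rk N Aref Bref * e := by rw [hsum]; ring
    · calc w1' * w2' * 2 ^ rk N A2 B2 ≤ w1 * w' * 2 ^ rk N Atar Bref := he
        _ ≤ w1 * (w2 * 2 ^ d) * 2 ^ rk N Atar Bref := by
            apply Nat.mul_le_mul_right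
            exact Nat.mul_le_mul_left _ hw'
        _ = w1 * w2 * 2 ^ rk N Aref Bref := by
            rw [hsum, pow_add]
            ring
  · have hr : rk N Atar Bref = rk N Aref Bref := by omega
    have h2' : ColW N Atar Btar w2 := h2.of_rk_eq hA hB hr
    have hr2 : rk N Atar Btar ≤ rk N Atar Bref := rk_mono_right N Atar hB
    by_cases hc2 : rk N Atar Btar < rk N Atar Bref
    · obtain ⟨A', hA', w', hcard, hcw, hw'⟩ := restrict_step (N := tr N) (Aref := Bref)
        (Bref := Atar) (Atar := Btar) (Btar := Atar) hB (Finset.Subset.refl _)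
        (fun b hb => hbadc b hb) h1
      rw [rk_tr, rk_tr] at hcard hw'
      set d := rk N Atar Bref - rk N Atar Btar with hd'
      have hsum : rk N Aref Bref = rk N Atar Btar + d := by omega
      obtain ⟨A2, hA2, B2, hB2, w1', w2', ha, hb, hc, hd, he⟩ :=
        ih (rk N Atar Btar) (by omega) N Atar Btar A' Btar w' w2 e le_rfl hA'
          (Finset.Subset.refl _) (fun a ha => hbadr a (hA ha))
          (fun b hb => (bad_mono (tr N) b hA').trans (hbadc b (hB hb))) h2' hcw
      refine ⟨A2, hA2.trans hA', B2, hB2, w1', w2', ?_, ?_, hc, hd, ?_⟩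
      · calc Atar.card ≤ A'.card + d * e := hcard
          _ ≤ A2.card + rk N Atar Btar * e + d * e := Nat.add_le_add_right ha _
          _ = A2.card + rk N Aref Bref * e := by rw [hsum]; ring
      · refine hb.trans (Nat.add_le_add_left (Nat.mul_le_mul_right _ (by omega)) _)
      · calc w1' * w2' * 2 ^ rk N A2 B2 ≤ w' * w2 * 2 ^ rk N Atar Btar := he
          _ ≤ (w1 * 2 ^ d) * w2 * 2 ^ rk N Atar Btar := by
              apply Nat.mul_le_mul_right
              exact Nat.mul_le_mul_right _ hw'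
          _ = w1 * w2 * 2 ^ rk N Aref Bref := by
              rw [hsum, pow_add]
              ring
    · have hr3 : rk N Atar Btar = rk N Atar Bref := by omega
      refine ⟨Atar, Finset.Subset.refl _, Btar, Finset.Subset.refl _, w1, w2,
        Nat.le_add_right _ _, Nat.le_add_right _ _, ?_, h2', ?_⟩
      · refine h1.of_rk_eq hB (Finset.Subset.refl _) ?_
        rw [rk_tr, rk_tr]
        exact hr3
      · rw [hr3, hr]

/-- The splitting lemma for nearly exact matrices. -/
theorem rsplit {N : V → V → ℝ} {A B Bref : Finset V} {δ : ℝ} {e : ℕ} (hEss : Ess N A Bref δ)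
    (hB : B ⊆ Bref) (hbad : ∀ b ∈ B, bad (tr N) b A ≤ e) (he : 3 * (e : ℝ) ≤ δ * A.card)
    {b1 b2 : V} (hb1 : b1 ∈ B) (hb2 : b2 ∈ B) (hnp : ¬ Par N A b1 b2) {s : ℝ} (hs : s * s = 1) :
    ∃ A0 ⊆ A, (A.filter (fun a => N a b1 = s * N a b2)).card ≤ A0.card ∧
      (A0.card : ℝ) < (1 - δ) * A.card ∧ rk N A0 Bref < rk N A Bref ∧
      (∀ b ∈ B, ∀ b' ∈ B, ∀ b'' ∈ B, Par N A0 b b' → Par N A0 b b'' → ¬ Par N A b b' →
        ¬ Par N A b b'' → Par N A b' b'') ∧
      (rk N A Bref = rk N A0 Bref + 1 → ∀ F ⊆ B, (∀ b ∈ F, ∃ b' ∈ B, Par N A0 b b' ∧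
        ¬ Par N A b b') → ∀ A1 ⊆ A \ A0, ∀ δ1 : ℝ, Ess N A1 Bref δ1 →
          2 * (e : ℝ) ≤ δ1 * A1.card → rk N A1 F ≤ 1) := by
  classical
  let Fam : Finset (Finset V) := A.powerset.filter (fun X => ∃ b ∈ B, ∃ b' ∈ B, ∃ s : ℝ,
    s * s = 1 ∧ ¬ Par N A b b' ∧ X = A.filter (fun a => N a b = s * N a b'))
  have hX0 : A.filter (fun a => N a b1 = s * N a b2) ∈ Fam := by
    simp only [Fam, Finset.mem_filter, Finset.mem_powerset]
    exact ⟨Finset.filter_subset _ _, b1, hb1, b2, hb2, s, hs, hnp, rfl⟩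
  obtain ⟨A0, hA0F, hmax⟩ := Finset.exists_max_image Fam Finset.card ⟨_, hX0⟩
  have hA0 := hA0F
  simp only [Fam, Finset.mem_filter, Finset.mem_powerset] at hA0
  obtain ⟨hA0A, c1, hc1, c2, hc2, σ, hσ, hcnp, hA0eq⟩ := hA0
  -- exact entries
  have hexact : ∀ b : V, ∀ a ∈ A, a ∉ A.filter (fun a => ¬ Ex (tr N) b a) → Ex N a b := by
    intro b a ha h
    by_contra h'
    exact h (Finset.mem_filter.mpr ⟨ha, fun h'' => h' h''⟩)
  -- maximality
  have hM : ∀ b ∈ B, ∀ b' ∈ B, ¬ Par N A b b' → ∀ t : ℝ, t * t = 1 →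
      (∀ a ∈ A0, N a b = t * N a b') → ∀ a ∈ A \ A0, Ex N a b → Ex N a b' →
        N a b = -t * N a b' := by
    intro b hb b' hb' hnp' t ht hag a ha hex hex'
    rw [Finset.mem_sdiff] at ha
    have h1 : A.filter (fun a => N a b = t * N a b') ∈ Fam := by
      simp only [Fam, Finset.mem_filter, Finset.mem_powerset]
      exact ⟨Finset.filter_subset _ _, b, hb, b', hb', t, ht, hnp', rfl⟩
    have h2 : A0 ⊆ A.filter (fun a => N a b = t * N a b') := by
      intro x hx
      rw [Finset.mem_filter]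
      exact ⟨hA0A hx, hag x hx⟩
    have h3 := Finset.eq_of_subset_of_card_le h2 (hmax _ h1)
    apply pm_ne ht hex hex'
    intro h4
    apply ha.2
    rw [h3]
    exact Finset.mem_filter.mpr ⟨ha.1, h4⟩
  have hag0 : ∀ a ∈ A0, N a c1 = σ * N a c2 := by
    intro a ha
    rw [hA0eq, Finset.mem_filter] at ha
    exact ha.2
  -- the kernel vector
  let v : V → ℝ := P A (col N c1) - σ • P A (col N c2)
  have hvCS : v ∈ CS N A Bref := diff_mem N A (hB hc1) (hB hc2) σ
  have hvK : v ∈ CS N A Bref ⊓ LinearMap.ker (P A0) := by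
    refine ⟨hvCS, ?_⟩
    have : P A0 v = 0 := by
      simp only [v]
      rw [map_sub, map_smul, P_P hA0A, P_P hA0A, ← map_smul, sub_eq_zero, P_eq_iff]
      intro a ha
      simp only [Pi.smul_apply, smul_eq_mul, col]
      exact hag0 a ha
    exact this
  have hv0 : v ≠ 0 := by
    intro h0
    apply hcnp
    refine ⟨σ, hσ, ?_⟩
    intro a ha
    have h1 : v a = 0 := congrFun h0 a
    have h2 : v a = N a c1 - σ * N a c2 := diff_apply ha σ
    linarith
  have hkpos : 0 < finrank ℝ (CS N A Bref ⊓ LinearMap.ker (P A0) : Submodule ℝ (V → ℝ)) := by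
    apply Module.finrank_pos_iff.mpr
    exact ⟨⟨v, hvK⟩, 0, fun h => hv0 (congrArg Subtype.val h)⟩
  have hadd := rk_add_ker N Bref hA0A
  have hsize : (A0.card : ℝ) < (1 - δ) * A.card := by
    by_contra hcon
    push Not at hcon
    have h1 := hEss A0 hA0A hcon
    omega
  refine ⟨A0, hA0A, hmax _ hX0, hsize, by omega, ?_, ?_⟩
  · intro b hb b' hb' b'' hb'' hp hp' hnp1 hnp2
    obtain ⟨t, ht, hp⟩ := hp
    obtain ⟨t', ht', hp'⟩ := hp'
    have htt : t * t' * (t * t') = 1 := by
      calc t * t' * (t * t') = (t * t) * (t' * t') := by ring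
        _ = 1 := by rw [ht, ht']; norm_num
    refine ⟨t * t', htt, ?_⟩
    -- the set of agreement is large
    let bd : V → Finset V := fun x => A.filter (fun a => ¬ Ex (tr N) x a)
    have hbd : ∀ x ∈ B, (bd x).card ≤ e := fun x hx => hbad x hx
    let X : Finset V := A \ (bd b ∪ bd b' ∪ bd b'')
    have hXA : X ⊆ A := Finset.sdiff_subset
    have hXc : (1 - δ) * (A.card : ℝ) ≤ X.card := by
      have h1 : A.card ≤ X.card + (bd b ∪ bd b' ∪ bd b'').card := by
        have := Finset.card_le_card_sdiff_add_card (s := A) (t := bd b ∪ bd b' ∪ bd b'')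
        omega
      have h2 : (bd b ∪ bd b' ∪ bd b'').card ≤ 3 * e := by
        have h3 := Finset.card_union_le (bd b ∪ bd b') (bd b'')
        have h4 := Finset.card_union_le (bd b) (bd b')
        have h5 := hbd b hb
        have h6 := hbd b' hb'
        have h7 := hbd b'' hb''
        omega
      have h3 : (A.card : ℝ) ≤ X.card + 3 * e := by exact_mod_cast (by omega : A.card ≤ X.card + 3 * e)
      linarith
    have hrk := hEss X hXA hXc
    apply agree_of_rk_eq hXA hrk (hB hb') (hB hb'')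
    intro a ha
    have haA : a ∈ A := hXA ha
    have hnot : a ∉ bd b ∪ bd b' ∪ bd b'' := (Finset.mem_sdiff.mp ha).2
    simp only [Finset.mem_union, not_or] at hnot
    have e0 : Ex N a b := hexact b a haA hnot.1.1
    have e1 : Ex N a b' := hexact b' a haA hnot.1.2
    have e2 : Ex N a b'' := hexact b'' a haA hnot.2
    by_cases haA0 : a ∈ A0
    · have h1 := hp a haA0
      have h2 := hp' a haA0
      calc N a b' = (t * t) * N a b' := by rw [ht, one_mul]
        _ = t * (t * N a b') := by ring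
        _ = t * (t' * N a b'') := by rw [← h1, h2]
        _ = t * t' * N a b'' := by ring
    · have ha1 : a ∈ A \ A0 := Finset.mem_sdiff.mpr ⟨haA, haA0⟩
      have h1 := hM b hb b' hb' hnp1 t ht hp a ha1 e0 e1
      have h2 := hM b hb b'' hb'' hnp2 t' ht' hp' a ha1 e0 e2
      calc N a b' = (t * t) * N a b' := by rw [ht, one_mul]
        _ = -t * (-t * N a b') := by ring
        _ = -t * (-t' * N a b'') := by rw [← h1, h2]
        _ = t * t' * N a b'' := by ring
  · intro hk F hF hFp A1 hA1 δ1 hEss1 he1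
    have hA1A : A1 ⊆ A := hA1.trans Finset.sdiff_subset
    have hfr : finrank ℝ (CS N A Bref ⊓ LinearMap.ker (P A0) : Submodule ℝ (V → ℝ)) = 1 := by
      omega
    have hspan : ∀ w ∈ (CS N A Bref ⊓ LinearMap.ker (P A0) : Submodule ℝ (V → ℝ)),
        ∃ c : ℝ, c • v = w := by
      intro w hw
      obtain ⟨c, hc⟩ := (finrank_eq_one_iff_of_nonzero' (⟨v, hvK⟩ :
        (CS N A Bref ⊓ LinearMap.ker (P A0) : Submodule ℝ (V → ℝ)))
        (fun h => hv0 (congrArg Subtype.val h))).mp hfr ⟨w, hw⟩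
      exact ⟨c, congrArg Subtype.val hc⟩
    have hv1 : P A1 v ∈ CS N A1 Bref := by
      rw [← CS_map N Bref hA1A]
      exact ⟨v, hvCS, rfl⟩
    have hle1 : CS N A1 F ≤ Submodule.span ℝ {P A1 v} := by
      rw [CS, Submodule.span_le]
      rintro _ ⟨b, hb, rfl⟩
      have hbF : b ∈ F := hb
      obtain ⟨b', hb', hp, hnp'⟩ := hFp b hbF
      obtain ⟨t, ht, hp⟩ := hp
      have hw : P A (col N b) - t • P A (col N b') ∈ CS N A Bref ⊓ LinearMap.ker (P A0) := by
        refine ⟨diff_mem N A (hB (hF hbF)) (hB hb') t, ?_⟩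
        have : P A0 (P A (col N b) - t • P A (col N b')) = 0 := by
          rw [map_sub, map_smul, P_P hA0A, P_P hA0A, ← map_smul, sub_eq_zero, P_eq_iff]
          intro a ha
          simp only [Pi.smul_apply, smul_eq_mul, col]
          exact hp a ha
        exact this
      obtain ⟨c, hc⟩ := hspan _ hw
      show P A1 (col N b) ∈ Submodule.span ℝ {P A1 v}
      rw [Submodule.mem_span_singleton]
      refine ⟨c / 2, ?_⟩
      let bd : V → Finset V := fun x => A.filter (fun a => ¬ Ex (tr N) x a)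
      have hbd : ∀ x ∈ B, (bd x).card ≤ e := fun x hx => hbad x hx
      let X : Finset V := A1 \ (bd b ∪ bd b')
      have hXA : X ⊆ A1 := Finset.sdiff_subset
      have hXc : (1 - δ1) * (A1.card : ℝ) ≤ X.card := by
        have h1 : A1.card ≤ X.card + (bd b ∪ bd b').card := by
          have := Finset.card_le_card_sdiff_add_card (s := A1) (t := bd b ∪ bd b')
          omega
        have h2 : (bd b ∪ bd b').card ≤ 2 * e := by
          have h4 := Finset.card_union_le (bd b) (bd b')
          have h5 := hbd b (hF hbF)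
          have h6 := hbd b' hb'
          omega
        have h3 : (A1.card : ℝ) ≤ X.card + 2 * e := by
          exact_mod_cast (by omega : A1.card ≤ X.card + 2 * e)
        linarith
      have hz : P A1 (col N b) - (c / 2) • P A1 v ∈ CS N A1 Bref :=
        Submodule.sub_mem _ (mem_CS N A1 (hB (hF hbF))) (Submodule.smul_mem _ _ hv1)
      have hz0 := hEss1.zero hXA hXc hz (by
        intro a ha
        have haA1 : a ∈ A1 := hXA ha
        have haA : a ∈ A := hA1A haA1
        have hnot : a ∉ bd b ∪ bd b' := (Finset.mem_sdiff.mp ha).2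
        simp only [Finset.mem_union, not_or] at hnot
        have e0 : Ex N a b := hexact b a haA hnot.1
        have e1 : Ex N a b' := hexact b' a haA hnot.2
        have h1 := hM b (hF hbF) b' hb' hnp' t ht hp a (hA1 haA1) e0 e1
        have h2 := congrFun hc a
        rw [diff_apply haA, Pi.smul_apply, smul_eq_mul] at h2
        simp only [Pi.sub_apply, Pi.smul_apply, P_mem haA1, smul_eq_mul, col]
        linarith)
      rw [sub_eq_zero] at hz0
      exact hz0.symm
    calc rk N A1 F ≤ finrank ℝ (Submodule.span ℝ {P A1 v}) := Submodule.finrank_mono hle1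
      _ ≤ 1 := by
          refine (finrank_span_le_card _).trans ?_
          simp

end Pool.Agent.Helper6.LR
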